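import Pool.Agent.P.MP_fc15d7_nt.Iface

/-! Reduction of lattice bases. -/

set_option autoImplicit false

open Matrix Filter Module

namespace Pool.Agent.P.MP_fc15d7_nt

section
variable {ι ι' : Type} [Fintype ι] [DecidableEq ι] [Fintype ι'] [DecidableEq ι']

/-- the matrix can be reduced with constant `K` -/
def ReduOK (K : ℝ) (A : Matrix ι ι ℝ) : Prop :=
  ∃ (V : Matrix ι ι ℤ) (μ : ι → ℝ), IsUnit V.det ∧ (∀ i, 0 < μ i) ∧
    ∏ i, μ i = |A.det| ∧ ∀ i j, |(A * V.map (Int.cast : ℤ → ℝ)) i j| ≤ K * μ i ∧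
      |(A * V.map (Int.cast : ℤ → ℝ)) i j| ≤ K * μ j

theorem redu_unit (V : Matrix ι ι ℤ) (e f : ι' ≃ ι) (h : IsUnit V.det) :
    IsUnit (V.submatrix e f).det := by
  rw [Int.isUnit_iff_abs_eq] at h ⊢
  rw [abs_det_submatrix_equiv_equiv, h]

theorem redu_sub {K : ℝ} {A : Matrix ι ι ℝ} (e f : ι' ≃ ι) (h : ReduOK K (A.submatrix e f)) :
    ReduOK K A := by
  obtain ⟨V, μ, h1, h2, h3, h4⟩ := h
  refine ⟨V.submatrix f.symm e.symm, μ ∘ e.symm, redu_unit V _ _ h1, fun i => h2 _, ?_,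
    fun i j => ?_⟩
  · rw [← abs_det_submatrix_equiv_equiv e f, ← h3]; exact Equiv.prod_comp e.symm μ
  · have : (A * (V.submatrix f.symm e.symm).map (Int.cast : ℤ → ℝ)) i j =
        (A.submatrix e f * V.map (Int.cast : ℤ → ℝ)) (e.symm i) (e.symm j) := by
      simp only [mul_apply, map_apply, submatrix_apply, Equiv.apply_symm_apply]
      rw [← Equiv.sum_comp f]
      simp only [Equiv.symm_apply_apply]
    rw [this]; exact h4 _ _

omit [DecidableEq ι] in
theorem redu_map (V W : Matrix ι ι ℤ) : (V * W).map (Int.cast : ℤ → ℝ) =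
    V.map (Int.cast : ℤ → ℝ) * W.map (Int.cast : ℤ → ℝ) :=
  Matrix.map_mul (f := Int.castRingHom ℝ)

theorem redu_det (A : Matrix ι ι ℝ) {V : Matrix ι ι ℤ} (h : IsUnit V.det) :
    |(A * V.map (Int.cast : ℤ → ℝ)).det| = |A.det| := by
  rw [det_mul, abs_mul, ← Int.cast_det, ← Int.cast_abs, Int.isUnit_iff_abs_eq.1 h]; simp

theorem redu_mul {K : ℝ} {A : Matrix ι ι ℝ} {W : Matrix ι ι ℤ} (hW : IsUnit W.det)
    (h : ReduOK K (A * W.map (Int.cast : ℤ → ℝ))) : ReduOK K A := by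
  obtain ⟨V, μ, h1, h2, h3, h4⟩ := h
  refine ⟨W * V, μ, by rw [det_mul]; exact hW.mul h1, h2, h3.trans (redu_det A hW), ?_⟩
  rw [redu_map, ← Matrix.mul_assoc]; exact h4

theorem redu_core {K : ℝ} (K1 : 1 ≤ K) (ih : ∀ S : Matrix ι ι ℝ, S.det ≠ 0 → ReduOK K S)
    {A : Matrix (Unit ⊕ ι) (Unit ⊕ ι) ℝ} (hA : A.det ≠ 0)
    (hp : ∀ i, |A i (.inl ())| ≤ |A (.inl ()) (.inl ())|)
    (hm : ∀ W : Matrix (Unit ⊕ ι) (Unit ⊕ ι) ℤ, IsUnit W.det → ∀ j c,
      (∀ i, |(A * W.map (Int.cast : ℤ → ℝ)) i j| ≤ c) → |A (.inl ()) (.inl ())| ≤ 3 / 2 * c) :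
    ReduOK (6 * K) A := by
  set a := A (.inl ()) (.inl ()) with ha
  have a0 : a ≠ 0 := fun h => hA (det_eq_zero_of_column_eq_zero (.inl ()) fun i =>
    abs_nonpos_iff.1 (by simpa [h] using hp i))
  have a1 : 0 < |a| := abs_pos.2 a0
  let S : Matrix ι ι ℝ := Matrix.of fun i j =>
    A (.inr i) (.inr j) - A (.inr i) (.inl ()) * (A (.inl ()) (.inr j) / a)
  have hdet : A.det = a * S.det := by
    let E : Matrix (Unit ⊕ ι) (Unit ⊕ ι) ℝ :=
      fromBlocks 1 (Matrix.of fun _ j => A (.inl ()) (.inr j) / a) 0 1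
    have e : A = fromBlocks (Matrix.of fun _ _ => a) 0
        (Matrix.of fun i _ => A (.inr i) (.inl ())) S * E := by
      rw [fromBlocks_multiply]
      ext (i | i) (j | j)
      · simp [ha]
      · simp [mul_apply]; field_simp
      · simp
      · simp [mul_apply, S]
    conv_lhs => rw [e]
    rw [det_mul, det_fromBlocks_zero₁₂, det_fromBlocks_zero₂₁]; simp
  obtain ⟨V, μ, h1, h2, h3, h4⟩ := ih S fun h => hA (by rw [hdet, h, mul_zero])
  let t : ι → ℝ := fun j => ∑ k, A (.inl ()) (.inr k) / a * V k j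
  let W : Matrix (Unit ⊕ ι) (Unit ⊕ ι) ℤ := fromBlocks 1 (Matrix.of fun _ j => -round (t j)) 0 V
  have hW : IsUnit W.det := by rw [det_fromBlocks_zero₂₁]; simpa using h1
  have b1 : ∀ i, (A * W.map (Int.cast : ℤ → ℝ)) i (.inl ()) = A i (.inl ()) := fun i => by
    simp [mul_apply, W]
  have b2 : ∀ j, |(A * W.map (Int.cast : ℤ → ℝ)) (.inl ()) (.inr j)| ≤ |a| / 2 := fun j => by
    have : (A * W.map (Int.cast : ℤ → ℝ)) (.inl ()) (.inr j) = a * (t j - round (t j)) := by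
      have e : a * t j = ∑ k, A (.inl ()) (.inr k) * V k j := by
        rw [Finset.mul_sum]
        exact Finset.sum_congr rfl fun k _ => by field_simp
      rw [mul_sub, e]
      simp [mul_apply, W, ← ha]; ring
    rw [this, abs_mul]
    nlinarith [abs_sub_round (t j)]
  have b3 : ∀ i j, |(A * W.map (Int.cast : ℤ → ℝ)) (.inr i) (.inr j)| ≤
      |(S * V.map (Int.cast : ℤ → ℝ)) i j| + |a| / 2 := fun i j => by
    have : (A * W.map (Int.cast : ℤ → ℝ)) (.inr i) (.inr j) = (S * V.map (Int.cast : ℤ → ℝ)) i j +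
        A (.inr i) (.inl ()) * (t j - round (t j)) := by
      simp [mul_apply, W, S, t, sub_mul, mul_sub, Finset.mul_sum, mul_assoc]; ring
    rw [this]
    refine (abs_add_le _ _).trans (add_le_add le_rfl ?_)
    rw [abs_mul]
    nlinarith [abs_sub_round (t j), hp (.inr i), abs_nonneg (A (.inr i) (.inl ())),
      abs_nonneg (t j - round (t j))]
  have b4 : ∀ j, |a| ≤ 6 * K * μ j := fun j => by
    have := hm W hW (.inr j) (K * μ j + |a| / 2) fun i => by
      rcases i with i | i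
      · nlinarith [b2 j, h2 j]
      · linarith [b3 i j, (h4 i j).2]
    linarith
  have b5 : |a| ≤ 6 * K * |a| := by nlinarith
  refine ⟨W, Sum.elim (fun _ => |a|) μ, hW, ?_, ?_, ?_⟩
  · rintro (i | i)
    · exact a1
    · exact h2 i
  · simp [h3, hdet, abs_mul]
  · rintro (i | i) (j | j) <;> simp only [Sum.elim_inl, Sum.elim_inr, b1]
    · exact ⟨b5, b5⟩
    · exact ⟨by linarith [b2 j], by linarith [b2 j, b4 j]⟩
    · exact ⟨(hp _).trans (b4 i), (hp _).trans b5⟩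
    · have := mul_pos (zero_lt_one.trans_le K1) (h2 i)
      have := mul_pos (zero_lt_one.trans_le K1) (h2 j)
      exact ⟨by linarith [b3 i j, (h4 i j).1, b4 i], by linarith [b3 i j, (h4 i j).2, b4 j]⟩

theorem redu_min [Nonempty ι] {A : Matrix ι ι ℝ} (hA : A.det ≠ 0) :
    ∃ (V : Matrix ι ι ℤ) (j : ι), IsUnit V.det ∧ ∀ (W : Matrix ι ι ℤ) (k : ι), IsUnit W.det →
      ‖fun i => (A * V.map (Int.cast : ℤ → ℝ)) i j‖ ≤
        3 / 2 * ‖fun i => (A * W.map (Int.cast : ℤ → ℝ)) i k‖ := by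
  let T : Set ℝ := {x | ∃ (V : Matrix ι ι ℤ) (j : ι), IsUnit V.det ∧
    ‖fun i => (A * V.map (Int.cast : ℤ → ℝ)) i j‖ = x}
  have hne : T.Nonempty := ⟨_, 1, Classical.arbitrary ι, by simp, rfl⟩
  obtain ⟨C, C0, hC⟩ := (Matrix.toLin' A⁻¹).toContinuousLinearMap.bound
  have hlb : ∀ x ∈ T, C⁻¹ ≤ x := by
    rintro _ ⟨V, j, hV, rfl⟩
    have h1 := hC fun i => (A * V.map (Int.cast : ℤ → ℝ)) i j
    have h2 : (Matrix.toLin' A⁻¹).toContinuousLinearMap
        (fun i => (A * V.map (Int.cast : ℤ → ℝ)) i j) = fun i => (V i j : ℝ) := by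
      funext i
      change (A⁻¹ * (A * V.map (Int.cast : ℤ → ℝ))) i j = _
      rw [nonsing_inv_mul_cancel_left _ _ (Ne.isUnit hA)]; rfl
    obtain ⟨i, hi⟩ : ∃ i, V i j ≠ 0 := by
      by_contra h
      push Not at h
      exact hV.ne_zero (det_eq_zero_of_column_eq_zero j h)
    have h3 := norm_le_pi_norm (fun i => (V i j : ℝ)) i
    have h4 : (1 : ℝ) ≤ ‖(V i j : ℝ)‖ := by
      rw [Real.norm_eq_abs]; exact_mod_cast Int.one_le_abs hi
    rw [h2] at h1
    rw [inv_le_iff_one_le_mul₀' C0]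
    linarith
  have h0 : 0 < sInf T := (inv_pos.2 C0).trans_le (le_csInf hne hlb)
  obtain ⟨_, ⟨V, j, hV, rfl⟩, h⟩ := exists_lt_of_csInf_lt hne
    (show sInf T < 3 / 2 * sInf T by linarith)
  refine ⟨V, j, hV, fun W k hW => h.le.trans ?_⟩
  have := csInf_le ⟨_, hlb⟩ (⟨W, k, hW, rfl⟩ : _ ∈ T)
  linarith

theorem redu_step {K : ℝ} (K1 : 1 ≤ K) (ih : ∀ S : Matrix ι ι ℝ, S.det ≠ 0 → ReduOK K S)
    (A : Matrix (Unit ⊕ ι) (Unit ⊕ ι) ℝ) (hA : A.det ≠ 0) : ReduOK (6 * K) A := by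
  obtain ⟨V, j, hV, h⟩ := redu_min hA
  obtain ⟨i, -, hi⟩ := Finset.exists_max_image Finset.univ
    (fun i => |(A * V.map (Int.cast : ℤ → ℝ)) i j|) Finset.univ_nonempty
  refine redu_mul hV (redu_sub (Equiv.swap (.inl ()) i) (Equiv.swap (.inl ()) j)
    (redu_core K1 ih ?_ (fun k => ?_) fun W hW k c hc => ?_))
  · rw [← abs_ne_zero, abs_det_submatrix_equiv_equiv, redu_det A hV]; exact abs_ne_zero.2 hA
  · simpa using hi _ (Finset.mem_univ _)
  · have h1 := h (V * W.submatrix (Equiv.swap (.inl ()) j) (Equiv.refl _)) k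
      (by rw [det_mul]; exact hV.mul (redu_unit W _ _ hW))
    have h2 := norm_le_pi_norm (fun i => (A * V.map (Int.cast : ℤ → ℝ)) i j) i
    have h3 : ‖fun i => (A * (V * W.submatrix (Equiv.swap (.inl ()) j) (Equiv.refl _)).map
        (Int.cast : ℤ → ℝ)) i k‖ ≤ c := by
      refine (pi_norm_le_iff_of_nonneg ((abs_nonneg _).trans (hc k))).2 fun l => ?_
      have h4 := hc (Equiv.swap (.inl ()) i l)
      rw [redu_map, ← Matrix.mul_assoc, Real.norm_eq_abs]
      convert h4 using 2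
      rw [mul_apply, mul_apply, ← Equiv.sum_comp (Equiv.swap (.inl ()) j)]
      simp
    simp only [submatrix_apply, Equiv.swap_apply_left]
    rw [Real.norm_eq_abs] at h2
    linarith

end

theorem t_REDU : S_REDU := by
  intro D
  induction D with
  | zero => exact ⟨1, le_rfl, fun A _ => ⟨1, fun _ => 1, by simp, by simp, by simp, by simp⟩⟩
  | succ D ih =>
    obtain ⟨K, K1, ih⟩ := ih
    obtain ⟨e⟩ : Nonempty (Unit ⊕ Fin D ≃ Fin (D + 1)) :=
      ⟨Fintype.equivOfCardEq (by simp [add_comm])⟩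
    exact ⟨6 * K, by linarith, fun A hA => redu_sub e e
      (redu_step K1 ih _ (by rwa [det_submatrix_equiv_self]))⟩

end Pool.Agent.P.MP_fc15d7_nt
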