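import Pool.Agent.P.MP_fc15d7_nt.Iface
import Pool.Agent.P.MP_7aad9f_nt.SubZL
import Pool.Agent.P.MP_7aad9f_nt.SubORD
import Pool.Agent.P.MP_7aad9f_nt.SubSIZE
import Pool.Agent.P.MP_7aad9f_nt.SubBASE
import Pool.Agent.P.MP_7aad9f_nt.SubGREEDY
import Pool.Agent.P.MP_7aad9f_nt.SubSYLV
import Pool.Agent.P.MP_7aad9f_nt.SubTRI2

/-! Elimination of the first variable. -/

set_option autoImplicit false

open Polynomial Pool.Agent.P.MP_7aad9f_nt.Sub

namespace Pool.Agent.P.MP_fc15d7_nt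

variable {n : ℕ}

theorem elim_top (α : Fin (n + 1) → ℚ) {F : MvPolynomial (Fin (n + 1)) ℤ} (hF : F ≠ 0)
    {Q : (MvPolynomial (Fin n) ℤ)[X]} (hQ : evl α ((MvPolynomial.finSuccEquiv ℤ n).symm Q) = 0)
    {e : ℕ} (he : Q ^ e ∣ MvPolynomial.finSuccEquiv ℤ n F) :
    e = 0 ∨ (∃ h : Fin n, e ≤ F.degreeOf h.succ) ∨ (α 0).den ^ e ≤ nrm F := by
  obtain ⟨Q', rfl⟩ := (MvPolynomial.finSuccEquiv ℤ n).surjective Q
  refine or_iff_not_imp_left.2 fun h0 => or_iff_not_imp_left.2 fun h1 => ?_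
  push Not at h1
  have h2 : ∀ h : Fin n, Q'.degreeOf h.succ = 0 := by
    rw [← map_pow, map_dvd_iff] at he
    obtain ⟨H, rfl⟩ := he
    intro h
    have h3 := h1 h
    have h4 : Q' ≠ 0 := fun h => hF (by rw [h, zero_pow h0, zero_mul])
    rw [MvPolynomial.degreeOf_mul_eq (left_ne_zero_of_mul hF) (right_ne_zero_of_mul hF),
      MvPolynomial.degreeOf_pow_eq _ _ _ h4] at h3
    by_contra h5
    have := Nat.le_mul_of_pos_right e (Nat.pos_of_ne_zero h5)
    omega
  obtain ⟨q, hq⟩ : ∃ q : ℤ[X], q.map MvPolynomial.C = MvPolynomial.finSuccEquiv ℤ n Q' := by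
    rw [← mem_lifts, lifts_iff_coeff_lifts]
    refine fun i => ⟨_, (MvPolynomial.totalDegree_eq_zero_iff_eq_C.1
      ((MvPolynomial.totalDegree_eq_zero_iff _ _).2 fun d hd h => ?_)).symm⟩
    exact Nat.le_zero.1 (h2 h ▸ (MvPolynomial.monomial_le_degreeOf h hd).trans
      (MvPolynomial.degreeOf_coeff_finSuccEquiv Q' h i))
  rw [← hq] at hQ he
  have key : ((evl α).comp ((MvPolynomial.finSuccEquiv ℤ n).symm :
      (MvPolynomial (Fin n) ℤ)[X] →+* _)).comp (mapRingHom MvPolynomial.C) =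
      (evalRingHom (α 0)).comp (mapRingHom (Int.castRingHom ℚ)) := by
    refine Polynomial.ringHom_ext' (RingHom.ext_int _ _) ?_
    have hX : (MvPolynomial.finSuccEquiv ℤ n).symm X = MvPolynomial.X 0 := by
      rw [AlgEquiv.symm_apply_eq, MvPolynomial.finSuccEquiv_X_zero]
    simp [hX, evl]
  have h3 := base_den (α 0) 1 q (by
    rw [pow_one, dvd_iff_isRoot]
    exact (DFunLike.congr_fun key q).symm.trans hQ)
  have h4 := leadingCoeff_dvd_leadingCoeff he
  rw [leadingCoeff_pow, leadingCoeff_map_of_injective (MvPolynomial.C_injective _ _),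
    ← map_pow] at h4
  rw [pow_one] at h3
  have h5 := MvPolynomial.C_dvd_iff_dvd_coeff _ _ |>.1
    ((_root_.map_dvd MvPolynomial.C (pow_dvd_pow_of_dvd h3 e)).trans h4)
  obtain ⟨d, hd⟩ := MvPolynomial.support_nonempty.2 (leadingCoeff_ne_zero.2
    ((map_ne_zero_iff _ (MvPolynomial.finSuccEquiv ℤ n).injective).2 hF))
  have h6 := Int.natAbs_dvd_natAbs.2 (h5 d)
  rw [Int.natAbs_pow, Int.natAbs_natCast] at h6
  exact ((Nat.le_of_dvd (Int.natAbs_pos.2 (MvPolynomial.mem_support_iff.1 hd)) h6).trans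
    (Finset.single_le_sum (f := fun d => Int.natAbs (MvPolynomial.coeff d _))
      (fun _ _ => Nat.zero_le _) hd)).trans (size_nrm_coeff F _)

theorem elim_key (α : Fin (n + 1) → ℚ) (wt : Fin (n + 1) → ℕ) (b : Fin (n + 1) → ℚ)
    (P : (MvPolynomial (Fin n) ℤ)[X]) :
    sb α wt b ((MvPolynomial.finSuccEquiv ℤ n).symm P) =
      eval (C (b 0) * X ^ wt 0) (taylor (C (α 0))
        (P.map (sb (Fin.tail α) (Fin.tail wt) (Fin.tail b)))) := by
  obtain ⟨F, rfl⟩ := (MvPolynomial.finSuccEquiv ℤ n).surjective P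
  rw [AlgEquiv.symm_apply_apply, taylor_eval]
  have key : sb α wt b = ((evalRingHom (C (b 0) * X ^ wt 0 + C (α 0))).comp
      (mapRingHom (sb (Fin.tail α) (Fin.tail wt) (Fin.tail b)))).comp
      (MvPolynomial.finSuccEquiv ℤ n : MvPolynomial (Fin (n + 1)) ℤ →+* _) := by
    refine MvPolynomial.ringHom_ext (fun r => by simp) fun i => ?_
    refine Fin.cases ?_ (fun j => ?_) i
    · simp [sb, MvPolynomial.finSuccEquiv_X_zero, add_comm]
    · simp [sb, MvPolynomial.finSuccEquiv_X_succ, Fin.tail]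
  rw [key]
  rfl

theorem elim_interp (T : ℚ[X][X]) (m w : ℕ)
    (h : ∀ β : ℚ, (X : ℚ[X]) ^ m ∣ T.eval (C β * X ^ w)) (c : ℕ) :
    (X : ℚ[X]) ^ (m - c * w) ∣ T.coeff c := by
  rw [X_pow_dvd_iff]
  intro d hd
  by_cases hc : T.natDegree < c
  · rw [coeff_eq_zero_of_natDegree_lt hc, coeff_zero]
  have h1 : (∑ i ∈ Finset.range (T.natDegree + 1),
      monomial i ((T.coeff i * X ^ (i * w)).coeff (d + c * w)) : ℚ[X]) = 0 := by
    refine Polynomial.funext fun β => ?_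
    have h2 := X_pow_dvd_iff.mp (h β) (d + c * w) (by omega)
    rw [eval_eq_sum_range, finsetSum_coeff] at h2
    rw [eval_zero, ← h2, eval_finsetSum]
    refine Finset.sum_congr rfl fun i _ => ?_
    rw [eval_monomial, mul_pow, ← C_pow, mul_left_comm, coeff_C_mul, mul_comm, ← pow_mul,
      mul_comm w]
  have h2 := congrArg (fun p : ℚ[X] => p.coeff c) h1
  simp only [finsetSum_coeff, coeff_monomial, Finset.sum_ite_eq', Finset.mem_range, coeff_zero,
    coeff_mul_X_pow] at h2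
  rwa [if_pos (by omega)] at h2

theorem elim_ord (α : Fin (n + 1) → ℚ) (wt : Fin (n + 1) → ℕ) (m : ℕ)
    (P : (MvPolynomial (Fin n) ℤ)[X]) (hP : Ord α wt m ((MvPolynomial.finSuccEquiv ℤ n).symm P)) :
    (∀ e : ℕ, Ord α wt (m - e * wt 0) ((MvPolynomial.finSuccEquiv ℤ n).symm (hasseDeriv e P))) ∧
      ∀ (b : Fin n → ℚ) (c : ℕ), (X : ℚ[X]) ^ (m - c * wt 0) ∣
        (taylor (C (α 0)) (P.map (sb (Fin.tail α) (Fin.tail wt) b))).coeff c := by
  have key : ∀ (b : Fin n → ℚ) (c : ℕ), (X : ℚ[X]) ^ (m - c * wt 0) ∣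
      (taylor (C (α 0)) (P.map (sb (Fin.tail α) (Fin.tail wt) b))).coeff c := fun b =>
    elim_interp _ m _ fun β => by
      have h1 := hP (Fin.cons β b)
      rwa [elim_key α wt] at h1
  refine ⟨fun e b => ?_, key⟩
  rw [elim_key α wt, eval_eq_sum_range]
  refine Finset.dvd_sum fun c _ => ?_
  rw [ord_hasse, nsmul_eq_mul, mul_pow, mul_assoc, ← pow_mul, mul_comm (wt 0)]
  refine Dvd.dvd.mul_left ?_ _
  refine (pow_dvd_pow X (show m - e * wt 0 ≤ m - (c + e) * wt 0 + c * wt 0 by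
    rw [add_mul]; omega)).trans ?_
  rw [pow_add]
  exact mul_dvd_mul (key _ _) (dvd_mul_left _ _)

theorem elim_size (F : MvPolynomial (Fin (n + 1)) ℤ) {N : ℕ} (K : ℕ)
    (M : Matrix (Fin N) (Fin N) (MvPolynomial (Fin n) ℤ))
    (hM : ∀ ρ c, ∃ (κ : ℤ) (i : ℕ), |κ| ≤ K ∧
      M ρ c = κ • (MvPolynomial.finSuccEquiv ℤ n F).coeff i) :
    (∀ h, M.det.degreeOf h ≤ N * F.degreeOf h.succ) ∧
      nrm M.det ≤ N.factorial * (K * nrm F) ^ N := by
  have h0 : ∀ (h : Fin n) (κ : ℤ) (G : MvPolynomial (Fin n) ℤ),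
      (κ • G).degreeOf h ≤ G.degreeOf h := fun h κ G => by
    rw [MvPolynomial.smul_eq_C_mul]
    exact MvPolynomial.degreeOf_C_mul_le _ _ _
  have h2 : ∀ ρ c : Fin N, nrm (M ρ c) ≤ K * nrm F := by
    intro ρ c
    obtain ⟨κ, i, hk, h⟩ := hM ρ c
    rw [h]
    refine (size_nrm_smul _ _).trans (Nat.mul_le_mul ?_ (size_nrm_coeff F i))
    rw [← Int.natCast_natAbs] at hk
    exact_mod_cast hk
  rw [Matrix.det_apply]
  simp only [Units.smul_def]
  refine ⟨fun h => (MvPolynomial.degreeOf_sum_le _ _ _).trans (Finset.sup_le fun σ _ =>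
    (h0 _ _ _).trans ((MvPolynomial.degreeOf_prod_le _ _ _).trans
      ((Finset.sum_le_card_nsmul _ _ (F.degreeOf h.succ) fun c _ => ?_).trans (by simp)))), ?_⟩
  · obtain ⟨κ, i, -, e⟩ := hM (σ c) c
    rw [e]
    exact (h0 _ _ _).trans (MvPolynomial.degreeOf_coeff_finSuccEquiv F h i)
  · refine (size_nrm_sum _ _).trans ((Finset.sum_le_card_nsmul _ _ ((K * nrm F) ^ N)
      fun σ _ => ?_).trans ?_)
    · refine (size_nrm_smul _ _).trans ?_
      rw [Int.units_natAbs, one_mul]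
      refine (size_nrm_prod _ _).trans ((Finset.prod_le_pow_card _ _ _ fun c _ => h2 _ c).trans ?_)
      simp
    · simp [Fintype.card_perm]

theorem t_ELIM : S_ELIM := by
  classical
  intro n α wt m m' F hα hw hF hm hO
  have hdeg : (MvPolynomial.finSuccEquiv ℤ n F).natDegree = F.degreeOf 0 :=
    MvPolynomial.natDegree_finSuccEquiv F
  set E := MvPolynomial.finSuccEquiv ℤ n with hE
  set P := E F with hP
  have hFP : E.symm P = F := by simp [hP]
  have hP0 : P ≠ 0 := (map_ne_zero_iff _ E.injective).2 hF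
  let ev : (MvPolynomial (Fin n) ℤ)[X] →+* ℚ := (evl α).comp (E.symm : _ →+* _)
  have hevX : ev X ≠ 0 := by
    have hXs : E.symm X = MvPolynomial.X 0 := by
      rw [AlgEquiv.symm_apply_eq, hE, MvPolynomial.finSuccEquiv_X_zero]
    change evl α (E.symm X) ≠ 0
    rw [hXs]
    simpa [evl] using hα
  have hm0 : m' ≤ m := by simpa using hm 0 (Or.inl rfl)
  obtain ⟨F₂, hspan, hcoef, hcop⟩ := greedy _ P ev ((m - m') / wt 0 + 1) hP0 hevX (by
    intro Q _ _ hQ0 e he
    have := hm e (elim_top α hF hQ0 he)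
    exact Nat.lt_succ_of_le ((Nat.le_div_iff_mul_le (hw 0)).2 (by omega)))
  have hO1 : Ord α wt m' (E.symm P) := by
    rw [hFP]; exact zl_ord_mono hO hm0
  have hO2 : Ord α wt m' (E.symm F₂) := by
    clear hcoef hcop
    induction hspan using Submodule.span_induction with
    | mem x hx =>
      obtain ⟨e, he, rfl⟩ := hx
      have := (Nat.le_div_iff_mul_le (hw 0)).1 (Nat.le_of_lt_succ he)
      rw [map_mul]
      exact zl_ord_mul _ (zl_ord_mono ((elim_ord α wt m P (hFP ▸ hO)).1 e) (by omega))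
    | zero => intro b; simp
    | add x y _ _ hx hy =>
      intro b
      rw [map_add, map_add]
      exact dvd_add (hx b) (hy b)
    | smul a x _ hx =>
      intro b
      rw [map_zsmul, map_zsmul, zsmul_eq_mul]
      exact (hx b).mul_left _
  have hdeg2 : F₂.natDegree ≤ P.natDegree := by
    rw [natDegree_le_iff_coeff_eq_zero]
    intro i hi
    obtain ⟨κ, -, hκ⟩ := hcoef i
    rw [hκ, coeff_eq_zero_of_natDegree_lt hi, smul_zero]
  obtain ⟨N, G, q, r, hN0, hN, hG0, hqd, hq, hdet⟩ := sylv _ P F₂ ev hP0 hcop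
  have hGne : G ≠ 0 := fun h => hG0 (by rw [h, map_zero])
  obtain ⟨hT1, -⟩ := tri2 _ N q hqd
  have hqO : ∀ ρ, Ord α wt m' (E.symm (q ρ)) := by
    intro ρ
    refine ord2 _ α wt m' hw (E.symm G) _ hG0 ?_
    rw [← map_mul]
    rcases hq ρ with h | h
    · rw [h, map_mul]; exact zl_ord_mul _ hO1
    · rw [h, map_mul]; exact zl_ord_mul _ hO2
  obtain ⟨hS', hn'⟩ := elim_size F (8 ^ F.degreeOf 0)
    (Matrix.of fun (ρ c : Fin N) => (G * q ρ).coeff (c + G.natDegree)) (by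
      intro ρ c
      rw [Matrix.of_apply, ← hdeg, Nat.cast_pow, Nat.cast_ofNat]
      by_cases hle : r ρ ≤ c + G.natDegree
      · rcases hq ρ with h | h
        · exact ⟨1, _, one_le_pow₀ (by norm_num), by
            rw [h, coeff_X_pow_mul', if_pos hle, one_smul]⟩
        · obtain ⟨κ, hκ, hκ'⟩ := hcoef (c + G.natDegree - r ρ)
          exact ⟨κ, _, hκ, by rw [h, coeff_X_pow_mul', if_pos hle, hκ']⟩
      · refine ⟨0, 0, by positivity, ?_⟩
        rcases hq ρ with h | h <;> rw [h, coeff_X_pow_mul', if_neg hle, zero_smul])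
  refine ⟨N, _, hN0, by omega, ?_, hS', hn', ?_⟩
  · rw [hT1 G]
    exact mul_ne_zero (pow_ne_zero _ (leadingCoeff_ne_zero.mpr hGne)) hdet
  · rw [hT1 G]
    refine zl_ord_mul _ ?_
    intro b
    set φ := sb (Fin.tail α) (Fin.tail wt) b with hφ
    have h1 : φ (Matrix.of fun (ρ c : Fin N) => (q ρ).coeff c).det =
        (Matrix.of fun (ρ c : Fin N) => ((q ρ).map φ).coeff c).det := by
      rw [RingHom.map_det]
      congr 1
      ext ρ c : 2
      simp [coeff_map]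
    rw [h1, ← (tri2 _ N (fun ρ => (q ρ).map φ)
      (fun ρ => lt_of_le_of_lt natDegree_map_le (hqd ρ))).2 (C (α 0)),
      ← Finset.prod_pow_eq_pow_sum]
    refine zl_det_dvd _ _ fun ρ c => ?_
    exact (elim_ord α wt m' (q ρ) (hqO ρ)).2 b c

end Pool.Agent.P.MP_fc15d7_nt
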