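import Pool.Agent.P.MP_fc15d7_nt.Iface

/-! Roth's lemma by successive elimination. -/

set_option autoImplicit false

open Pool.Agent.P.MP_7aad9f_nt.Sub (Ord nrm sb)

namespace Pool.Agent.P.MP_fc15d7_nt

theorem roth_sum (N w μ : ℕ) : min (N * w) μ * μ ≤ 2 * w * ∑ c : Fin N, (μ - c * w) := by
  rw [Fin.sum_univ_eq_sum_range (fun c => μ - c * w) N]
  have h : 2 * min (N * w) μ * μ ≤ 2 * w * ∑ c ∈ Finset.range N, (μ - c * w) +
      min (N * w) μ * min (N * w) μ := by
    induction N with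
    | zero => simp
    | succ N ih =>
      rw [Finset.sum_range_succ, add_mul, one_mul]
      generalize ∑ c ∈ Finset.range N, (μ - c * w) = S at *
      generalize N * w = t at *
      rcases le_total μ t with h | h
      · rw [min_eq_right h] at ih
        rw [min_eq_right (by omega)]
        nlinarith [Nat.zero_le (w * (μ - t))]
      · rw [min_eq_left h] at ih
        obtain ⟨s, rfl⟩ := Nat.exists_eq_add_of_le h
        rw [Nat.add_sub_cancel_left, min_add_add_left]
        have h1 := Nat.mul_le_mul_right s (min_le_left w s)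
        generalize min w s = r at *
        nlinarith [Nat.zero_le (r * r)]
  nlinarith [Nat.mul_le_mul_left (min (N * w) μ) (min_le_right (N * w) μ)]

theorem roth_main (hELIM : S_ELIM) (θ : ℝ) (hθ : 0 < θ) (m : ℕ) : ∀ ε : ℝ, 0 < ε → ε ≤ 1 →
    ∃ (lam : ℝ) (ρ w0 : ℕ), 0 < lam ∧
    ∀ (α : Fin m → ℚ) (wt : Fin m → ℕ) (Z μ : ℕ) (F : MvPolynomial (Fin m) ℤ),
      (∀ h, w0 ≤ wt h) → (∀ h h', h < h' → ρ * wt h ≤ wt h') →
      (∀ h, θ * wt h ≤ Real.log (α h).den) → (∀ h, wt h ≤ Z) → 1 ≤ Z → F ≠ 0 →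
      (∀ h, wt h * F.degreeOf h ≤ Z) → (nrm F : ℝ) ≤ Real.exp (lam * Z) → ε * Z ≤ μ →
      Ord α wt μ F → False := by
  induction m with
  | zero =>
    intro ε hε _
    refine ⟨1, 0, 0, one_pos, fun α wt Z μ F _ _ _ _ hZ hF _ _ hm hO => ?_⟩
    have h1 : (0 : ℝ) < μ := lt_of_lt_of_le (by positivity) hm
    have h2 := (dvd_pow_self _ (Nat.cast_pos.1 h1).ne').trans (hO 0)
    obtain ⟨c, rfl⟩ := MvPolynomial.C_surjective (Fin 0) F
    rw [Polynomial.X_dvd_iff] at h2
    refine hF ?_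
    have : c = 0 := by simpa [sb] using h2
    simp [this]
  | succ k ih =>
    intro ε hε hε1
    obtain ⟨l', ρ', w', hl', H⟩ := ih (ε ^ 2 / 24) (by positivity) (by nlinarith)
    refine ⟨min (l' / 2) (ε * θ / 2), max ρ' ⌈2 / ε⌉₊, max w' (⌈12 / l'⌉₊ + 1), by positivity,
      fun α wt Z μ F hw hρ hd hwZ hZ hF hdeg hn hm hO => ?_⟩
    have hZ' : (1 : ℝ) ≤ Z := by exact_mod_cast hZ
    set μ' := ⌈ε * Z / 2⌉₊ with hμ'
    have m1 : ε * Z / 2 ≤ μ' := Nat.le_ceil _
    have m2 : μ' ≤ Z := by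
      rw [hμ', Nat.ceil_le]
      nlinarith
    have w1 : ∀ h, 0 < wt h := fun h => by have := hw h; omega
    have w2 : (0 : ℝ) < wt 0 := by exact_mod_cast w1 0
    have w3 : 12 ≤ (wt 0 : ℝ) * l' := by
      rw [← div_le_iff₀ hl']
      exact (Nat.le_ceil _).trans (by exact_mod_cast (by have := hw 0; omega))
    obtain ⟨N, R, hN0, hN, hR, hS, hn', hO'⟩ := hELIM k α wt μ μ' F (fun h => by
        have := hd 0
        rw [h] at this
        simp only [Rat.den_zero, Nat.cast_one, Real.log_one] at this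
        nlinarith) w1 hF (fun e he => by
        have h4 : ((e * wt 0 : ℕ) : ℝ) ≤ ε * Z / 2 := by
          push_cast
          rcases he with rfl | ⟨h, he⟩ | he
          · simp only [Nat.cast_zero, zero_mul]; positivity
          · have h1 : ⌈2 / ε⌉₊ * wt 0 * e ≤ Z := (Nat.mul_le_mul ((Nat.mul_le_mul_right _
              (le_max_right _ _)).trans (hρ 0 h.succ h.succ_pos)) he).trans (hdeg _)
            have h2 : (⌈2 / ε⌉₊ : ℝ) * wt 0 * e ≤ Z := by exact_mod_cast h1
            have h3 : 2 / ε * wt 0 * e ≤ Z := le_trans (by gcongr; exact Nat.le_ceil _) h2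
            rw [div_mul_eq_mul_div, div_mul_eq_mul_div, div_le_iff₀ hε] at h3
            linarith
          · have hden : (0 : ℝ) < (α 0).den := by exact_mod_cast (α 0).den_pos
            have h1 : (e : ℝ) * Real.log (α 0).den ≤ min (l' / 2) (ε * θ / 2) * Z := by
              rw [← Real.log_pow, Real.log_le_iff_le_exp (by positivity)]
              exact le_trans (by exact_mod_cast he) hn
            have h2 := mul_le_mul_of_nonneg_left (hd 0) e.cast_nonneg
            have h3 := mul_le_mul_of_nonneg_right (min_le_right (l' / 2) (ε * θ / 2))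
              Z.cast_nonneg
            exact le_of_mul_le_mul_left (by linarith) hθ
        have h6 : e * wt 0 ≤ μ := by
          exact_mod_cast (by linarith [mul_nonneg hε.le Z.cast_nonneg] : ((e * wt 0 : ℕ) : ℝ) ≤ μ)
        have h7 : μ' ≤ μ - e * wt 0 := by
          rw [hμ', Nat.ceil_le, Nat.cast_sub h6]
          linarith
        omega) hO
    have n1 : N * wt 0 ≤ 3 * Z := by nlinarith [hdeg 0, hwZ 0, Nat.mul_le_mul_right (wt 0) hN]
    have n2 : (N : ℝ) * wt 0 ≤ 3 * Z := by exact_mod_cast n1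
    have n3 : (wt 0 : ℝ) * F.degreeOf 0 ≤ Z := by exact_mod_cast hdeg 0
    refine H (Fin.tail α) (Fin.tail wt) (N * Z) _ R (fun h => (le_max_left _ _).trans (hw _))
      (fun h h' e => (Nat.mul_le_mul_right _ (le_max_left _ _)).trans
        (hρ _ _ (Fin.succ_lt_succ_iff.2 e))) (fun h => hd _)
      (fun h => (hwZ _).trans (Nat.le_mul_of_pos_left _ hN0)) (Nat.mul_pos hN0 hZ) hR
      (fun h => (Nat.mul_le_mul_left _ (hS h)).trans ?_) ?_ ?_ hO'
    · rw [mul_left_comm]
      exact Nat.mul_le_mul_left _ (hdeg _)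
    · have h1 : (nrm R : ℝ) ≤ (N.factorial : ℝ) * (8 ^ F.degreeOf 0 * nrm F) ^ N := by
        exact_mod_cast hn'
      have h2 : (N.factorial : ℝ) ≤ Real.exp (l' * Z / 4) ^ N := by
        have h3 : (N.factorial : ℝ) ≤ (N : ℝ) ^ N := by exact_mod_cast Nat.factorial_le_pow N
        refine h3.trans (pow_le_pow_left₀ (by positivity) ?_ _)
        nlinarith [Real.add_one_le_exp (l' * Z / 4), mul_le_mul_of_nonneg_left w3 N.cast_nonneg,
          mul_le_mul_of_nonneg_right n2 hl'.le]
      have h4 : (8 : ℝ) ^ F.degreeOf 0 ≤ Real.exp (l' * Z / 4) := by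
        have h5 : (2 : ℝ) ≤ Real.exp 1 := by linarith [Real.add_one_le_exp (1 : ℝ)]
        calc (8 : ℝ) ^ F.degreeOf 0 = 2 ^ (3 * F.degreeOf 0) := by rw [pow_mul]; norm_num
          _ ≤ Real.exp 1 ^ (3 * F.degreeOf 0) := by gcongr
          _ ≤ _ := by
            rw [← Real.exp_nat_mul, Real.exp_le_exp]
            push_cast
            nlinarith [mul_le_mul_of_nonneg_left w3 (F.degreeOf 0).cast_nonneg,
              mul_le_mul_of_nonneg_right n3 hl'.le]
      have h6 : (nrm F : ℝ) ≤ Real.exp (l' / 2 * Z) :=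
        hn.trans (by gcongr; exact min_le_left _ _)
      calc (nrm R : ℝ) ≤ _ := h1
        _ ≤ Real.exp (l' * Z / 4) ^ N * (Real.exp (l' * Z / 4) * Real.exp (l' / 2 * Z)) ^ N := by
          gcongr
        _ = Real.exp (l' * ((N * Z : ℕ) : ℝ)) := by
          rw [← mul_pow, ← Real.exp_add, ← Real.exp_add, ← Real.exp_nat_mul]
          congr 1
          push_cast
          ring
    · have h1 := roth_sum N (wt 0) μ'
      generalize ∑ c : Fin N, (μ' - c * wt 0) = S at *
      have h2 : N * wt 0 * μ' ≤ 3 * Z * min (N * wt 0) μ' := by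
        rcases le_total (N * wt 0) μ' with h | h
        · rw [min_eq_left h, mul_comm]
          exact Nat.mul_le_mul_right _ (by omega)
        · rw [min_eq_right h]
          exact Nat.mul_le_mul_right _ n1
      have h3 : wt 0 * (N * μ' ^ 2) ≤ wt 0 * (6 * Z * S) := by
        nlinarith [Nat.mul_le_mul_right μ' h2, Nat.mul_le_mul_left (3 * Z) h1]
      have h4 : (N : ℝ) * μ' ^ 2 ≤ 6 * Z * S := by
        exact_mod_cast Nat.le_of_mul_le_mul_left h3 (w1 0)
      have h5 : (N : ℝ) * (ε * Z / 2) ^ 2 ≤ N * (μ' : ℝ) ^ 2 := by gcongr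
      refine le_of_mul_le_mul_left ?_ (zero_lt_one.trans_le hZ')
      push_cast
      nlinarith

theorem t_ROTH (hELIM : S_ELIM) : S_ROTH := by
  intro m ε θ hε hθ
  obtain ⟨lam, ρ, w0, h, H⟩ := roth_main hELIM θ hθ m (min ε 1) (lt_min hε one_pos)
    (min_le_right _ _)
  exact ⟨lam, ρ, w0, h, fun α wt Z μ F h1 h2 h3 h4 h5 h6 h7 h8 h9 => H α wt Z μ F h1 h2 h3 h4 h5 h6
    h7 h8 ((mul_le_mul_of_nonneg_right (min_le_left _ _) Z.cast_nonneg).trans h9)⟩

end Pool.Agent.P.MP_fc15d7_nt
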