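import Pool.Agent.P.MP_fc15d7_nt.Defs

/-! Basic lemmas: weighted norms, linear substitutions, exponents, determinants, limits. -/

set_option autoImplicit false

open Matrix MvPolynomial Filter

namespace Pool.Agent.P.MP_fc15d7_nt

section wn

variable {σ τ : Type} {β β' : σ → ℝ}

theorem prod_pow_nonneg (h : ∀ s, 0 ≤ β s) (d : σ →₀ ℕ) : 0 ≤ d.prod fun s e => β s ^ e :=
  Finset.prod_nonneg fun s _ => pow_nonneg (h s) _

theorem wn_nonneg (h : ∀ s, 0 ≤ β s) (F : MvPolynomial σ ℤ) : 0 ≤ wn β F :=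
  Finset.sum_nonneg fun d _ => mul_nonneg (abs_nonneg _) (prod_pow_nonneg h d)

theorem wn_eq_sum (F : MvPolynomial σ ℤ) {s : Finset (σ →₀ ℕ)} (h : F.support ⊆ s) :
    wn β F = ∑ d ∈ s, |((F.coeff d : ℤ) : ℝ)| * d.prod fun s e => β s ^ e :=
  Finset.sum_subset h fun d _ hd => by simp [notMem_support_iff.1 hd]

theorem wn_zero : wn β (0 : MvPolynomial σ ℤ) = 0 := by simp [wn]

theorem wn_one_eq (F : MvPolynomial σ ℤ) : wn 1 F = ∑ d ∈ F.support, |((F.coeff d : ℤ) : ℝ)| := by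
  simp [wn, Finsupp.prod]

theorem wn_add_le (h : ∀ s, 0 ≤ β s) (F G : MvPolynomial σ ℤ) :
    wn β (F + G) ≤ wn β F + wn β G := by
  classical
  rw [wn_eq_sum (F + G) support_add, wn_eq_sum F (s := F.support ∪ G.support)
    Finset.subset_union_left, wn_eq_sum G (s := F.support ∪ G.support)
    Finset.subset_union_right, ← Finset.sum_add_distrib]
  refine Finset.sum_le_sum fun d _ => ?_
  rw [coeff_add, ← add_mul, Int.cast_add]
  exact mul_le_mul_of_nonneg_right (abs_add_le _ _) (prod_pow_nonneg h d)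

theorem wn_sum_le {ι : Type*} (h : ∀ s, 0 ≤ β s) (s : Finset ι) (F : ι → MvPolynomial σ ℤ) :
    wn β (∑ i ∈ s, F i) ≤ ∑ i ∈ s, wn β (F i) :=
  Finset.le_sum_of_subadditive (wn β) wn_zero.le (wn_add_le h) s F

theorem wn_monomial (d : σ →₀ ℕ) (a : ℤ) :
    wn β (monomial d a) = |(a : ℝ)| * d.prod fun s e => β s ^ e := by
  classical
  rw [wn_eq_sum _ support_monomial_subset]
  simp

theorem wn_C (a : ℤ) : wn β (C a) = |(a : ℝ)| := by
  rw [C_apply, wn_monomial]; simp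

theorem wn_X (h : ∀ s, 0 ≤ β s) (s : σ) : wn β (X s) = β s := by
  rw [X, wn_monomial]; simp

theorem wn_mul_le (h : ∀ s, 0 ≤ β s) (F G : MvPolynomial σ ℤ) :
    wn β (F * G) ≤ wn β F * wn β G := by
  conv_lhs => rw [F.as_sum, G.as_sum, Finset.sum_mul_sum]
  rw [wn.eq_1 β F, wn.eq_1 β G, Finset.sum_mul_sum]
  refine (wn_sum_le h _ _).trans (Finset.sum_le_sum fun d _ => ?_)
  refine (wn_sum_le h _ _).trans (Finset.sum_le_sum fun e _ => ?_)
  rw [monomial_mul, wn_monomial, Finsupp.prod_add_index' (by simp) (by simp [pow_add]),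
    Int.cast_mul, abs_mul]
  exact le_of_eq (by ring)

theorem wn_prod_le {ι : Type*} (h : ∀ s, 0 ≤ β s) (s : Finset ι) (F : ι → MvPolynomial σ ℤ) :
    wn β (∏ i ∈ s, F i) ≤ ∏ i ∈ s, wn β (F i) := by
  classical
  induction s using Finset.induction_on with
  | empty => simpa using (wn_C (β := β) 1).le
  | insert a s ha ih =>
    rw [Finset.prod_insert ha, Finset.prod_insert ha]
    exact (wn_mul_le h _ _).trans (mul_le_mul_of_nonneg_left ih (wn_nonneg h _))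

theorem wn_pow_le (h : ∀ s, 0 ≤ β s) (F : MvPolynomial σ ℤ) (n : ℕ) :
    wn β (F ^ n) ≤ wn β F ^ n := by
  simpa using wn_prod_le h (Finset.range n) fun _ => F

theorem coeff_le_wn (h : ∀ s, 0 ≤ β s) (F : MvPolynomial σ ℤ) (d : σ →₀ ℕ) :
    |((F.coeff d : ℤ) : ℝ)| * (d.prod fun s e => β s ^ e) ≤ wn β F := by
  by_cases hd : d ∈ F.support
  · exact Finset.single_le_sum (f := fun d : σ →₀ ℕ =>
      |((F.coeff d : ℤ) : ℝ)| * d.prod fun s e => β s ^ e)
      (fun d _ => mul_nonneg (abs_nonneg _) (prod_pow_nonneg h d)) hd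
  · simpa [notMem_support_iff.1 hd] using wn_nonneg h F

theorem wn_mono (h : ∀ s, 0 ≤ β s) (h' : ∀ s, β s ≤ β' s) (F : MvPolynomial σ ℤ) :
    wn β F ≤ wn β' F :=
  Finset.sum_le_sum fun _ _ => mul_le_mul_of_nonneg_left (Finset.prod_le_prod
    (fun s _ => pow_nonneg (h s) _) fun s _ => pow_le_pow_left₀ (h s) (h' s) _) (abs_nonneg _)

/-- if all monomials of `F` have weight at most `M` -/
theorem wn_le_mul {M : ℝ} (F : MvPolynomial σ ℤ)
    (h : ∀ d ∈ F.support, (d.prod fun s e => β s ^ e) ≤ M) : wn β F ≤ wn 1 F * M := by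
  rw [wn_one_eq, Finset.sum_mul]
  exact Finset.sum_le_sum fun d hd => mul_le_mul_of_nonneg_left (h d hd) (abs_nonneg _)

theorem wn_bind_le (h : ∀ s, 0 ≤ β s) (f : τ → MvPolynomial σ ℤ) (F : MvPolynomial τ ℤ) :
    wn β (bind₁ f F) ≤ wn (fun t => wn β (f t)) F := by
  conv_lhs => rw [F.as_sum, map_sum]
  refine (wn_sum_le h _ _).trans (Finset.sum_le_sum fun d _ => ?_)
  rw [bind₁_monomial]
  refine (wn_mul_le h _ _).trans ?_
  rw [wn_C]
  refine mul_le_mul_of_nonneg_left ((wn_prod_le h _ _).trans ?_) (abs_nonneg _)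
  exact Finset.prod_le_prod (fun t _ => wn_nonneg h _) fun t _ => wn_pow_le h _ _

theorem nrm_eq_wn {n : ℕ} (F : MvPolynomial (Fin n) ℤ) :
    (Pool.Agent.P.MP_7aad9f_nt.Sub.nrm F : ℝ) = wn 1 F := by
  rw [wn_one_eq, Pool.Agent.P.MP_7aad9f_nt.Sub.nrm]
  simp [Nat.cast_natAbs]

end wn

section lin

variable {m : ℕ} {ι : Type} [Fintype ι]

theorem lin_X (A : Fin m → Matrix ι ι ℤ) (s : Fin m × ι) :
    lin A (X s) = ∑ j, C (A s.1 s.2 j) * X (s.1, j) := bind₁_X_right _ _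

theorem lin_lin (A B : Fin m → Matrix ι ι ℤ) (P : MvPolynomial (Fin m × ι) ℤ) :
    lin A (lin B P) = lin (fun h => B h * A h) P := by
  have : (lin A).comp (lin B) = lin (fun h => B h * A h) := algHom_ext fun s => by
    simp only [AlgHom.comp_apply, lin_X, map_sum, map_mul, algHom_C, Matrix.mul_apply,
      Finset.mul_sum, Finset.sum_mul, algebraMap_eq]
    rw [Finset.sum_comm]
    simp only [mul_assoc]
  exact DFunLike.congr_fun this P

theorem lin_monomial (A : Fin m → Matrix ι ι ℤ) (J : Fin m × ι →₀ ℕ) (a : ℤ) :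
    lin A (monomial J a) = C a * ∏ s, (∑ j, C (A s.1 s.2 j) * X (s.1, j)) ^ J s := by
  rw [lin, bind₁_monomial]
  congr 1
  exact Finset.prod_subset (Finset.subset_univ _) fun s _ hs => by
    rw [Finsupp.notMem_support_iff.1 hs, pow_zero]

theorem wn_row_le {β : Fin m × ι → ℝ} (h : ∀ s, 0 ≤ β s) (A : Fin m → Matrix ι ι ℤ)
    (s : Fin m × ι) : wn β (∑ j, C (A s.1 s.2 j) * X (s.1, j)) ≤
      ∑ j, |((A s.1 s.2 j : ℤ) : ℝ)| * β (s.1, j) :=
  (wn_sum_le h _ _).trans (Finset.sum_le_sum fun j _ => (wn_mul_le h _ _).trans_eq (by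
    rw [wn_C, wn_X h]))

theorem wn_lin_le {β : Fin m × ι → ℝ} (h : ∀ s, 0 ≤ β s) (A : Fin m → Matrix ι ι ℤ)
    (P : MvPolynomial (Fin m × ι) ℤ) :
    wn β (lin A P) ≤ wn (fun s => ∑ j, |((A s.1 s.2 j : ℤ) : ℝ)| * β (s.1, j)) P :=
  (wn_bind_le h _ P).trans (wn_mono (fun _ => wn_nonneg h _) (wn_row_le h A) P)

theorem MH.sum_eq {d : Fin m → ℕ} {P : MvPolynomial (Fin m × ι) ℤ} (hP : MH d P)
    {J : Fin m × ι →₀ ℕ} (hJ : J ∈ P.support) : ∑ s, J s = ∑ h, d h := by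
  rw [Fintype.sum_prod_type]
  exact Finset.sum_congr rfl fun h _ => hP J hJ h

theorem mh_iff {d : Fin m → ℕ} {P : MvPolynomial (Fin m × ι) ℤ} : MH d P ↔
    IsWeightedHomogeneous (fun s : Fin m × ι => (Pi.single s.1 1 : Fin m → ℕ)) P d := by
  have key : ∀ J : Fin m × ι →₀ ℕ, Finsupp.weight (fun s : Fin m × ι =>
      (Pi.single s.1 1 : Fin m → ℕ)) J = fun h => ∑ i, J (h, i) := fun J => by
    funext h
    rw [Finsupp.weight_apply, Finsupp.sum_fintype _ _ (by simp), Fintype.sum_prod_type]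
    simp [Finset.sum_apply, Pi.single_apply]
  constructor
  · intro h J hJ
    rw [key]
    exact funext (h J (mem_support_iff.2 hJ))
  · intro h J hJ
    have := h (mem_support_iff.1 hJ)
    rw [key] at this
    exact congrFun this

theorem MH.lin {d : Fin m → ℕ} {P : MvPolynomial (Fin m × ι) ℤ} (hP : MH d P)
    (A : Fin m → Matrix ι ι ℤ) : MH d (lin A P) := by
  rw [mh_iff, P.as_sum, map_sum]
  refine IsWeightedHomogeneous.sum _ _ _ fun J hJ => ?_
  rw [lin_monomial]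
  have h1 : ∀ s : Fin m × ι, IsWeightedHomogeneous
      (fun s : Fin m × ι => (Pi.single s.1 1 : Fin m → ℕ))
      (∑ j, C (A s.1 s.2 j) * X (s.1, j) : MvPolynomial (Fin m × ι) ℤ) (Pi.single s.1 1) :=
    fun s => IsWeightedHomogeneous.sum _ _ _ fun j _ =>
      (isWeightedHomogeneous_X ℤ _ (s.1, j)).C_mul _
  have h2 := (IsWeightedHomogeneous.prod Finset.univ _ _ fun s _ => (h1 s).pow (J s)).C_mul
    (P.coeff J)
  convert h2 using 1
  funext h
  rw [← hP J hJ h, Fintype.sum_prod_type]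
  simp [Finset.sum_apply, Pi.single_apply]

theorem MH.lin_smul_one [DecidableEq ι] {d : Fin m → ℕ} {P : MvPolynomial (Fin m × ι) ℤ}
    (hP : MH d P) (a : ℤ) : Pool.Agent.P.MP_fc15d7_nt.lin (fun _ => a • (1 : Matrix ι ι ℤ)) P =
      C (a ^ ∑ h, d h) * P := by
  conv_lhs => rw [P.as_sum, map_sum]
  conv_rhs => rw [P.as_sum, Finset.mul_sum]
  refine Finset.sum_congr rfl fun J hJ => ?_
  have h1 : ∀ s : Fin m × ι, (∑ j, C ((a • (1 : Matrix ι ι ℤ)) s.2 j) * X (s.1, j) :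
      MvPolynomial (Fin m × ι) ℤ) = C a * X s := fun s => by
    rw [Finset.sum_eq_single s.2 (fun j _ hj => by simp [Matrix.one_apply_ne hj.symm]) (by simp)]
    simp
  rw [lin_monomial]
  simp only [h1, mul_pow, Finset.prod_mul_distrib, Finset.prod_pow_eq_pow_sum, hP.sum_eq hJ]
  rw [monomial_eq, Finsupp.prod_fintype _ _ (by simp), map_pow]
  ring

/-- undoing the change of variables by the adjugate -/
theorem MH.lin_adj [DecidableEq ι] {d : Fin m → ℕ} {P : MvPolynomial (Fin m × ι) ℤ}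
    (hP : MH d P) (L : Matrix ι ι ℤ) (A : Fin m → Matrix ι ι ℤ) :
    Pool.Agent.P.MP_fc15d7_nt.lin (fun h => L * A h)
        (Pool.Agent.P.MP_fc15d7_nt.lin (fun _ => L.adjugate) P) =
      C (L.det ^ ∑ h, d h) * Pool.Agent.P.MP_fc15d7_nt.lin A P := by
  have h := lin_lin A (fun _ => L.det • (1 : Matrix ι ι ℤ)) P
  rw [hP.lin_smul_one, map_mul, algHom_C, algebraMap_eq] at h
  rw [lin_lin, h]
  simp only [← Matrix.mul_assoc, Matrix.adjugate_mul]

end lin

section ex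

variable {p : ℕ} {k k' N : ℝ}

theorem exp_le_pow_ex (hp : 2 ≤ p) (k N : ℝ) : Real.exp (k * N) ≤ (p : ℝ) ^ ex p k N := by
  have h1 : (1 : ℝ) < p := by exact_mod_cast hp
  have h2 := Real.log_pos h1
  rw [← Real.exp_log (show (0 : ℝ) < (p : ℝ) ^ ex p k N by positivity), Real.log_pow,
    Real.exp_le_exp, ← div_le_iff₀ h2]
  exact Nat.le_ceil _

theorem pow_ex_le (hp : 2 ≤ p) (h : 0 ≤ k * N) : (p : ℝ) ^ ex p k N ≤ p * Real.exp (k * N) := by
  have h1 : (1 : ℝ) < p := by exact_mod_cast hp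
  have h2 := Real.log_pos h1
  have h3 : (ex p k N : ℝ) ≤ k * N / Real.log p + 1 := (Nat.ceil_lt_add_one (by positivity)).le
  rw [← Real.exp_log (show (0 : ℝ) < (p : ℝ) ^ ex p k N by positivity), Real.log_pow]
  conv_rhs => rw [← Real.exp_log (show (0 : ℝ) < p by positivity), ← Real.exp_add]
  rw [Real.exp_le_exp]
  calc _ ≤ (k * N / Real.log p + 1) * Real.log p := by gcongr
    _ = _ := by field_simp; ring

theorem ex_le_iff (hp : 2 ≤ p) {e : ℕ} : ex p k N ≤ e ↔ k * N ≤ e * Real.log p := by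
  rw [ex, Nat.ceil_le, div_le_iff₀ (Real.log_pos (by exact_mod_cast hp))]

theorem le_ex_mul (hp : 2 ≤ p) (k N : ℝ) : k * N ≤ ex p k N * Real.log p := (ex_le_iff hp).1 le_rfl

theorem ex_mono (hp : 2 ≤ p) (hN : 0 ≤ N) (h : k ≤ k') : ex p k N ≤ ex p k' N :=
  (ex_le_iff hp).2 ((mul_le_mul_of_nonneg_right h hN).trans (le_ex_mul hp _ _))

theorem ex_sum_le {ι : Type*} (hp : 2 ≤ p) (s : Finset ι) (k : ι → ℝ) (N : ℝ) :
    ex p (∑ i ∈ s, k i) N ≤ ∑ i ∈ s, ex p (k i) N := by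
  rw [ex_le_iff hp, Finset.sum_mul, Nat.cast_sum, Finset.sum_mul]
  exact Finset.sum_le_sum fun i _ => le_ex_mul hp _ _

/-- the product formula -/
theorem exp_le_of_dvd {κ : Type} [Fintype κ] {p : κ → ℕ} (hp : ∀ v, 2 ≤ p v)
    (hc : Pairwise fun v w => Nat.Coprime (p v) (p w)) (k N : κ → ℝ) {a : ℤ} (ha : a ≠ 0)
    (h : ∀ v, (p v : ℤ) ^ ex (p v) (k v) (N v) ∣ a) :
    Real.exp (∑ v, k v * N v) ≤ |(a : ℝ)| := by
  have h1 : ∏ v, (p v : ℤ) ^ ex (p v) (k v) (N v) ∣ a :=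
    Fintype.prod_dvd_of_coprime (fun v w hvw => (Nat.isCoprime_iff_coprime.2 (hc hvw)).pow) h
  have h2 := Int.le_of_dvd (abs_pos.2 ha) ((dvd_abs _ _).2 h1)
  rw [Real.exp_sum]
  refine (Finset.prod_le_prod (fun v _ => (Real.exp_pos _).le)
    fun v _ => exp_le_pow_ex (hp v) _ _).trans ?_
  exact_mod_cast h2

end ex

section det

variable {ι : Type} [Fintype ι] [DecidableEq ι]

theorem abs_det_le (A : Matrix ι ι ℝ) {M : ℝ} (h : ∀ σ : Equiv.Perm ι, ∏ j, |A (σ j) j| ≤ M) :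
    |A.det| ≤ (Fintype.card ι).factorial * M := by
  rw [det_apply']
  refine (Finset.abs_sum_le_sum_abs _ _).trans
    ((Finset.sum_le_card_nsmul _ _ M fun σ _ => ?_).trans_eq ?_)
  · rw [abs_mul, Finset.abs_prod]
    rcases Int.units_eq_one_or (Equiv.Perm.sign σ) with e | e <;> simpa [e] using h σ
  · simp [Fintype.card_perm]

theorem abs_det_le_int (A : Matrix ι ι ℤ) {M : ℝ}
    (h : ∀ σ : Equiv.Perm ι, ∏ j, |((A (σ j) j : ℤ) : ℝ)| ≤ M) :
    |((A.det : ℤ) : ℝ)| ≤ (Fintype.card ι).factorial * M := by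
  rw [Int.cast_det]
  exact abs_det_le _ h

theorem dvd_det {R : Type} [CommRing R] (A : Matrix ι ι R) {q : R}
    (h : ∀ σ : Equiv.Perm ι, q ∣ ∏ j, A (σ j) j) : q ∣ A.det := by
  rw [det_apply']
  exact Finset.dvd_sum fun σ _ => (h σ).mul_left _

theorem prod_dvd_det {R : Type} [CommRing R] (A : Matrix ι ι R) (q : ι → R)
    (h : ∀ i j, q i ∣ A i j) : ∏ i, q i ∣ A.det :=
  dvd_det A fun σ => by
    rw [← Equiv.prod_comp σ q]
    exact Finset.prod_dvd_prod_of_dvd _ _ fun j _ => h _ j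

end det

section lim

variable {α : Type*} (U : Ultrafilter α)

theorem exists_lim {f : α → ℝ} {a b : ℝ} (h : ∀ᶠ n in U, a ≤ f n ∧ f n ≤ b) :
    ∃ y, Tendsto f U (nhds y) := by
  obtain ⟨y, -, hy⟩ := (isCompact_Icc (a := a) (b := b)).ultrafilter_le_nhds (U.map f)
    (le_principal_iff.2 h)
  exact ⟨y, hy⟩

theorem exists_const {γ : Type*} [Finite γ] (f : α → γ) : ∃ y, ∀ᶠ n in U, f n = y :=
  Ultrafilter.eventually_exists_iff.1 (Eventually.of_forall fun n => ⟨f n, rfl⟩)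

/-- constants are absorbed in `exp (η N)` -/
theorem ev_le_exp {l : Filter α} {N : α → ℝ} (hN : Tendsto N l atTop) (K : ℝ) {η : ℝ}
    (hη : 0 < η) : ∀ᶠ n in l, K ≤ Real.exp (η * N n) :=
  (Real.tendsto_exp_atTop.comp (hN.const_mul_atTop hη)).eventually_ge_atTop K

end lim

end Pool.Agent.P.MP_fc15d7_nt
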