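import Pool.Agent.P.MP_7aad9f_nt.SubDefs

/-! Definitions for the `p`-adic subspace theorem over `ℚ` and for the parity words of the map
`n ↦ ⌊3 n / 2⌋ + 1`. -/

set_option autoImplicit false

open Matrix

namespace Pool.Agent.P.MP_fc15d7_nt

/-- the exponent `e` with `p ^ e` just above `exp (k N)` -/
noncomputable def ex (p : ℕ) (k N : ℝ) : ℕ := ⌈k * N / Real.log p⌉₊

/-- `x` lies in the box `|L0 x|_i ≤ exp (c i N)`, `|L v x|_(p v) ≤ exp (- k v i N)` -/
def InBox {ι κ : Type} [Fintype ι] (p : κ → ℕ) (L0 : Matrix ι ι ℤ) (L : κ → Matrix ι ι ℤ)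
    (c : ι → ℝ) (k : κ → ι → ℝ) (N : ℝ) (x : ι → ℤ) : Prop :=
  (∀ i, |(((L0 *ᵥ x) i : ℤ) : ℝ)| ≤ Real.exp (c i * N)) ∧
    ∀ v i, (p v : ℤ) ^ ex (p v) (k v i) N ∣ (L v *ᵥ x) i

/-- the standing hypotheses on the places and the linear forms -/
structure Sys {ι κ : Type} [Fintype ι] [DecidableEq ι] (p : κ → ℕ) (L0 : Matrix ι ι ℤ)
    (L : κ → Matrix ι ι ℤ) : Prop where
  two_le : ∀ v, 2 ≤ p v
  cop : Pairwise fun v w => Nat.Coprime (p v) (p w)
  det0 : L0.det ≠ 0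
  det : ∀ v, (L v).det ≠ 0

/-- weighted sum of the absolute values of the coefficients -/
noncomputable def wn {σ : Type} (β : σ → ℝ) (F : MvPolynomial σ ℤ) : ℝ :=
  ∑ d ∈ F.support, |((F.coeff d : ℤ) : ℝ)| * d.prod fun s e => β s ^ e

/-- the linear change of variables `X_h ↦ A_h X_h` in each block -/
noncomputable def lin {m : ℕ} {ι : Type} [Fintype ι] (A : Fin m → Matrix ι ι ℤ) :
    MvPolynomial (Fin m × ι) ℤ →ₐ[ℤ] MvPolynomial (Fin m × ι) ℤ :=
  MvPolynomial.bind₁ fun s => ∑ j, MvPolynomial.C (A s.1 s.2 j) * MvPolynomial.X (s.1, j)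

/-- homogeneous of degree `d h` in the block `h` -/
def MH {m : ℕ} {ι : Type} [Fintype ι] (d : Fin m → ℕ) (P : MvPolynomial (Fin m × ι) ℤ) : Prop :=
  ∀ J ∈ P.support, ∀ h, ∑ i, J (h, i) = d h

open Polynomial in
/-- `P` vanishes to weighted order `μ` along the product of the hyperplanes `w h ⬝ y = 0`, in the
direction of the coordinate `i1` -/
def OrdH {m : ℕ} {ι : Type} [Fintype ι] [DecidableEq ι] (w : Fin m → ι → ℤ) (i1 : ι)
    (wt : Fin m → ℕ) (μ : ℕ) (P : MvPolynomial (Fin m × ι) ℤ) : Prop :=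
  ∀ (y : Fin m → ι → ℚ) (b : Fin m → ℚ), (∀ h, ∑ i, (w h i : ℚ) * y h i = 0) →
    (X : ℚ[X]) ^ μ ∣ MvPolynomial.aeval
      (fun s : Fin m × ι => C (y s.1 s.2) + if s.2 = i1 then C (b s.1) * X ^ wt s.1 else 0) P

/-- subsets of size `a` -/
abbrev Sb (D a : ℕ) : Type := {s : Finset (Fin D) // s.card = a}

/-- the increasing enumeration of a subset -/
def emb {D a : ℕ} (s : Sb D a) : Fin a → Fin D := s.1.orderEmbOfFin s.2

/-- the compound matrix -/
def cmp {R : Type} [CommRing R] {D : ℕ} (a : ℕ) (A : Matrix (Fin D) (Fin D) R) :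
    Matrix (Sb D a) (Sb D a) R :=
  Matrix.of fun s t => (A.submatrix (emb s) (emb t)).det

/-- the number of factors of length `n` of the word `ε` -/
noncomputable def cx (ε : ℕ → ℕ) (n : ℕ) : ℕ :=
  {w : Fin n → ℕ | ∃ i, ∀ j : Fin n, w j = ε (i + j)}.ncard

/-- the word is not eventually periodic -/
def Aper (ε : ℕ → ℕ) : Prop := ∀ i a, 0 < a → ∃ j, i ≤ j ∧ ε (j + a) ≠ ε j

/-- the first `N` letters of `ε` are a concatenation of `r` powers of blocks; a pair `(π, a)` in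
`Ty` stands for the block of length `a` at position `π` -/
inductive Dec (ε : ℕ → ℕ) (Ty : Finset (ℕ × ℕ)) : ℕ → ℕ → Prop
  | zero : Dec ε Ty 0 0
  | step {r i : ℕ} (π a k : ℕ) : Dec ε Ty r i → (π, a) ∈ Ty →
      (∀ t < k, ∀ j < a, ε (i + t * a + j) = ε (π + j)) → Dec ε Ty (r + 1) (i + k * a)

/-- the parity word of the orbit of `x` -/
def par (x i : ℕ) : ℕ := (fun n : ℕ => 3 * n / 2 + 1)^[i] x % 2

end Pool.Agent.P.MP_fc15d7_nt
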