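import Pool.Agent.P.MP_fc15d7_nt.Iface

/-! The number of changes of the parity word at a fixed distance. -/

set_option autoImplicit false

open Filter

namespace Pool.Agent.P.MP_fc15d7_nt

theorem ch_iter (x n : ℕ) :
    2 ^ n * ((fun n : ℕ => 3 * n / 2 + 1)^[n] x + 2) ≤ 3 ^ n * (x + 2) := by
  induction n with
  | zero => simp
  | succ n ih =>
    rw [Function.iterate_succ_apply']
    generalize (fun n : ℕ => 3 * n / 2 + 1)^[n] x = y at ih ⊢
    have h : 2 * (3 * y / 2 + 1 + 2) ≤ 3 * (y + 2) := by omega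
    calc 2 ^ (n + 1) * (3 * y / 2 + 1 + 2) = 2 ^ n * (2 * (3 * y / 2 + 1 + 2)) := by ring
      _ ≤ 2 ^ n * (3 * (y + 2)) := Nat.mul_le_mul_left _ h
      _ = 3 * (2 ^ n * (y + 2)) := by ring
      _ ≤ 3 * (3 ^ n * (x + 2)) := Nat.mul_le_mul_left _ ih
      _ = 3 ^ (n + 1) * (x + 2) := by ring

theorem ch_par (x n i : ℕ) : par ((fun n : ℕ => 3 * n / 2 + 1)^[n] x) i = par x (n + i) := by
  rw [par, par, add_comm n i, Function.iterate_add_apply]

theorem ch_abs (f : ℕ → ℕ) (hf : Monotone f) (T : ℕ) (hT : 2 ≤ T)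
    (h : ∀ R, ∃ n₁, ∀ n, n₁ ≤ n → f n + R ≤ f (T * n)) :
    Tendsto (fun k : ℕ => (f k : ℝ) / Real.log k) atTop atTop := by
  refine tendsto_atTop.2 fun M => ?_
  obtain ⟨R, hR⟩ := exists_nat_ge (3 * |M| * Real.log T)
  obtain ⟨n₀, h₀⟩ := h R
  obtain ⟨n₁, hn, h₁⟩ : ∃ n₁, 1 ≤ n₁ ∧ ∀ n, n₁ ≤ n → f n + R ≤ f (T * n) :=
    ⟨n₀ + 1, by omega, fun n hn => h₀ n (by omega)⟩
  have hit : ∀ j, j * R ≤ f (T ^ j * n₁) := fun j => by
    induction j with
    | zero => simp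
    | succ j ih =>
      have := h₁ (T ^ j * n₁) (Nat.le_mul_of_pos_left _ (Nat.pow_pos (by omega)))
      rw [pow_succ', mul_assoc, add_mul]
      omega
  filter_upwards [eventually_ge_atTop (T ^ n₁ * n₁), eventually_ge_atTop 2] with k hk hk2
  have hd : T ^ n₁ ≤ k / n₁ := (Nat.le_div_iff_mul_le (by omega)).2 hk
  have hd0 : k / n₁ ≠ 0 := by
    have : 0 < T ^ n₁ := Nat.pow_pos (by omega)
    omega
  obtain ⟨j, hj⟩ : ∃ j, j = Nat.log T (k / n₁) := ⟨_, rfl⟩
  have hj1 : n₁ ≤ j := hj ▸ Nat.le_log_of_pow_le (by omega) hd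
  have hj2 : T ^ j * n₁ ≤ k :=
    (Nat.le_div_iff_mul_le (by omega)).1 (hj ▸ Nat.pow_log_le_self T hd0)
  have hj3 : k < T ^ (j + 1) * n₁ :=
    (Nat.div_lt_iff_lt_mul (by omega)).1 (hj ▸ Nat.lt_pow_succ_log_self (by omega) _)
  have hj4 : n₁ ≤ T ^ j := hj1.trans (Nat.lt_pow_self (by omega)).le
  have hj5 : k ≤ T ^ (3 * j) := by
    refine hj3.le.trans ((Nat.mul_le_mul_left _ hj4).trans ?_)
    rw [← pow_add]
    exact Nat.pow_le_pow_right (by omega) (by omega)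
  have hk1 : (1 : ℝ) < k := by exact_mod_cast hk2
  have hlog : Real.log k ≤ 3 * j * Real.log T := by
    have : (k : ℝ) ≤ (T : ℝ) ^ (3 * j) := by exact_mod_cast hj5
    have := Real.log_le_log (by linarith) this
    rw [Real.log_pow] at this
    exact_mod_cast this
  have hf' : (j : ℝ) * R ≤ f k := by exact_mod_cast (hit j).trans (hf hj2)
  have hpos := Real.log_pos hk1
  rw [le_div_iff₀ hpos]
  calc M * Real.log k ≤ |M| * Real.log k := mul_le_mul_of_nonneg_right (le_abs_self M) hpos.le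
    _ ≤ |M| * (3 * j * Real.log T) := mul_le_mul_of_nonneg_left hlog (abs_nonneg M)
    _ = j * (3 * |M| * Real.log T) := by ring
    _ ≤ j * R := mul_le_mul_of_nonneg_left hR (Nat.cast_nonneg j)
    _ ≤ f k := hf'

theorem t_CH (hRUNS : S_RUNS) (hKEY : S_KEY) : S_CH := by
  intro x a ha
  obtain ⟨T, hT⟩ := hKEY (2 ^ a + 2) 1
  refine ch_abs (fun k => ((Finset.range k).filter fun i => par x (i + a) ≠ par x i).card)
    (fun k l h => Finset.card_le_card (Finset.filter_subset_filter _ (Finset.range_mono h)))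
    (T + 2) (by omega) fun R => ?_
  obtain ⟨n₁, h₁⟩ := hT ((2 * a + 1) * (R + 1))
  refine ⟨max n₁ (max a (x + 2)), fun n hn => ?_⟩
  have hn1 : n₁ ≤ n := (le_max_left _ _).trans hn
  have hn2 : a ≤ n := (le_max_left _ _).trans ((le_max_right _ _).trans hn)
  have hn3 : x + 2 ≤ 2 ^ n :=
    ((le_max_right _ _).trans ((le_max_right _ _).trans hn)).trans Nat.lt_two_pow_self.le
  obtain ⟨y, hy⟩ : ∃ y, y = (fun n : ℕ => 3 * n / 2 + 1)^[n] x := ⟨_, rfl⟩
  have hy3 : y ≤ 3 ^ n := by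
    have h1 := (ch_iter x n).trans (Nat.mul_le_mul_left _ hn3)
    rw [← hy, mul_comm (3 ^ n)] at h1
    have := Nat.le_of_mul_le_mul_left h1 (Nat.pow_pos (by norm_num))
    omega
  obtain ⟨Ty, h1, h2, h3⟩ := hRUNS (par y) a
    (fun i => Nat.lt_succ_iff.1 (Nat.mod_lt _ (by norm_num))) ha
  obtain ⟨r, hr, hD⟩ := h3 ((T + 1) * n)
  have hR : R ≤ ((Finset.range ((T + 1) * n)).filter fun i => par y (i + a) ≠ par y i).card := by
    by_contra hlt
    refine h₁ n hn1 y hy3 Ty r _ h1 (fun z hz => ⟨(h2 z hz).1, ?_⟩)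
      (hr.trans (Nat.mul_le_mul_left _ (by omega))) (Nat.mul_le_mul_right _ (by omega)) hD
    have := (h2 z hz).2
    omega
  have e : (T + 2) * n = n + (T + 1) * n := by ring
  simp only [e, Finset.card_filter, Finset.sum_range_add] at hR ⊢
  simp only [hy, ch_par, ← add_assoc] at hR
  exact Nat.add_le_add_left hR _

end Pool.Agent.P.MP_fc15d7_nt
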