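import Pool.Agent.P.MP_fc15d7_nt.Iface

/-! Superlinear factor complexity of the parity word: `S_CX`. -/

set_option autoImplicit false

open Filter

namespace Pool.Agent.P.MP_fc15d7_nt

theorem cx_aper (x : ℕ) : Aper (par x) := by
  intro i a ha
  by_contra hc
  push Not at hc
  set u : ℕ → ℕ := fun j => (fun n : ℕ => 3 * n / 2 + 1)^[j] x with hu
  have h1 : ∀ j, u (j + 1) = 3 * u j / 2 + 1 := fun j => by
    simp only [hu, Function.iterate_succ_apply']
  have h2 : StrictMono u := strictMono_nat_of_lt_succ fun j => by rw [h1]; omega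
  have h3 : ∀ L, 2 ^ L * (u (i + L + a) - u (i + L)) = 3 ^ L * (u (i + a) - u i) := fun L => by
    induction L with
    | zero => simp
    | succ L ih =>
      have e1 : u (i + L + a) % 2 = u (i + L) % 2 := hc (i + L) (by omega)
      have e2 := h1 (i + L + a)
      have e3 := h1 (i + L)
      have e4 : u (i + L) < u (i + L + a) := h2 (by omega)
      have e5 : 2 * (u (i + L + a + 1) - u (i + L + 1)) = 3 * (u (i + L + a) - u (i + L)) := by
        omega
      rw [show i + (L + 1) + a = i + L + a + 1 by ring, ← add_assoc, pow_succ, mul_assoc, e5,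
        pow_succ, mul_left_comm, ih]
      ring
  have h4 : 0 < u (i + a) - u i := Nat.sub_pos_of_lt (h2 (by omega))
  generalize u (i + a) - u i = D at h3 h4
  have h5 : 2 ^ D ∣ D :=
    (Nat.Coprime.pow D D (by norm_num : Nat.Coprime 2 3)).dvd_of_dvd_mul_left ⟨_, (h3 D).symm⟩
  exact absurd (Nat.le_of_dvd h4 h5) (not_le.2 D.lt_two_pow_self)

theorem t_CX (hDEC : S_DEC) (hKEY : S_KEY) : S_CX := by
  intro x
  refine tendsto_atTop.2 fun b => ?_
  obtain ⟨C, hC⟩ := exists_nat_ge b
  obtain ⟨s, c0, h1⟩ := hDEC C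
  obtain ⟨T, h2⟩ := hKEY s c0
  obtain ⟨r0, h1⟩ := h1 T
  obtain ⟨n1, h2⟩ := h2 r0
  filter_upwards [eventually_ge_atTop n1, eventually_ge_atTop 2, eventually_ge_atTop x]
    with n hn1 hn2 hnx
  have h3 : C * n ≤ cx (par x) n := by
    by_contra hc
    obtain ⟨Ty, r, N, a1, a2, a3, a4, a5⟩ := h1 (par x) n
      (fun i => Nat.le_of_lt_succ (Nat.mod_lt _ two_pos)) (cx_aper x) hn2 (not_le.1 hc).le
    exact h2 n hn1 x (hnx.trans (Nat.lt_pow_self (by norm_num)).le) Ty r N a1 a2 a3 a4 a5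
  rw [le_div_iff₀ (by positivity)]
  calc b * n ≤ C * n := by gcongr
    _ ≤ _ := by exact_mod_cast h3

end Pool.Agent.P.MP_fc15d7_nt
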