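import Pool.Agent.P.MP_fc15d7_nt.Iface

/-! Words of linear complexity are concatenations of few powers of few blocks. -/

set_option autoImplicit false

namespace Pool.Agent.P.MP_fc15d7_nt

section

variable (ε : ℕ → ℕ) (l : ℕ)

/-- the window of length `l` at the position `i` -/
def dec_win (i : ℕ) : Fin l → ℕ := fun j => ε (i + j)

/-- `a` is a short period of the window at `i` -/
def dec_per (i a : ℕ) : Prop := 0 < a ∧ 2 * a ≤ l ∧ ∀ j, j + a < l → ε (i + j + a) = ε (i + j)

/-- the least short period -/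
noncomputable def dec_A (i : ℕ) : ℕ := sInf {a | dec_per ε l i a}

variable {ε l}

theorem dec_win_iff {i i' : ℕ} :
    dec_win ε l i = dec_win ε l i' ↔ ∀ j < l, ε (i + j) = ε (i' + j) :=
  ⟨fun h j hj => congrFun h ⟨j, hj⟩, fun h => funext fun j => h j j.2⟩

theorem dec_per_congr {i i' a : ℕ} (h : dec_win ε l i = dec_win ε l i') (h' : dec_per ε l i a) :
    dec_per ε l i' a := ⟨h'.1, h'.2.1, fun j hj => by
  rw [add_assoc, ← dec_win_iff.1 h _ hj, ← dec_win_iff.1 h j (by omega), ← add_assoc,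
    h'.2.2 j hj]⟩

theorem dec_A_congr {i i' : ℕ} (h : dec_win ε l i = dec_win ε l i') :
    dec_A ε l i = dec_A ε l i' :=
  congrArg sInf (Set.ext fun _ => ⟨dec_per_congr h, dec_per_congr h.symm⟩)

theorem dec_A_per {i : ℕ} (h : 0 < dec_A ε l i) : dec_per ε l i (dec_A ε l i) :=
  Nat.sInf_mem (Nat.nonempty_of_pos_sInf h)

theorem dec_sep {i b : ℕ} (h : dec_win ε l i = dec_win ε l (i + b)) (hb : 0 < b)
    (hl : 2 * b ≤ l) : 0 < dec_A ε l i ∧ dec_win ε l (i + dec_A ε l i) = dec_win ε l i := by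
  have h1 : dec_per ε l i b := ⟨hb, hl, fun j hj => by
    rw [dec_win_iff.1 h j (by omega), add_right_comm]⟩
  have h2 : dec_per ε l i (dec_A ε l i) := Nat.sInf_mem (s := {a | dec_per ε l i a}) ⟨b, h1⟩
  have h3 : dec_A ε l i ≤ b := Nat.sInf_le h1
  refine ⟨h2.1, dec_win_iff.2 fun j hj => ?_⟩
  generalize dec_A ε l i = a at *
  by_cases h4 : j + a < l
  · rw [add_right_comm, h2.2.2 j h4]
  · obtain ⟨k, rfl⟩ := Nat.exists_eq_add_of_le (show b ≤ j by omega)
    rw [← add_assoc i b k, ← (dec_per_congr h h2).2.2 k (by omega)]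
    congr 1
    ring

theorem dec_run (hA : Aper ε) {i : ℕ} (h : 0 < dec_A ε l i) :
    ∃ k, (∀ t ≤ k, dec_win ε l (i + t * dec_A ε l i) = dec_win ε l i) ∧
      dec_win ε l (i + k * dec_A ε l i + dec_A ε l i) ≠ dec_win ε l i := by
  classical
  have h1 := (dec_A_per h).2.1
  generalize dec_A ε l i = a at *
  have hex : ∃ k, dec_win ε l (i + k * a + a) ≠ dec_win ε l i := by
    by_contra h2
    push Not at h2
    obtain ⟨j, h5, h4⟩ := hA (i + a) a h
    obtain ⟨s, rfl⟩ := Nat.exists_eq_add_of_le h5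
    have h6 := Nat.mod_lt s h
    have e1 := dec_win_iff.1 (h2 (s / a)) (s % a) (by omega)
    have e2 := dec_win_iff.1 (h2 (s / a + 1)) (s % a) (by omega)
    have e3 := Nat.div_add_mod' s a
    refine h4 (Eq.trans (congrArg ε ?_) ((e2.trans e1.symm).trans (congrArg ε ?_)))
    · rw [add_mul]; omega
    · omega
  refine ⟨Nat.find hex, fun t ht => ?_, Nat.find_spec hex⟩
  rcases t with _ | t
  · simp
  · have := not_not.1 (Nat.find_min hex (Nat.lt_of_succ_le ht))
    rwa [add_mul, one_mul, ← add_assoc]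

end

theorem t_DEC (hSPEC : S_SPEC) : S_DEC := by
  classical
  intro C
  refine ⟨3 * C + 3 * C * 2 + 1, C + 1, fun T => ⟨1 + 2 * (3 * C * (4 * T + 1) + 1),
    fun ε n h1 hA hn hc => ?_⟩⟩
  obtain ⟨l, RS, l1, l2, hR, s1, s2⟩ := hSPEC ε C n h1 hA hn hc
  have hg : ∀ i, ∃ g, 1 ≤ g ∧ g ≤ (C + 1) * n ∧ dec_win ε l (i + g) ∈ RS ∧
      ∀ i', (∀ j < l + 1, ε (i + j) = ε (i' + j)) → ∀ j < l + g, ε (i + j) = ε (i' + j) := by
    intro i
    obtain ⟨t, t1, t2⟩ := s2 (i + 1)
    have hex : ∃ t, dec_win ε l (i + (t + 1)) ∈ RS := ⟨t, by rw [add_comm t, ← add_assoc]; exact t2⟩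
    have t3 : Nat.find hex ≤ t := Nat.find_min' hex (by rw [add_comm t, ← add_assoc]; exact t2)
    refine ⟨Nat.find hex + 1, by omega, by rw [add_mul]; omega, Nat.find_spec hex,
      fun i' h => ?_⟩
    have : ∀ k ≤ Nat.find hex, ∀ j < l + (k + 1), ε (i + j) = ε (i' + j) := by
      intro k
      induction k with
      | zero => exact fun _ => h
      | succ k ih =>
        intro hk j hj
        rcases (Nat.lt_succ_iff.1 hj).lt_or_eq with hj | rfl
        · exact ih (by omega) j hj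
        · by_contra h2
          refine Nat.find_min hex hk (s1 (i + (k + 1)) (i' + (k + 1)) (fun j hj => ?_) ?_)
          · rw [add_assoc, add_assoc i']
            exact ih (by omega) _ (by omega)
          · rwa [add_assoc, add_assoc i', add_comm (k + 1)]
    exact this _ le_rfl
  choose g g1 g2 g3 g4 using hg
  let rep := Function.invFun (dec_win ε l)
  have hrep : ∀ i, dec_win ε l (rep (dec_win ε l i)) = dec_win ε l i := fun i =>
    Function.invFun_eq ⟨i, rfl⟩
  let w2 : ℕ → (Fin l → ℕ) × ℕ := fun i => (dec_win ε l i, ε (i + l))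
  let rep2 := Function.invFun w2
  have hrep2 : ∀ i, w2 (rep2 (w2 i)) = w2 i := fun i => Function.invFun_eq ⟨i, rfl⟩
  let Ty : Finset (ℕ × ℕ) := insert (0, g 0)
    (((RS.filter fun u => 0 < dec_A ε l (rep u)).image fun u => (rep u, dec_A ε l (rep u))) ∪
      (RS ×ˢ Finset.range 2).image fun v => (rep2 v, g (rep2 v)))
  let tm : ℕ → Prop := fun j => dec_win ε l j ∈ RS ∧
    ¬ (0 < dec_A ε l j ∧ dec_win ε l (j + dec_A ε l j) = dec_win ε l j)
  have step1 : ∀ i r, dec_win ε l i ∈ RS → Dec ε Ty r i →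
      ∃ i' r', i ≤ i' ∧ r' ≤ r + 1 ∧ tm i' ∧ Dec ε Ty r' i' := by
    intro i r hi hd
    by_cases h : 0 < dec_A ε l i
    · obtain ⟨k, k1, k2⟩ := dec_run hA h
      have e := dec_A_congr (hrep i)
      refine ⟨_, _, Nat.le_add_right _ _, le_rfl, ⟨(k1 k le_rfl).symm ▸ hi, fun h' => k2 ?_⟩,
        hd.step (rep (dec_win ε l i)) (dec_A ε l i) k (Finset.mem_insert_of_mem
          (Finset.mem_union_left _ (Finset.mem_image.2 ⟨_, Finset.mem_filter.2 ⟨hi, e ▸ h⟩,
            by rw [e]⟩))) fun t ht j hj => ?_⟩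
      · have := h'.2
        rwa [dec_A_congr (k1 k le_rfl), k1 k le_rfl] at this
      · have := (dec_A_per h).2.1
        exact dec_win_iff.1 ((k1 t ht.le).trans (hrep i).symm) j (by omega)
    · exact ⟨i, r, le_rfl, r.le_succ, ⟨hi, fun h' => h h'.1⟩, hd⟩
  have step2 : ∀ i r, dec_win ε l i ∈ RS → Dec ε Ty r i →
      ∃ i', i < i' ∧ dec_win ε l i' ∈ RS ∧ Dec ε Ty (r + 1) i' := by
    intro i r hi hd
    obtain ⟨e1, e2⟩ := Prod.ext_iff.1 (hrep2 i)
    have e3 := g4 (rep2 (w2 i)) i fun j hj => by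
      rcases (Nat.lt_succ_iff.1 hj).lt_or_eq with hj | rfl
      exacts [dec_win_iff.1 e1 j hj, e2]
    have e4 := g1 (rep2 (w2 i))
    refine ⟨i + 1 * g (rep2 (w2 i)), by omega, ?_, hd.step (rep2 (w2 i)) _ 1
      (Finset.mem_insert_of_mem (Finset.mem_union_right _ (Finset.mem_image.2 ⟨w2 i,
        Finset.mem_product.2 ⟨hi, Finset.mem_range.2 (Nat.lt_succ_of_le (h1 _))⟩, rfl⟩)))
      fun t ht j hj => ?_⟩
    · rw [one_mul, ← dec_win_iff (i := rep2 (w2 i) + g (rep2 (w2 i))).2 fun j hj => by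
        rw [add_assoc, add_assoc i]; exact e3 _ (by omega)]
      exact g3 _
    · rw [Nat.lt_one_iff.1 ht, zero_mul, add_zero, e3 j (by omega)]
  have run : ∀ c i r, ((Finset.range (T * n)).filter fun j => i ≤ j ∧ tm j).card < c →
      dec_win ε l i ∈ RS → Dec ε Ty r i → ∃ r' N, r' ≤ r + 2 * c ∧ T * n ≤ N ∧ Dec ε Ty r' N := by
    intro c
    induction c with
    | zero => exact fun i r h => absurd h (Nat.not_lt_zero _)
    | succ c ih =>
      intro i r h hi hd
      obtain ⟨i', r', a1, a2, a3, a4⟩ := step1 i r hi hd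
      rcases le_or_gt (T * n) i' with h2 | h2
      · exact ⟨r', i', by omega, h2, a4⟩
      obtain ⟨i'', b1, b2, b3⟩ := step2 i' r' a3.1 a4
      obtain ⟨r'', N, c1, c2⟩ := ih i'' _ (lt_of_lt_of_le (Finset.card_lt_card
        ((Finset.ssubset_iff_of_subset fun j hj => by
          rw [Finset.mem_filter] at hj ⊢
          exact ⟨hj.1, by omega, hj.2.2⟩).2 ⟨i', Finset.mem_filter.2 ⟨Finset.mem_range.2 h2, a1, a3⟩,
          fun h => absurd (Finset.mem_filter.1 h).2.1 (not_le.2 b1)⟩)) (Nat.lt_succ_iff.1 h)) b2 b3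
      exact ⟨r'', N, by omega, c2⟩
  have cnt : ((Finset.range (T * n)).filter fun j => 0 + 1 * g 0 ≤ j ∧ tm j).card ≤
      (RS ×ˢ Finset.range (4 * T + 1)).card := by
    refine Finset.card_le_card_of_injOn (fun j => (dec_win ε l j, j / (l / 2 + 1)))
      (fun j hj => ?_) ?_
    · obtain ⟨h2, -, h3⟩ := Finset.mem_filter.1 hj
      refine Finset.mem_product.2 ⟨h3.1, Finset.mem_range.2 ?_⟩
      rw [Nat.div_lt_iff_lt_mul (Nat.succ_pos _)]
      have h4 : n ≤ 4 * (l / 2 + 1) := by omega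
      nlinarith [Finset.mem_range.1 h2, Nat.mul_le_mul_left T h4]
    · have key : ∀ j j', j < j' → tm j → dec_win ε l j = dec_win ε l j' →
          j / (l / 2 + 1) = j' / (l / 2 + 1) → False := fun j j' h2 h3 h4 h5 => by
        obtain ⟨b, rfl⟩ := Nat.exists_eq_add_of_le h2.le
        have h6 := Nat.div_add_mod j (l / 2 + 1)
        have h7 := Nat.div_add_mod (j + b) (l / 2 + 1)
        have h8 := Nat.mod_lt (j + b) (Nat.add_one_pos (l / 2))
        rw [← h5] at h7
        exact h3.2 (dec_sep h4 (by omega) (by omega))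
      intro j hj j' hj' e
      obtain ⟨e1, e2⟩ := Prod.ext_iff.1 e
      rcases lt_trichotomy j j' with h | h | h
      · exact (key j j' h (Finset.mem_filter.1 hj).2.2 e1 e2).elim
      · exact h
      · exact (key j' j h (Finset.mem_filter.1 hj').2.2 e1.symm e2.symm).elim
  rw [Finset.card_product, Finset.card_range] at cnt
  obtain ⟨r, N, c1, c2, c3⟩ := run _ _ _ (Nat.lt_succ_of_le (cnt.trans
    (Nat.mul_le_mul_right _ hR))) (by rw [one_mul]; exact g3 0)
    (Dec.zero.step 0 (g 0) 1 (Finset.mem_insert_self _ _) fun t ht j _ => by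
      rw [Nat.lt_one_iff.1 ht, zero_mul, add_zero])
  refine ⟨Ty, r, N, (Finset.card_insert_le _ _).trans (Nat.succ_le_succ
    ((Finset.card_union_le _ _).trans (add_le_add (Finset.card_image_le.trans
      ((Finset.card_filter_le _ _).trans hR)) (Finset.card_image_le.trans ?_)))),
    fun y hy => ?_, c1, c2, c3⟩
  · rw [Finset.card_product, Finset.card_range]
    exact Nat.mul_le_mul_right _ hR
  · rcases Finset.mem_insert.1 hy with rfl | hy
    · exact ⟨g1 0, g2 0⟩
    rcases Finset.mem_union.1 hy with hy | hy <;> obtain ⟨u, hu, rfl⟩ := Finset.mem_image.1 hy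
    · have := dec_A_per (Finset.mem_filter.1 hu).2
      exact ⟨this.1, by have := this.2.1; rw [add_mul]; dsimp only; omega⟩
    · exact ⟨g1 _, g2 _⟩

end Pool.Agent.P.MP_fc15d7_nt
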