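import Pool.Agent.P.MP_fc15d7_nt.Iface

/-! A basis adapted to a flag. -/

set_option autoImplicit false

open Module Submodule

namespace Pool.Agent.P.MP_fc15d7_nt

open Classical in
theorem flag_basis {V : Type} [AddCommGroup V] [Module ℚ V] [Module.Finite ℚ V]
    {K : ℕ → Submodule ℚ V} (hK : Monotone K) (n : ℕ) : ∃ B : Finset V,
      LinearIndepOn ℚ id (B : Set V) ∧ (B : Set V) ⊆ K n ∧
        ∀ s ≤ n, finrank ℚ (K s) ≤ (B.filter (· ∈ K s)).card := by
  have key : ∀ (B : Finset V) (W : Submodule ℚ V), LinearIndepOn ℚ id (B : Set V) →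
      (B : Set V) ⊆ W → ∃ B' : Finset V, B ⊆ B' ∧ LinearIndepOn ℚ id (B' : Set V) ∧
        (B' : Set V) ⊆ W ∧ finrank ℚ W ≤ (B'.filter (· ∈ W)).card := fun B W h1 h2 => by
    obtain ⟨b, b1, b2, b3, b4⟩ := exists_linearIndepOn_id_extension h1 h2
    lift b to Finset V using LinearIndependent.setFinite b4
    refine ⟨b, b2, b4, b1, ?_⟩
    rw [Finset.filter_true_of_mem (p := (· ∈ W)) fun x hx => b1 hx]
    exact (finrank_mono b3).trans (finrank_span_finset_le_card b)
  induction n with
  | zero =>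
    obtain ⟨B, -, h1, h2, h3⟩ := key ∅ (K 0) (by simp) (by simp)
    exact ⟨B, h1, h2, fun s hs => Nat.le_zero.1 hs ▸ h3⟩
  | succ n ih =>
    obtain ⟨B, h1, h2, h3⟩ := ih
    obtain ⟨B', h4, h5, h6, h7⟩ := key B (K (n + 1)) h1 (h2.trans (hK n.le_succ))
    refine ⟨B', h5, h6, fun s hs => ?_⟩
    rcases hs.eq_or_lt with rfl | hs
    · exact h7
    · exact (h3 s (Nat.le_of_lt_succ hs)).trans
        (Finset.card_le_card (Finset.filter_subset_filter _ h4))

theorem t_FLAG : S_FLAG := by
  classical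
  intro R _ _ D g G b hg hG h0
  set φ := Fintype.linearCombination ℚ g with hφ
  have hinj : Function.Injective φ := linearIndependent_iff_injective_fintypeLinearCombination.1 hg
  have hH : ∀ x, φ x ∈ G 0 := fun x =>
    (Fintype.linearCombination_apply ℚ g x).symm ▸ sum_mem fun i _ => smul_mem _ _ (h0 i)
  obtain ⟨B, h1, -, h2⟩ := flag_basis (K := fun n => (G (b - n)).comap φ)
    (fun n n' h => comap_mono (hG (Nat.sub_le_sub_left h b))) b
  have hc : B.card = D := by
    have h3 := (h2 b le_rfl).trans (Finset.card_filter_le _ _)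
    rw [Nat.sub_self, (eq_top_iff (a := (G 0).comap φ)).2 fun x _ => hH x, finrank_top] at h3
    have h4 := LinearIndependent.finset_card_le_finrank (R := ℚ) (b := B) h1
    simp only [finrank_fintype_fun_eq_card, Fintype.card_fin] at h3 h4
    omega
  set e := Finset.equivFinOfCardEq hc
  set A : Matrix (Fin D) (Fin D) ℚ := Matrix.of fun i => (e.symm i : Fin D → ℚ) with hA
  have h3 : IsUnit A := Matrix.linearIndependent_rows_iff_isUnit.1
    (LinearIndependent.comp h1 e.symm e.symm.injective)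
  have h4 : (A.den : ℚ) ≠ 0 := Nat.cast_ne_zero.2 A.den_ne_zero
  refine ⟨A.num, fun i => Nat.findGreatest (fun s => φ (A i) ∈ G s) b, fun h => ?_, fun i => ?_, ?_⟩
  · have h5 := (Matrix.isUnit_iff_isUnit_det _).1 h3
    rw [← A.inv_denom_smul_num, Matrix.det_smul, ← Int.cast_det, h] at h5
    simp at h5
  · have := smul_mem _ (A.den : ℚ)
      (Nat.findGreatest_spec (P := fun s => φ (A i) ∈ G s) b.zero_le (hH _))
    have h5 : ∑ j, (A.num i j : ℚ) • g j = (A.den : ℚ) • φ (A i) := by
      rw [hφ, Fintype.linearCombination_apply, Finset.smul_sum]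
      simp only [smul_smul, ← A.num_div_den i, mul_div_cancel₀ _ h4]
    exact h5 ▸ this
  · have h5 : ∀ s ∈ Finset.Icc 1 b, finrank ℚ ↥(G s ⊓ span ℚ (Set.range g)) ≤
        ∑ i, if φ (A i) ∈ G s then 1 else 0 := fun s hs => by
      have h6 := h2 (b - s) (Nat.sub_le _ _)
      rw [Nat.sub_sub_self (Finset.mem_Icc.1 hs).2,
        (equivMapOfInjective φ hinj _).finrank_eq, map_comap_eq, inf_comm,
        Fintype.range_linearCombination, Finset.card_filter, ← Finset.sum_coe_sort,
        ← e.symm.sum_comp] at h6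
      exact h6
    refine (Finset.sum_le_sum h5).trans ?_
    rw [Finset.sum_comm]
    refine Finset.sum_le_sum fun i _ => ?_
    rw [← Finset.card_filter]
    refine (Finset.card_le_card fun s hs => ?_).trans_eq ((Nat.card_Icc 1 _).trans rfl)
    obtain ⟨h6, h7⟩ := Finset.mem_filter.1 hs
    rw [Finset.mem_Icc] at h6 ⊢
    exact ⟨h6.1, Nat.le_findGreatest h6.2 h7⟩

end Pool.Agent.P.MP_fc15d7_nt
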