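import Pool.Agent.P.MP_fc15d7_nt.Iface

/-! The gain from an operator that shifts one of two filtrations. -/

set_option autoImplicit false

open Module Submodule

namespace Pool.Agent.P.MP_fc15d7_nt

theorem gain_Icc (f : ℕ → ℕ) (b : ℕ) :
    ∑ s ∈ Finset.Icc 1 b, f s = ∑ s ∈ Finset.range b, f (s + 1) := by
  induction b with
  | zero => simp
  | succ b ih => rw [Finset.sum_Icc_succ_top (by omega), Finset.sum_range_succ, ih]

section

variable {R : Type} [AddCommGroup R] [Module ℚ R]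

theorem gain_mono {E A B : Submodule ℚ R} [Module.Finite ℚ E] (h : A ≤ B) (h' : B ≤ E) :
    finrank ℚ A ≤ finrank ℚ B :=
  have := finiteDimensional_of_le h'
  finrank_mono h

theorem gain_sub {E A B W : Submodule ℚ R} [Module.Finite ℚ E] (h1 : A ≤ B) (h2 : A ≤ E)
    (h3 : W ≤ E) :
    finrank ℚ A + finrank ℚ ↥(B ⊓ W) ≤ finrank ℚ ↥(B ⊓ E) + finrank ℚ ↥(A ⊓ W) := by
  have := finiteDimensional_of_le h2
  have := finiteDimensional_of_le (inf_le_right.trans h3 : B ⊓ W ≤ E)
  rw [← finrank_sup_add_finrank_inf_eq]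
  exact add_le_add (gain_mono (sup_le (le_inf h1 h2) (inf_le_inf_left _ h3)) inf_le_right)
    (gain_mono (inf_le_inf_left _ inf_le_right) (inf_le_left.trans h2))

theorem gain_map {X A : Submodule ℚ R} {V : R →ₗ[ℚ] R} (h : ∀ x ∈ X, V x = 0 → x = 0)
    (hA : A ≤ X) : finrank ℚ (A.map V) = finrank ℚ A := by
  rw [← LinearMap.range_domRestrict]
  exact LinearMap.finrank_range_of_inj ((injective_iff_map_eq_zero _).2 fun x hx =>
    Subtype.ext (h x (hA x.2) hx))

end

theorem t_GAIN (hFLAG : S_FLAG) : S_GAIN := by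
  intro R _ _ S lev F G X V u hF hG hS hX hY hV h1 h2
  obtain ⟨g, g1, g2, g3⟩ := exists_fun_fin_finrank_span_eq ℚ (S : Set R)
  obtain ⟨LF, tF, f1, f2, f3⟩ := hFLAG R _ g F (S.sup lev + u) g3 hF
    fun i => hF (Nat.zero_le _) (hS _ (g1 i)).1
  obtain ⟨LG, tG, k1, k2, k3⟩ := hFLAG R _ g G (S.sup lev + u) g3 hG
    fun i => hG (Nat.zero_le _) (hS _ (g1 i)).2
  rw [g2, gain_Icc] at f3 k3
  let A : ℕ → Submodule ℚ R := fun s => span ℚ (Set.range fun i : {i // s ≤ lev (g i)} => g i)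
  have aF : ∀ s, A s ≤ F s := fun s => span_le.2 (Set.range_subset_iff.2 fun i =>
    hF i.2 (hS _ (g1 i)).1)
  have aG : ∀ s, A s ≤ G s := fun s => span_le.2 (Set.range_subset_iff.2 fun i =>
    hG i.2 (hS _ (g1 i)).2)
  have aE : ∀ s, A s ≤ span ℚ S := fun s => span_mono (Set.range_subset_iff.2 fun i => g1 i)
  have a1 : ∀ s, finrank ℚ (A s) = ∑ i, if s ≤ lev (g i) then 1 else 0 := fun s => by
    rw [← Finset.card_filter, ← Fintype.card_subtype]
    exact finrank_span_eq_card (g3.comp _ Subtype.val_injective)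
  have a2 : ∀ i, lev (g i) ≤ S.sup lev := fun i => Finset.le_sup (g1 i)
  have a3 : ∑ i, lev (g i) = ∑ s ∈ Finset.range (S.sup lev + u), finrank ℚ (A (s + 1)) := by
    simp only [a1]
    rw [Finset.sum_comm]
    refine Finset.sum_congr rfl fun i _ => ?_
    rw [← Finset.card_filter, ← Finset.card_range (lev (g i))]
    congr 1
    ext s
    have := a2 i
    simp only [Finset.mem_range, Finset.mem_filter, Finset.card_range]
    omega
  have b1 := Finset.sum_le_sum (s := Finset.range (S.sup lev + u)) fun s _ =>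
    gain_sub (aF (s + 1)) (aE _) hY
  have b2 := Finset.sum_le_sum (s := Finset.range (S.sup lev + u)) fun s _ =>
    gain_sub (aG (s + 1)) (aE _) hX
  have b3 : ∑ s ∈ Finset.range (S.sup lev + u), finrank ℚ ↥(A (s + 1) ⊓ X.map V) ≤
      ∑ s ∈ Finset.range (S.sup lev + u), finrank ℚ ↥(G (s + 1) ⊓ X) :=
    Finset.sum_le_sum fun s _ => by
      rw [← gain_map hV (inf_le_right : G (s + 1) ⊓ X ≤ X)]
      refine gain_mono ?_ ((map_mono inf_le_right).trans hY)
      rintro _ ⟨h3, x, hx, rfl⟩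
      exact ⟨x, ⟨h2 _ x hx (aG _ h3), hx⟩, rfl⟩
  have b4 : u * finrank ℚ X + ∑ s ∈ Finset.range (S.sup lev + u), finrank ℚ ↥(A (s + 1) ⊓ X) ≤
      ∑ s ∈ Finset.range (S.sup lev + u), finrank ℚ ↥(F (s + 1) ⊓ X.map V) := by
    have hY' : ∀ s, F s ⊓ X.map V ≤ span ℚ S := fun s => inf_le_right.trans hY
    rw [Finset.sum_range_add, add_comm (S.sup lev) u, Finset.sum_range_add,
      Finset.sum_eq_zero (s := Finset.range u), add_zero]
    · refine add_le_add ?_ (Finset.sum_le_sum fun s _ => ?_)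
      · rw [← gain_map hV le_rfl]
        refine le_trans (by simp) (Finset.card_nsmul_le_sum _ _ (finrank ℚ (X.map V))
          fun s hs => gain_mono (le_inf ?_ le_rfl) (hY' _))
        rintro _ ⟨x, hx, rfl⟩
        rw [Finset.mem_range] at hs
        refine hF (by omega) (h1 0 x hx (span_le.2 (fun y hy => ?_) (hX hx)))
        exact hF (Nat.zero_le _) (hS y hy).1
      · rw [← gain_map hV inf_le_right]
        refine gain_mono ?_ (hY' _)
        rintro _ ⟨x, hx, rfl⟩
        exact ⟨hF (by omega) (h1 _ x hx.2 (aF _ hx.1)), x, hx.2, rfl⟩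
    · intro s _
      refine Nat.le_zero.1 ((gain_mono inf_le_left (aE _)).trans_eq ?_)
      rw [a1]
      exact Finset.sum_eq_zero fun i _ => if_neg (by have := a2 i; omega)
  rw [Finset.sum_add_distrib, Finset.sum_add_distrib, ← a3] at b1 b2
  refine ⟨_, g, LF, LG, tF, tG, rfl, g1, g3, f1, k1, f2, k2, ?_, ?_, by omega⟩
  · exact a3.trans_le ((Finset.sum_le_sum fun s _ =>
      gain_mono (le_inf (aF _) (aE _)) inf_le_right).trans f3)
  · exact a3.trans_le ((Finset.sum_le_sum fun s _ =>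
      gain_mono (le_inf (aG _) (aE _)) inf_le_right).trans k3)

end Pool.Agent.P.MP_fc15d7_nt
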