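import Pool.Agent.P.MP_fc15d7_nt.Iface

/-! Short `S`-unit expansions with few small coefficients. -/

set_option autoImplicit false

open Matrix Filter Module Pointwise

namespace Pool.Agent.P.MP_fc15d7_nt

/-- sequences that vanish along `U` -/
def glNul (U : Ultrafilter ℕ) : Ideal (ℕ → ℚ) where
  carrier := {f | ∀ᶠ n in U, f n = 0}
  add_mem' := fun {f g} hf hg => by
    filter_upwards [hf, hg] with n h1 h2
    simp [h1, h2]
  zero_mem' := Eventually.of_forall fun _ => rfl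
  smul_mem' := fun c f hf => by
    filter_upwards [hf] with n h1
    simp [h1]

/-- the ultrapower of `ℚ` -/
abbrev GlR (U : Ultrafilter ℕ) : Type := (ℕ → ℚ) ⧸ glNul U

/-- the class of a sequence -/
noncomputable abbrev glPr (U : Ultrafilter ℕ) : (ℕ → ℚ) →ₐ[ℚ] GlR U :=
  Ideal.Quotient.mkₐ ℚ (glNul U)

variable {U : Ultrafilter ℕ}

theorem gl_pr_eq {f g : ℕ → ℚ} : glPr U f = glPr U g ↔ ∀ᶠ n in U, f n = g n := by
  rw [Ideal.Quotient.mkₐ_eq_mk, Ideal.Quotient.eq]
  exact eventually_congr (Eventually.of_forall fun n => sub_eq_zero)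

theorem gl_surj (x : GlR U) : ∃ f, glPr U f = x := Ideal.Quotient.mkₐ_surjective ℚ _ x

theorem gl_inj {f : ℕ → ℚ} (hf : ∀ n, f n ≠ 0) {x : GlR U} (h : glPr U f * x = 0) : x = 0 := by
  have h1 : glPr U (fun n => (f n)⁻¹) * glPr U f = 1 := by
    rw [← map_mul, ← map_one (glPr U)]
    congr 1
    funext n
    exact inv_mul_cancel₀ (hf n)
  rw [← one_mul x, ← h1, mul_assoc, h, mul_zero]

/-- classes of size `O(exp w)` for the absolute value `φ` -/
def glO (U : Ultrafilter ℕ) (φ : AbsoluteValue ℚ ℝ) (w : ℕ → ℝ) : Submodule ℚ (GlR U) where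
  carrier := {x | ∃ f, glPr U f = x ∧ ∃ C : ℝ, ∀ᶠ n in U, φ (f n) ≤ C * Real.exp (w n)}
  add_mem' := by
    rintro _ _ ⟨f, rfl, C, hf⟩ ⟨g, rfl, C', hg⟩
    refine ⟨f + g, map_add _ _ _, C + C', ?_⟩
    filter_upwards [hf, hg] with n h1 h2
    exact (φ.add_le _ _).trans (by linarith)
  zero_mem' := ⟨0, map_zero _, 0, Eventually.of_forall fun n => by simp⟩
  smul_mem' := by
    rintro c _ ⟨f, rfl, C, hf⟩
    refine ⟨c • f, map_smul _ _ _, φ c * C, ?_⟩
    filter_upwards [hf] with n h1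
    rw [Pi.smul_apply, smul_eq_mul, map_mul, mul_assoc]
    exact mul_le_mul_of_nonneg_left h1 (φ.nonneg _)

variable {φ : AbsoluteValue ℚ ℝ} {w w' : ℕ → ℝ}

theorem gl_mem {f : ℕ → ℚ} :
    glPr U f ∈ glO U φ w ↔ ∃ C : ℝ, ∀ᶠ n in U, φ (f n) ≤ C * Real.exp (w n) := by
  refine ⟨fun ⟨g, hg, C, h⟩ => ⟨C, ?_⟩, fun h => ⟨f, rfl, h⟩⟩
  filter_upwards [gl_pr_eq.1 hg, h] with n h1 h2
  rwa [← h1]

theorem gl_mono (h : ∀ n, w n ≤ w' n) : glO U φ w ≤ glO U φ w' := by
  rintro _ ⟨f, rfl, C, hf⟩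
  refine ⟨f, rfl, max C 0, ?_⟩
  filter_upwards [hf] with n h1
  refine h1.trans ?_
  have := h n
  gcongr
  exact le_max_left _ _

/-- constants can be absorbed -/
theorem gl_ev {f : ℕ → ℚ} {N : ℕ → ℝ} (hN : Tendsto N U atTop) (h : glPr U f ∈ glO U φ w)
    (K : ℝ) (hK : 0 ≤ K) {η : ℝ} (hη : 0 < η) :
    ∀ᶠ n in U, K * φ (f n) ≤ Real.exp (w n + η * N n) := by
  obtain ⟨C, hC⟩ := gl_mem.1 h
  filter_upwards [hC, ev_le_exp hN (K * C) hη] with n h1 h2
  rw [Real.exp_add]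
  calc K * φ (f n) ≤ K * (C * Real.exp (w n)) := by gcongr
    _ = Real.exp (w n) * (K * C) := by ring
    _ ≤ _ := by gcongr

/-- monomials -/
def GlMon (U : Ultrafilter ℕ) (N : ℕ → ℕ) (δ : ℝ) (j B : ℕ) (x : GlR U) : Prop :=
  ∃ (a : ℕ → ℕ) (k : ℕ → ℤ), glPr U (fun n => (2 / 3 : ℚ) ^ a n * k n) = x ∧
    ∀ n, a n ≤ B * N n ∧ |(k n : ℝ)| ≤ Real.exp (j * δ * N n)

variable {N : ℕ → ℕ} {δ : ℝ}

theorem GlMon.mul {j B j' B' : ℕ} {x y : GlR U} (hx : GlMon U N δ j B x)
    (hy : GlMon U N δ j' B' y) : GlMon U N δ (j + j') (B + B') (x * y) := by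
  obtain ⟨a, k, rfl, h⟩ := hx
  obtain ⟨a', k', rfl, h'⟩ := hy
  refine ⟨a + a', k * k', ?_, fun n => ⟨?_, ?_⟩⟩
  · rw [← map_mul]
    congr 1
    funext n
    simp only [Pi.add_apply, Pi.mul_apply, pow_add, Int.cast_mul]
    ring
  · rw [add_mul]
    exact Nat.add_le_add (h n).1 (h' n).1
  · rw [Pi.mul_apply, Int.cast_mul, abs_mul, Nat.cast_add, add_mul, add_mul, Real.exp_add]
    exact mul_le_mul (h n).2 (h' n).2 (abs_nonneg _) (Real.exp_pos _).le

theorem gl_mon_pow {j B : ℕ} {A : Set (GlR U)} (hA : ∀ x ∈ A, GlMon U N δ j B x) (e : ℕ) :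
    ∀ x ∈ A ^ e, GlMon U N δ (e * j) (e * B) x := by
  induction e with
  | zero =>
    intro x hx
    rw [pow_zero, Set.mem_one] at hx
    subst hx
    refine ⟨0, 1, ?_, fun n => by simp⟩
    rw [← map_one (glPr U)]
    congr 1
    funext n
    simp
  | succ e ih =>
    intro x hx
    rw [pow_succ] at hx
    obtain ⟨y, hy, z, hz, rfl⟩ := hx
    rw [add_mul, add_mul, one_mul, one_mul]
    exact (ih y hy).mul (hA z hz)

theorem gl_level (hN : ∀ᶠ n in U, 0 < N n) {a : ℕ → ℕ} {B : ℕ} (h : ∀ n, a n ≤ B * N n) (u : ℕ) :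
    ∃ t : ℕ, ∀ᶠ n in U, t * N n ≤ u * a n ∧ u * a n < (t + 1) * N n := by
  have h1 : ∀ n, u * a n / N n < u * B + 1 := fun n => Nat.lt_succ_of_le
    (Nat.div_le_of_le_mul (by
      calc u * a n ≤ u * (B * N n) := Nat.mul_le_mul_left _ (h n)
        _ = _ := by ring))
  obtain ⟨t, ht⟩ := exists_const U fun n => (⟨_, h1 n⟩ : Fin (u * B + 1))
  refine ⟨t, ?_⟩
  filter_upwards [ht, hN] with n h2 h3
  rw [← h2]
  exact ⟨Nat.div_mul_le_self _ _, by rw [mul_comm _ (N n)]; exact Nat.lt_mul_div_succ _ h3⟩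

theorem gl_two (a : ℕ) (k : ℤ) : Rat.AbsoluteValue.padic 2 ((2 / 3 : ℚ) ^ a * k) ≤
    Real.exp (-(a * Real.log 2)) := by
  have h2 : Rat.AbsoluteValue.padic 2 (2 : ℚ) = 2⁻¹ := by
    have := padicNorm.padicNorm_p_of_prime (p := 2)
    simp only [Nat.cast_ofNat] at this
    rw [Rat.AbsoluteValue.padic_eq_padicNorm, this]
    norm_num
  have h3 : Rat.AbsoluteValue.padic 2 (3 : ℚ) = 1 := by
    have := padicNorm.padicNorm_of_prime_of_ne (p := 2) (q := 3) (by norm_num)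
    simp only [Nat.cast_ofNat] at this
    rw [Rat.AbsoluteValue.padic_eq_padicNorm, this]
    norm_num
  rw [map_mul, map_pow, map_div₀, h2, h3, Real.exp_neg, Real.exp_nat_mul,
    Real.exp_log two_pos, div_one, inv_pow]
  exact mul_le_of_le_one_right (by positivity) (Rat.AbsoluteValue.padic_le_one 2 k)

theorem gl_real (a : ℕ) (k : ℚ) : Rat.AbsoluteValue.real ((2 / 3 : ℚ) ^ a * k) =
    Real.exp (-(a * (Real.log 3 - Real.log 2))) * |(k : ℝ)| := by
  rw [← mul_neg, Real.exp_nat_mul, neg_sub, Real.exp_sub, Real.exp_log two_pos,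
    Real.exp_log three_pos]
  simp [abs_mul, abs_div]

theorem gl_three (k : ℚ) (e : ℕ) : Rat.AbsoluteValue.padic 2 (3 ^ e * k) =
    Rat.AbsoluteValue.padic 2 k := by
  have h3 : Rat.AbsoluteValue.padic 2 (3 : ℚ) = 1 := by
    have := padicNorm.padicNorm_of_prime_of_ne (p := 2) (q := 3) (by norm_num)
    simp only [Nat.cast_ofNat] at this
    rw [Rat.AbsoluteValue.padic_eq_padicNorm, this]
    norm_num
  rw [map_mul, map_pow, h3, one_pow, one_mul]

theorem gl_dvd_two {z : ℤ} {k N : ℝ} (hN : 0 ≤ N)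
    (h : 2 * Rat.AbsoluteValue.padic 2 z ≤ Real.exp (-(k * N))) :
    ((2 : ℕ) : ℤ) ^ ex 2 (max 0 k) N ∣ z := by
  rcases le_total k 0 with hk | hk
  · simp [max_eq_left hk, ex]
  rw [max_eq_right hk, ← Nat.cast_pow, padicNorm.dvd_iff_norm_le, ← Rat.cast_le (K := ℝ)]
  have h1 := pow_ex_le (p := 2) le_rfl (mul_nonneg hk hN)
  rw [Rat.AbsoluteValue.padic_eq_padicNorm, Real.exp_neg] at h
  push_cast at h1 ⊢
  rw [_root_.zpow_neg, zpow_natCast]
  refine le_trans ?_ (inv_anti₀ (by positivity) h1)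
  rw [mul_inv]
  linarith

/-- the application of the subspace theorem to adapted bases -/
theorem gl_st (hST : S_ST) (hN : Tendsto (fun n => (N n : ℝ)) U atTop) {D B u : ℕ} (hu : 0 < u)
    {σ η : ℝ} (hη : 0 < η) (a : Fin D → ℕ → ℕ) (k : Fin D → ℕ → ℤ) (lev tF tG : Fin D → ℕ)
    (LF LG : Matrix (Fin D) (Fin D) ℤ) (g : Fin D → GlR U)
    (hg : ∀ i, glPr U (fun n => (2 / 3 : ℚ) ^ a i n * k i n) = g i)
    (ha : ∀ i n, a i n ≤ B * N n) (hl : ∀ i, ∀ᶠ n in U, u * a i n < (lev i + 1) * N n)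
    (hi : LinearIndependent ℚ g) (hF0 : LF.det ≠ 0) (hG0 : LG.det ≠ 0)
    (hF : ∀ i, ∑ j, (LF i j : ℚ) • g j ∈ glO U (Rat.AbsoluteValue.padic 2)
      fun n => -(tF i / u * Real.log 2 * N n))
    (hG : ∀ i, ∑ j, (LG i j : ℚ) • g j ∈ glO U Rat.AbsoluteValue.real
      fun n => (σ - tG i / u * (Real.log 3 - Real.log 2)) * N n) :
    (∑ i, (tF i : ℝ)) / u * Real.log 2 + (∑ i, (tG i : ℝ)) / u * (Real.log 3 - Real.log 2) ≤
      (∑ i, (lev i : ℝ)) / u * Real.log 3 + D * (σ + 2 * η + Real.log 3 / u) := by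
  by_contra hc
  have hu' : (0 : ℝ) < u := by exact_mod_cast hu
  have l3 : 0 < Real.log 3 := Real.log_pos (by norm_num)
  let x : ℕ → Fin D → ℤ := fun n i => 2 ^ a i n * 3 ^ (B * N n - a i n) * k i n
  have hx : ∀ n i, (x n i : ℚ) = 3 ^ (B * N n) * ((2 / 3 : ℚ) ^ a i n * k i n) := fun n i => by
    simp only [x]
    push_cast
    rw [pow_sub₀ _ (by norm_num) (ha i n), div_pow]
    ring
  have hL : ∀ (L : Matrix (Fin D) (Fin D) ℤ) n i, (((L *ᵥ x n) i : ℤ) : ℚ) = 3 ^ (B * N n) *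
      (∑ j, (L i j : ℚ) • fun n => (2 / 3 : ℚ) ^ a j n * k j n) n := fun L n i => by
    simp [mulVec, dotProduct, hx, Finset.mul_sum, mul_left_comm]
  have hP : ∀ (c : Fin D → ℚ), ∑ j, c j • g j =
      glPr U (∑ j, c j • fun n => (2 / 3 : ℚ) ^ a j n * k j n) := fun c => by
    simp only [map_sum, map_smul, hg]
  obtain ⟨l, hl0, hl1⟩ := hST D (Fin 2) ![2, 3] LG ![LF, 1]
    (fun i => B * Real.log 3 + σ - tG i / u * (Real.log 3 - Real.log 2) + η)
    ![fun i => max 0 (tF i / u * Real.log 2 - η), fun i => max 0 ((B - (lev i + 1) / u) * Real.log 3)]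
    U (fun n => N n) x
    ⟨by simp [Fin.forall_fin_two], by simp [Pairwise, Fin.forall_fin_two]; norm_num, hG0,
      by simp [Fin.forall_fin_two, hF0]⟩
    (by simp [Fin.forall_fin_two])
    (by
      have h1 : ∑ i, ((tF i : ℝ) / u * Real.log 2 - η) ≤
        ∑ i, max 0 ((tF i : ℝ) / u * Real.log 2 - η) := Finset.sum_le_sum fun i _ => le_max_right _ _
      have h2 : ∑ i, (((B : ℝ) - (lev i + 1) / u) * Real.log 3) ≤
        ∑ i, max 0 (((B : ℝ) - (lev i + 1) / u) * Real.log 3) :=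
          Finset.sum_le_sum fun i _ => le_max_right _ _
      simp only [Fin.sum_univ_two, cons_val_zero, cons_val_one]
      simp only [add_div, sub_mul, add_mul, Finset.sum_add_distrib, Finset.sum_sub_distrib,
        ← Finset.sum_mul, ← Finset.sum_div, Finset.sum_const, Finset.card_univ, Fintype.card_fin,
        nsmul_eq_mul] at h1 h2 ⊢
      have e : (D : ℝ) * (Real.log 3 / u) = D * 1 / u * Real.log 3 := by ring
      linarith) hN
    (by
      have h1 := eventually_all.2 fun i => gl_ev hN (hP _ ▸ hF i) 2 two_pos.le hη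
      have h2 := eventually_all.2 fun i => gl_ev hN (hP _ ▸ hG i) 1 one_pos.le hη
      filter_upwards [h1, h2, eventually_all.2 hl] with n h1 h2 h3
      refine ⟨fun i => ?_, Fin.forall_fin_two.2 ⟨fun i => ?_, fun i => ?_⟩⟩
      · have := h2 i
        rw [one_mul, Rat.AbsoluteValue.real_eq_abs, Rat.cast_abs] at this
        rw [← Rat.cast_intCast, hL, Rat.cast_mul, abs_mul]
        refine (mul_le_mul_of_nonneg_left this (abs_nonneg _)).trans_eq ?_
        rw [show |(((3 : ℚ) ^ (B * N n) : ℚ) : ℝ)| = Real.exp ((B * N n : ℕ) * Real.log 3) by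
          rw [Real.exp_nat_mul, Real.exp_log three_pos]; simp, ← Real.exp_add]
        congr 1
        push_cast
        ring
      · refine gl_dvd_two (Nat.cast_nonneg _) ?_
        simp only [cons_val_zero]
        rw [hL, gl_three]
        refine (h1 i).trans_eq ?_
        congr 1
        ring
      · simp only [cons_val_one, cons_val_zero, one_mulVec, x]
        refine ((pow_dvd_pow _ ?_).mul_left _).mul_right _
        rw [ex_le_iff (by norm_num), max_mul_of_nonneg _ _ (Nat.cast_nonneg _), max_le_iff]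
        refine ⟨by rw [zero_mul]; positivity, ?_⟩
        have h4 : (u : ℝ) * a i n ≤ (lev i + 1) * N n := by exact_mod_cast (h3 i).le
        have h5 : (a i n : ℝ) ≤ (lev i + 1) / u * N n := by
          rw [div_mul_eq_mul_div, le_div_iff₀ hu']
          linarith
        rw [Nat.cast_sub (ha i n)]
        push_cast
        nlinarith)
  refine hl0 (funext fun i => ?_)
  have := Fintype.linearIndependent_iff.1 hi (fun j => (l j : ℚ)) (by
    rw [hP, ← map_zero (glPr U), gl_pr_eq]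
    filter_upwards [hl1] with n h
    have h1 := congrArg (Int.cast : ℤ → ℚ) h
    simp only [Int.cast_sum, Int.cast_mul, hx, Int.cast_zero] at h1
    have h2 : (3 : ℚ) ^ (B * N n) *
        (∑ j, (l j : ℚ) • fun n => (2 / 3 : ℚ) ^ a j n * k j n) n = 0 := by
      rw [← h1]
      simp [Finset.mul_sum, mul_left_comm]
    exact (mul_eq_zero.1 h2).resolve_left (by positivity)) i
  exact_mod_cast this

theorem gl_step {R : Type} [CommRing R] [Algebra ℚ R] (A Y : Submodule ℚ R) (j B : ℕ) :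
    A ^ (j + 1) * Y ^ (B + 1) = A * Y * (A ^ j * Y ^ B) := by ring

theorem gl_core (hST : S_ST) (hGAIN : S_GAIN) (hN : Tendsto (fun n => (N n : ℝ)) U atTop)
    {j B : ℕ} (hδ : ((j + 1 : ℕ) : ℝ) * δ ≤ (Real.log 3 - Real.log 2) / 8) {A Y : Finset (GlR U)}
    (hA : ∀ x ∈ A, GlMon U N δ 1 0 x) (hY : ∀ x ∈ Y, GlMon U N δ 0 1 x)
    (hgr : finrank ℚ ↥(Submodule.span ℚ (A : Set (GlR U)) ^ (j + 1) *
      Submodule.span ℚ (Y : Set (GlR U)) ^ (B + 1)) ≤ 2 * finrank ℚ
        ↥(Submodule.span ℚ (A : Set (GlR U)) ^ j * Submodule.span ℚ (Y : Set (GlR U)) ^ B))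
    {q : ℕ → ℚ} {M : ℕ → ℤ} (hq : ∀ n, q n ≠ 0) (hM : ∀ n, 1 ≤ (2 / 3 : ℚ) ^ N n * |(M n : ℚ)|)
    (hqA : glPr U q ∈ A) (h1Y : 1 ∈ Y)
    (hV : glPr U (fun n => (2 / 3 : ℚ) ^ N n * M n) * glPr U q ∈
      Submodule.span ℚ (A : Set (GlR U)) * Submodule.span ℚ (Y : Set (GlR U))) : False := by
  classical
  set lam := Real.log 3 - Real.log 2 with hlam
  have l2 : 0 < Real.log 2 := Real.log_pos (by norm_num)
  have l0 : 0 < lam := sub_pos.2 (Real.log_lt_log two_pos (by norm_num))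
  have l1 : lam ≤ Real.log 2 := by
    have : Real.log 3 ≤ Real.log (2 ^ 2) := Real.log_le_log three_pos (by norm_num)
    rw [Real.log_pow] at this
    push_cast at this
    linarith
  obtain ⟨u, hu⟩ := exists_nat_gt (8 * Real.log 3 / lam)
  have l3 : 0 < Real.log 3 := Real.log_pos (by norm_num)
  have hu0 : (0 : ℝ) < u := lt_trans (by positivity) hu
  set SA := Submodule.span ℚ (A : Set (GlR U))
  set SY := Submodule.span ℚ (Y : Set (GlR U))
  let S : Finset (GlR U) := A ^ (j + 1) * Y ^ (B + 1)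
  have hS : Submodule.span ℚ (S : Set (GlR U)) = SA ^ (j + 1) * SY ^ (B + 1) := by
    rw [Submodule.span_pow, Submodule.span_pow, Submodule.span_mul_span, Finset.coe_mul,
      Finset.coe_pow, Finset.coe_pow]
  have hmon : ∀ x ∈ S, ∃ (a : ℕ → ℕ) (k : ℕ → ℤ) (t : ℕ),
      glPr U (fun n => (2 / 3 : ℚ) ^ a n * k n) = x ∧ (∀ n, a n ≤ (B + 1) * N n ∧
        |(k n : ℝ)| ≤ Real.exp ((j + 1 : ℕ) * δ * N n)) ∧
      ∀ᶠ n in U, t * N n ≤ u * a n ∧ u * a n < (t + 1) * N n := fun x hx => by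
    rw [← Finset.mem_coe, Finset.coe_mul, Finset.coe_pow, Finset.coe_pow] at hx
    obtain ⟨y, hy, z, hz, rfl⟩ := hx
    obtain ⟨a, k, h1, h2⟩ := (gl_mon_pow hA _ y hy).mul (gl_mon_pow hY _ z hz)
    simp only [mul_one, mul_zero, add_zero, zero_add] at h2
    obtain ⟨t, ht⟩ := gl_level (U := U) ((hN.eventually_gt_atTop 0).mono fun n h => by
      exact_mod_cast h) (fun n => (h2 n).1) u
    exact ⟨a, k, t, h1, h2, ht⟩
  choose! a k lev e1 e2 e3 using hmon
  have hstep : ∀ y ∈ SA * SY, ∀ x ∈ SA ^ j * SY ^ B, y * x ∈ Submodule.span ℚ (S : Set (GlR U)) :=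
    fun y hy x hx => by
      rw [hS, gl_step]
      exact Submodule.mul_mem_mul hy hx
  have hqm : glPr U q ∈ SA * SY := by
    rw [← mul_one (glPr U q)]
    exact Submodule.mul_mem_mul (Submodule.subset_span hqA) (Submodule.subset_span h1Y)
  have hM0 : ∀ n, (2 / 3 : ℚ) ^ N n * M n ≠ 0 := fun n h => by
    have := hM n
    rw [(mul_eq_zero.1 h).resolve_left (by positivity)] at this
    norm_num at this
  let X := (SA ^ j * SY ^ B).map (LinearMap.mulLeft ℚ (glPr U q))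
  have hinj : Function.Injective (LinearMap.mulLeft ℚ (glPr U q)) :=
    (injective_iff_map_eq_zero _).2 fun x hx => gl_inj hq hx
  have hX : finrank ℚ X = finrank ℚ ↥(SA ^ j * SY ^ B) :=
    (Submodule.equivMapOfInjective _ hinj _).finrank_eq.symm
  have hXS : X ≤ Submodule.span ℚ (S : Set (GlR U)) := by
    rintro _ ⟨x, hx, rfl⟩
    exact hstep _ hqm x hx
  have hX0 : 0 < finrank ℚ X := by
    have : FiniteDimensional ℚ X := Submodule.finiteDimensional_of_le hXS
    refine finrank_pos_iff_exists_ne_zero.2 ⟨⟨_, _, Submodule.mul_mem_mul (Submodule.pow_mem_pow _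
      (Submodule.subset_span hqA) j) (Submodule.pow_mem_pow _ (Submodule.subset_span h1Y) B),
      rfl⟩, fun h => ?_⟩
    have h1 : glPr U q * (glPr U q ^ j * 1 ^ B) = 0 := congrArg Subtype.val h
    rw [one_pow, mul_one, ← map_pow, ← map_mul, ← map_zero (glPr U), gl_pr_eq] at h1
    obtain ⟨n, hn⟩ := h1.exists
    exact mul_ne_zero (hq n) (pow_ne_zero j (hq n)) hn
  obtain ⟨D, g, LF, LG, tF, tG, hD, hg, hi, hF0, hG0, hF, hG, i1, i2, i3⟩ := hGAIN _ S lev
    (fun t => glO U (Rat.AbsoluteValue.padic 2) fun n => -(t / u * Real.log 2 * N n))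
    (fun t => glO U Rat.AbsoluteValue.real fun n => ((j + 1 : ℕ) * δ - t / u * lam) * N n) X
    (LinearMap.mulLeft ℚ (glPr U fun n => (2 / 3 : ℚ) ^ N n * M n)) u
    (fun s t hst => gl_mono fun n => by
      have : (s : ℝ) ≤ t := by exact_mod_cast hst
      gcongr)
    (fun s t hst => gl_mono fun n => by
      have : (s : ℝ) ≤ t := by exact_mod_cast hst
      gcongr)
    (fun x hx => by
      have h1 : ∀ᶠ n in U, (lev x : ℝ) / u * N n ≤ a x n := (e3 x hx).mono fun n h => by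
        have h4 : (lev x : ℝ) * N n ≤ u * a x n := by exact_mod_cast h.1
        rw [div_mul_eq_mul_div, div_le_iff₀ hu0]
        linarith
      constructor
      · refine ⟨_, e1 x hx, 1, h1.mono fun n h => (gl_two _ _).trans ?_⟩
        rw [one_mul, Real.exp_le_exp]
        nlinarith
      · refine ⟨_, e1 x hx, 1, h1.mono fun n h => ?_⟩
        rw [one_mul, gl_real, Rat.cast_intCast]
        refine (mul_le_mul_of_nonneg_left (e2 x hx n).2 (Real.exp_pos _).le).trans ?_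
        rw [← Real.exp_add, Real.exp_le_exp]
        nlinarith) hXS
    (by
      rintro _ ⟨_, ⟨x, hx, rfl⟩, rfl⟩
      have := hstep _ hV x hx
      rwa [mul_assoc] at this)
    (fun x _ hx => gl_inj hM0 hx)
    (fun s x _ hx => by
      obtain ⟨f, rfl⟩ := gl_surj x
      obtain ⟨C, hC⟩ := gl_mem.1 hx
      refine ⟨_, map_mul _ _ _, C, hC.mono fun n h => ?_⟩
      rw [Pi.mul_apply, map_mul]
      refine (mul_le_mul (gl_two _ _) h (AbsoluteValue.nonneg _ _) (Real.exp_pos _).le).trans_eq ?_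
      rw [mul_left_comm, ← Real.exp_add]
      congr 2
      push_cast
      field_simp
      ring)
    (fun s x _ hx => by
      obtain ⟨f, rfl⟩ := gl_surj x
      rw [LinearMap.mulLeft_apply, ← map_mul] at hx
      obtain ⟨C, hC⟩ := gl_mem.1 hx
      refine gl_mem.2 ⟨C, hC.mono fun n h => le_trans ?_ h⟩
      rw [Pi.mul_apply, map_mul]
      refine le_mul_of_one_le_left (AbsoluteValue.nonneg _ _) ?_
      rw [Rat.AbsoluteValue.real_eq_abs, abs_mul, abs_of_pos (by positivity)]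
      exact_mod_cast hM n)
  have key := gl_st hST hN (by exact_mod_cast hu0) (η := lam / 16) (by positivity)
    (fun i => a (g i)) (fun i => k (g i)) (fun i => lev (g i)) tF tG LF LG g
    (fun i => e1 _ (hg i)) (fun i n => (e2 _ (hg i) n).1)
    (fun i => (e3 _ (hg i)).mono fun n h => h.2) hi hF0 hG0 hF hG
  rw [← hS, ← hD, ← hX] at hgr
  have j0 : (D : ℝ) ≤ 2 * finrank ℚ X := by exact_mod_cast hgr
  have j1 : (∑ i, (lev (g i) : ℝ)) ≤ ∑ i, (tF i : ℝ) := by exact_mod_cast i1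
  have j2 : (∑ i, (lev (g i) : ℝ)) ≤ ∑ i, (tG i : ℝ) := by exact_mod_cast i2
  have j3 : 2 * (∑ i, (lev (g i) : ℝ)) + u * finrank ℚ X ≤ ∑ i, (tF i : ℝ) + ∑ i, (tG i : ℝ) := by
    exact_mod_cast i3
  have j4 : (0 : ℝ) < finrank ℚ X := by exact_mod_cast hX0
  have j5 : Real.log 3 / u ≤ lam / 8 := by
    rw [div_lt_iff₀ l0] at hu
    rw [div_le_iff₀ hu0]
    linarith
  generalize (∑ i, (lev (g i) : ℝ)) = x0, (∑ i, (tF i : ℝ)) = x1, (∑ i, (tG i : ℝ)) = x2,
    (finrank ℚ X : ℝ) = d at *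
  have j6 : (D : ℝ) * ((j + 1 : ℕ) * δ + 2 * (lam / 16) + Real.log 3 / u) ≤
      2 * d * (3 * lam / 8) :=
    (mul_le_mul_of_nonneg_left (by linarith) D.cast_nonneg).trans
      (mul_le_mul_of_nonneg_right j0 (by positivity))
  have j7 : d * lam ≤ x1 / u * Real.log 2 + x2 / u * lam - x0 / u * Real.log 3 := by
    have : x1 / u * Real.log 2 + x2 / u * lam - x0 / u * Real.log 3 =
        ((x1 - x0) * Real.log 2 + (x2 - x0) * lam) / u := by rw [hlam]; ring
    rw [this, le_div_iff₀ hu0]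
    nlinarith [mul_le_mul_of_nonneg_left l1 (sub_nonneg.2 j1)]
  nlinarith [mul_pos j4 l0]

theorem gl_list {f : ℕ × ℤ → ℚ} (hf : f (0, 0) = 0) (l : List (ℕ × ℤ)) :
    ∀ r, l.length ≤ r → (l.map f).sum = ∑ i ∈ Finset.range r, f (l.getD i (0, 0)) := by
  induction l with
  | nil => simp [hf]
  | cons y l ih =>
    intro r hr
    obtain ⟨r, rfl⟩ : ∃ r', r = r' + 1 := ⟨r - 1, by simp at hr; omega⟩
    rw [Finset.sum_range_succ', List.map_cons, List.sum_cons, ih r (by simpa using hr), add_comm]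
    simp

theorem gl_data {s r N : ℕ} {K : ℝ} (hK : 0 ≤ K) {W : Finset ℤ} {l : List (ℕ × ℤ)}
    (hW : W.card ≤ s) (hl : l.length ≤ r) (h1 : ∀ x ∈ W, |(x : ℝ)| ≤ K)
    (h2 : ∀ y ∈ l, y.1 ≤ N ∧ y.2 ∈ W) : ∃ (u : Fin s → ℤ) (a : Fin r → ℕ) (e : Fin r → Fin s → ℤ),
      (∀ j, |(u j : ℝ)| ≤ K) ∧ (∀ i, a i ≤ N) ∧ (∀ i j, |(e i j : ℝ)| ≤ 1) ∧
      (l.map fun y => (2 / 3 : ℚ) ^ y.1 * y.2).sum =
        ∑ i, ∑ j, (u j : ℚ) * ((2 / 3 : ℚ) ^ a i * e i j) := by
  let u : Fin s → ℤ := fun j => if h : j.1 < W.card then (W.equivFin.symm ⟨j, h⟩).1 else 0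
  have h3 : ∀ i : Fin r, (l.getD i (0, 0)).1 ≤ N ∧ ∃ e : Fin s → ℤ, (∀ j, |(e j : ℝ)| ≤ 1) ∧
      ∑ j, (u j : ℚ) * e j = (l.getD i (0, 0)).2 := fun i => by
    by_cases hi : i.1 < l.length
    · rw [List.getD_eq_getElem _ _ hi]
      obtain ⟨b1, b2⟩ := h2 _ (List.getElem_mem hi)
      refine ⟨b1, Pi.single ((W.equivFin ⟨_, b2⟩).castLE hW) 1, fun j => ?_, ?_⟩
      · rw [Pi.single_apply]
        split_ifs <;> simp
      · rw [Finset.sum_eq_single ((W.equivFin ⟨_, b2⟩).castLE hW)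
          (fun j _ hj => by simp [Pi.single_eq_of_ne hj]) (by simp)]
        simp [u]
    · rw [List.getD_eq_default _ _ (not_lt.1 hi)]
      exact ⟨Nat.zero_le _, 0, by simp, by simp⟩
  choose h4 e h5 h6 using h3
  refine ⟨u, _, e, fun j => ?_, h4, h5, ?_⟩
  · simp only [u]
    split_ifs with h
    · exact h1 _ (W.equivFin.symm ⟨j, h⟩).2
    · simpa using hK
  · rw [gl_list (by simp) l r hl, Finset.sum_range]
    refine Finset.sum_congr rfl fun i _ => ?_
    rw [← h6, Finset.mul_sum]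
    exact Finset.sum_congr rfl fun j _ => by ring

theorem t_GL (hST : S_ST) (hGAIN : S_GAIN) (hGROW : S_GROW) : S_GL := by
  classical
  intro s
  obtain ⟨J, hJ⟩ := hGROW (s + 1)
  have l0 : 0 < Real.log 3 - Real.log 2 := sub_pos.2 (Real.log_lt_log two_pos (by norm_num))
  set δ := (Real.log 3 - Real.log 2) / 8 / (J + 1) with hδ
  refine ⟨δ, by positivity, fun r => ?_⟩
  by_contra hc
  push Not at hc
  choose N hN q W l M h1 h2 h3 h4 h5 h6 h7 h8 using hc
  choose u a e k1 k2 k3 k4 using fun n => gl_data (Real.exp_pos _).le (h1 n) (h2 n) (h5 n) (h6 n)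
  let U := hyperfilter ℕ
  let A : Finset (GlR U) := insert (glPr U fun n => q n)
    (Finset.univ.image fun j => glPr U fun n => u n j)
  let Y : Finset (GlR U) := insert 1 (Finset.univ.image fun t : Fin r × Fin s =>
    glPr U fun n => (2 / 3 : ℚ) ^ a n t.1 * e n t.1 t.2)
  obtain ⟨j, hj, B, hB⟩ := hJ _ A Y ((Finset.card_insert_le _ _).trans
    (Nat.succ_le_succ (Finset.card_image_le.trans_eq (by simp))))
  refine gl_core hST hGAIN (N := N) (δ := δ) (M := M) ((tendsto_natCast_atTop_atTop.comp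
    (tendsto_atTop_mono hN tendsto_id)).mono_left Nat.hyperfilter_le_atTop) ?_ ?_ ?_ hB
    (fun n => Nat.cast_ne_zero.2 (h3 n).ne') (fun n => (h8 n).1) (Finset.mem_insert_self _ _)
    (Finset.mem_insert_self _ _) ?_
  · rw [hδ, mul_comm, div_mul_eq_mul_div, div_le_iff₀ (by positivity)]
    have : ((j + 1 : ℕ) : ℝ) ≤ J + 1 := by exact_mod_cast Nat.succ_le_succ hj.le
    gcongr
  · intro x hx
    rcases Finset.mem_insert.1 hx with rfl | hx
    · exact ⟨0, fun n => q n, by congr 1; funext n; simp, fun n => by simpa using h4 n⟩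
    · obtain ⟨i, -, rfl⟩ := Finset.mem_image.1 hx
      exact ⟨0, fun n => u n i, by congr 1; funext n; simp, fun n => by simpa using k1 n i⟩
  · intro x hx
    rcases Finset.mem_insert.1 hx with rfl | hx
    · exact ⟨0, 1, by rw [← map_one (glPr U)]; congr 1; funext n; simp, fun n => by simp⟩
    · obtain ⟨t, -, rfl⟩ := Finset.mem_image.1 hx
      exact ⟨_, _, rfl, fun n => by simpa using ⟨k2 n t.1, k3 n t.1 t.2⟩⟩
  · have : (glPr U fun n => (2 / 3 : ℚ) ^ N n * M n) * (glPr U fun n => q n) =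
        ∑ i, ∑ j, (glPr U fun n => u n j) * glPr U fun n => (2 / 3 : ℚ) ^ a n i * e n i j := by
      simp only [← map_mul, ← map_sum]
      congr 1
      funext n
      simp only [Pi.mul_apply, Finset.sum_apply, ← k4 n, h7 n]
      ring
    rw [this]
    refine Submodule.sum_mem _ fun i _ => Submodule.sum_mem _ fun j _ => Submodule.mul_mem_mul
      (Submodule.subset_span ?_) (Submodule.subset_span ?_)
    · exact Finset.mem_insert_of_mem (Finset.mem_image_of_mem _ (Finset.mem_univ j))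
    · exact Finset.mem_insert_of_mem (Finset.mem_image_of_mem _ (Finset.mem_univ (i, j)))

end Pool.Agent.P.MP_fc15d7_nt
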