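import Pool.Agent.P.MP_fc15d7_nt.Iface

/-! Slow growth of dimensions of products of subspaces: `S_GROW`. -/

set_option autoImplicit false

open Filter Module

namespace Pool.Agent.P.MP_fc15d7_nt

theorem grow_num (s a : ℕ) : ∃ k : ℕ, 2 * (k * a + 1) ^ s < 2 ^ k := by
  have h := (tendsto_pow_const_div_const_pow_of_one_lt s (r := 2) one_lt_two).eventually
    (gt_mem_nhds (show (0 : ℝ) < 1 / (2 * (a + 1) ^ s) by positivity))
  obtain ⟨k, hk, hk1⟩ := (h.and (eventually_ge_atTop 1)).exists
  refine ⟨k, ?_⟩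
  rw [div_lt_div_iff₀ (by positivity) (by positivity), one_mul] at hk
  have h1 : (k * a + 1) ^ s ≤ (k * (a + 1)) ^ s := Nat.pow_le_pow_left (by nlinarith) _
  have h2 : k ^ s * (2 * (a + 1) ^ s) < 2 ^ k := by exact_mod_cast hk
  rw [mul_pow] at h1
  nlinarith

section

variable {R : Type} [CommRing R] [Algebra ℚ R]

theorem grow_pow (A : Finset R) (n : ℕ) :
    finrank ℚ ↥(Submodule.span ℚ (A : Set R) ^ n) ≤ (n + 1) ^ A.card := by
  classical
  set T : Finset R := (Finset.univ : Finset (A → Fin (n + 1))).image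
    fun e => ∏ a : A, (a : R) ^ (e a : ℕ) with hT
  have h1 : Submodule.span ℚ (A : Set R) ^ n ≤ Submodule.span ℚ (T : Set R) := by
    rw [Submodule.span_pow]
    refine Submodule.span_mono fun x hx => ?_
    obtain ⟨f, hf, rfl⟩ := Set.mem_pow_iff_prod.1 hx
    let g : Fin n → A := fun i => ⟨f i, hf i⟩
    refine Finset.mem_coe.2 (Finset.mem_image.2 ⟨fun a => ⟨(Finset.univ.filter fun i => g i = a).card,
      Nat.lt_succ_of_le ((Finset.card_filter_le _ _).trans (by simp))⟩, Finset.mem_univ _, ?_⟩)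
    have := Finset.prod_fiberwise' (Finset.univ : Finset (Fin n)) g fun a : A => (a : R)
    simpa only [Finset.prod_const] using this
  refine (Submodule.finrank_mono h1).trans ((finrank_span_finset_le_card T).trans ?_)
  exact Finset.card_image_le.trans (by simp)

theorem grow_mul {M N : Submodule ℚ R} (hM : M.FG) (hN : N.FG) :
    finrank ℚ ↥(M * N) ≤ finrank ℚ M * finrank ℚ N := by
  have := Module.Finite.iff_fg.2 hM
  have := Module.Finite.iff_fg.2 hN
  rw [← Submodule.mulMap_range, ← Module.finrank_tensorProduct]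
  exact LinearMap.finrank_range_le _

end

theorem t_GROW : S_GROW := by
  intro s
  obtain ⟨J, hJ⟩ := grow_num s 1
  refine ⟨J, fun R _ _ A Y hA => ?_⟩
  by_contra hc
  push Not at hc
  set f : ℕ → ℕ → ℕ := fun j B =>
    finrank ℚ ↥(Submodule.span ℚ (A : Set R) ^ j * Submodule.span ℚ (Y : Set R) ^ B) with hf
  have h0 : ∀ j < J, ∀ B, 2 * f j B < f (j + 1) (B + 1) := hc
  have h1 : ∀ B, ∀ j ≤ J, 2 ^ j * (f 0 B + 1) ≤ f j (B + j) + 1 := fun B j => by
    induction j with
    | zero => simp
    | succ j ih =>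
      intro hj
      have := h0 j hj (B + j)
      have := ih (by omega)
      rw [pow_succ, ← add_assoc]
      nlinarith
  have e0 : ∀ B, f 0 B = finrank ℚ ↥(Submodule.span ℚ (Y : Set R) ^ B) := fun B => by
    simp only [hf]
    rw [pow_zero, one_mul]
  have h2 : ∀ B, f J B ≤ (J + 1) ^ s * f 0 B := fun B => by
    rw [e0]
    refine (grow_mul ((Submodule.fg_span A.finite_toSet).pow J)
      ((Submodule.fg_span Y.finite_toSet).pow B)).trans (Nat.mul_le_mul_right _ ?_)
    exact (grow_pow A J).trans (Nat.pow_le_pow_right (Nat.succ_pos _) hA)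
  have h3 : ∀ B, 2 * (f 0 B + 1) ≤ f 0 (B + J) + 1 := fun B => by
    have a1 := h1 B J le_rfl
    have a2 := h2 (B + J)
    rw [mul_one] at hJ
    have a3 : 0 < (J + 1) ^ s := by positivity
    refine Nat.le_of_mul_le_mul_left ?_ a3
    nlinarith
  have h4 : ∀ k, 2 ^ k ≤ f 0 (k * J) + 1 := fun k => by
    induction k with
    | zero => simp
    | succ k ih =>
      have := h3 (k * J)
      rw [pow_succ, add_mul, one_mul]
      omega
  obtain ⟨k, hk⟩ := grow_num Y.card J
  have a1 := h4 k
  have a2 := grow_pow Y (k * J)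
  rw [← e0] at a2
  have a3 : 0 < (k * J + 1) ^ Y.card := by positivity
  omega

end Pool.Agent.P.MP_fc15d7_nt
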