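import Pool.Agent.P.MP_fc15d7_nt.Iface

/-! The parity word has no long prefix made of few powers of few short blocks. -/

set_option autoImplicit false

open Finset

namespace Pool.Agent.P.MP_fc15d7_nt

/-- the value of a block -/
def key_B (ε : ℕ → ℕ) (π a : ℕ) : ℚ := ∑ j ∈ range a, (ε (π + j) : ℚ) * (2 / 3) ^ j

theorem key_bd {ε : ℕ → ℕ} (h : ∀ i, ε i ≤ 1) (π a : ℕ) :
    0 ≤ key_B ε π a ∧ key_B ε π a ≤ 3 * (1 - (2 / 3) ^ a) := by
  refine ⟨sum_nonneg fun _ _ => by positivity, ?_⟩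
  induction a with
  | zero => simp [key_B]
  | succ a ih =>
    have h1 : (ε (π + a) : ℚ) ≤ 1 := by exact_mod_cast h _
    have h2 := mul_le_of_le_one_left (by positivity : (0 : ℚ) ≤ (2 / 3) ^ a) h1
    unfold key_B at ih ⊢
    rw [sum_range_succ, pow_succ]
    linarith

theorem key_val (ε : ℕ → ℕ) (π a : ℕ) {q : ℕ} (h : 3 ^ a - 2 ^ a ∣ q) :
    ∃ v : ℤ, (1 - (2 / 3 : ℚ) ^ a) * v = q * key_B ε π a := by
  obtain ⟨c, rfl⟩ := h
  refine ⟨c * ∑ j ∈ range a, ε (π + j) * 2 ^ j * 3 ^ (a - j), ?_⟩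
  rw [Nat.cast_mul, Nat.cast_sub (Nat.pow_le_pow_left (by norm_num) a), key_B]
  push_cast
  simp only [mul_sum]
  refine sum_congr rfl fun j hj => ?_
  obtain ⟨b, rfl⟩ := Nat.exists_eq_add_of_le (mem_range.1 hj).le
  rw [Nat.add_sub_cancel_left, div_pow, div_pow, pow_add 3]
  field_simp

theorem key_pow {ε : ℕ → ℕ} {π a i : ℕ} {q v : ℚ} (h : (1 - (2 / 3 : ℚ) ^ a) * v = q * key_B ε π a)
    (k : ℕ) (h' : ∀ t < k, ∀ j < a, ε (i + t * a + j) = ε (π + j)) :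
    q * key_B ε 0 (i + k * a) = q * key_B ε 0 i + ((2 / 3) ^ i - (2 / 3) ^ (i + k * a)) * v := by
  induction k with
  | zero => simp
  | succ k ih =>
    have h1 : key_B ε 0 (i + k * a + a) =
        key_B ε 0 (i + k * a) + (2 / 3) ^ (i + k * a) * key_B ε π a := by
      unfold key_B
      rw [sum_range_add, mul_sum]
      congr 1
      refine sum_congr rfl fun j hj => ?_
      rw [zero_add, h' k k.lt_succ_self j (mem_range.1 hj), pow_add]
      ring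
    rw [add_mul k, one_mul, ← add_assoc, h1, mul_add, ih fun t ht => h' t (by omega),
      pow_add _ _ a]
    linear_combination -(2 / 3) ^ (i + k * a) * h

theorem key_list {ε : ℕ → ℕ} {Ty : Finset (ℕ × ℕ)} {q : ℚ} {val : ℕ × ℕ → ℤ} {W : Finset ℤ}
    {c : ℤ} (hc : c ∈ W) (h : ∀ y ∈ Ty, (val y ∈ W ∧ -val y ∈ W) ∧
      (1 - (2 / 3 : ℚ) ^ y.2) * val y = q * key_B ε y.1 y.2) {r i : ℕ} (hd : Dec ε Ty r i) :
    ∃ l : List (ℕ × ℤ), l.length = 2 * r + 1 ∧ (∀ y ∈ l, y.1 ≤ i ∧ y.2 ∈ W) ∧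
      (l.map fun y => (2 / 3 : ℚ) ^ y.1 * y.2).sum = c - q * key_B ε 0 i := by
  induction hd with
  | zero => exact ⟨[(0, c)], rfl, by simpa using hc, by simp [key_B]⟩
  | @step r i π a k _ h1 h2 ih =>
    obtain ⟨l, l1, l2, l3⟩ := ih
    refine ⟨(i, -val (π, a)) :: (i + k * a, val (π, a)) :: l, by simp only [List.length_cons]; omega,
      ?_, ?_⟩
    · simp only [List.forall_mem_cons]
      exact ⟨⟨by omega, (h _ h1).1.2⟩, ⟨le_rfl, (h _ h1).1.1⟩,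
        fun y hy => ⟨(l2 y hy).1.trans (by omega), (l2 y hy).2⟩⟩
    · rw [List.map_cons, List.map_cons, List.sum_cons, List.sum_cons, l3, key_pow (h _ h1).2 k h2]
      push_cast
      ring

theorem key_orb (x N : ℕ) : 3 * ((x : ℚ) + 2) - key_B (par x) 0 N =
    (2 / 3) ^ N * (3 * (((fun n : ℕ => 3 * n / 2 + 1)^[N] x : ℕ) + 2)) := by
  induction N with
  | zero => simp [key_B]
  | succ N ih =>
    unfold key_B at ih ⊢
    rw [sum_range_succ, ← sub_sub, ih, Function.iterate_succ_apply', zero_add, par]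
    generalize (fun n : ℕ => 3 * n / 2 + 1)^[N] x = y
    have h : 2 * (3 * y / 2 + 1) + y % 2 = 3 * y + 2 := by omega
    have h' : 2 * ((3 * y / 2 + 1 : ℕ) : ℚ) + ((y % 2 : ℕ) : ℚ) = 3 * y + 2 := by exact_mod_cast h
    linear_combination -(2 / 3) ^ N * h'

theorem t_KEY (hGL : S_GL) : S_KEY := by
  intro s c0
  obtain ⟨δ, hδ, H⟩ := hGL (2 * s + 1)
  refine ⟨⌈2 * ((s * c0 + 3 : ℕ) : ℝ) / δ⌉₊ + 1, fun r0 => ?_⟩
  obtain ⟨N0, H⟩ := H (2 * r0 + 1)
  refine ⟨max N0 1, fun n hn x hx Ty r N h1 h2 h3 h4 hd => ?_⟩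
  rw [max_le_iff] at hn
  have hε : ∀ i, par x i ≤ 1 := fun i => Nat.le_of_lt_succ (Nat.mod_lt _ two_pos)
  obtain ⟨q, hq⟩ : ∃ q : ℕ, q = ∏ y ∈ Ty, (3 ^ y.2 - 2 ^ y.2) := ⟨_, rfl⟩
  have q0 : 0 < q := hq ▸ prod_pos fun y hy =>
    Nat.sub_pos_of_lt (Nat.pow_lt_pow_left (by norm_num) (by have := h2 y hy; omega))
  have q1 : q ≤ 3 ^ (s * c0 * n) := by
    refine hq ▸ (prod_le_pow_card _ _ (3 ^ (c0 * n)) fun y hy => (Nat.sub_le _ _).trans
      (Nat.pow_le_pow_right (by norm_num) (h2 y hy).2)).trans ?_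
    rw [← pow_mul]
    exact Nat.pow_le_pow_right (by norm_num) ((Nat.mul_le_mul_left _ h1).trans_eq (by ring))
  have q2 : ((3 * q * (x + 2) : ℕ) : ℝ) ≤ Real.exp (δ * N) := by
    have a1 : 3 * q * (x + 2) ≤ 3 ^ ((s * c0 + 3) * n) := by
      have b1 : 3 ≤ 3 ^ n := Nat.le_self_pow (by omega) 3
      calc 3 * q * (x + 2) ≤ 3 ^ n * 3 ^ (s * c0 * n) * (3 ^ n * 3 ^ n) :=
            Nat.mul_le_mul (Nat.mul_le_mul b1 q1) (by nlinarith)
        _ = _ := by ring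
    have a2 : (3 : ℝ) ≤ Real.exp 2 := by linarith [Real.add_one_le_exp (2 : ℝ)]
    have a3 := Nat.le_ceil (2 * ((s * c0 + 3 : ℕ) : ℝ) / δ)
    have a4 : ((⌈2 * ((s * c0 + 3 : ℕ) : ℝ) / δ⌉₊ : ℝ) + 1) * n ≤ N := by exact_mod_cast h4
    rw [div_le_iff₀ hδ] at a3
    refine le_trans (by exact_mod_cast a1) ((pow_le_pow_left₀ (by norm_num) a2 _).trans ?_)
    rw [← Real.exp_nat_mul, Real.exp_le_exp, Nat.cast_mul]
    have a5 : (0 : ℝ) ≤ n := Nat.cast_nonneg n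
    nlinarith [mul_le_mul_of_nonneg_left a4 hδ.le, mul_le_mul_of_nonneg_left a3 a5]
  have q3 : ((3 * q : ℕ) : ℝ) ≤ Real.exp (δ * N) :=
    le_trans (by exact_mod_cast Nat.le_mul_of_pos_right _ (by omega)) q2
  choose! val hval using fun y (hy : y ∈ Ty) =>
    key_val (par x) y.1 y.2 (q := q)
      (hq ▸ dvd_prod_of_mem (fun y : ℕ × ℕ => 3 ^ y.2 - 2 ^ y.2) hy)
  have v1 : ∀ y ∈ Ty, |(val y : ℝ)| ≤ Real.exp (δ * N) := fun y hy => by
    have a1 : (0 : ℚ) < 1 - (2 / 3) ^ y.2 :=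
      sub_pos.2 (pow_lt_one₀ (by norm_num) (by norm_num) (by have := h2 y hy; omega))
    have a2 := key_bd hε y.1 y.2
    have a3 : (0 : ℚ) ≤ q := Nat.cast_nonneg _
    have a4 : |(val y : ℚ)| ≤ (3 * q : ℕ) := by
      refine le_of_mul_le_mul_left ?_ a1
      rw [← abs_of_pos a1, ← abs_mul, hval y hy, abs_of_pos a1, abs_of_nonneg (mul_nonneg a3 a2.1)]
      push_cast
      nlinarith [mul_le_mul_of_nonneg_left a2.2 a3]
    exact le_trans (by exact_mod_cast a4) q3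
  obtain ⟨l, l1, l2, l3⟩ := key_list (c := (3 * q * (x + 2) : ℕ))
    (W := insert _ (Ty.image val ∪ Ty.image fun y => -val y)) (mem_insert_self _ _)
    (fun y hy => ⟨⟨mem_insert_of_mem (mem_union_left _ (mem_image_of_mem _ hy)),
      mem_insert_of_mem (mem_union_right _ (mem_image_of_mem _ hy))⟩, hval y hy⟩) hd
  have e := key_orb x N
  refine H N (hn.1.trans (le_trans (Nat.le_mul_of_pos_left _ (Nat.succ_pos _)) h4)) q _ l
    (3 * (((fun n : ℕ => 3 * n / 2 + 1)^[N] x : ℕ) + 2)) ?_ (by omega) q0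
    (le_trans (by exact_mod_cast Nat.le_mul_of_pos_left _ (by omega)) q3) (fun w hw => ?_) l2 ?_ ?_
  · refine (card_insert_le _ _).trans (Nat.succ_le_succ ((card_union_le _ _).trans ?_))
    linarith [card_image_le (s := Ty) (f := val), card_image_le (s := Ty) (f := fun y => -val y)]
  · simp only [mem_insert, mem_union, mem_image] at hw
    rcases hw with rfl | ⟨y, hy, rfl⟩ | ⟨y, hy, rfl⟩
    · rwa [Int.cast_natCast, Nat.abs_cast]
    · exact v1 y hy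
    · rw [Int.cast_neg, abs_neg]
      exact v1 y hy
  · rw [l3]
    push_cast
    linear_combination q * e
  · have a1 := (key_bd hε 0 N).2
    have a2 : (0 : ℚ) ≤ (2 / 3) ^ N := by positivity
    have a3 : (0 : ℚ) ≤ x := Nat.cast_nonneg _
    push_cast
    rw [abs_of_nonneg (by positivity), ← e]
    linarith

end Pool.Agent.P.MP_fc15d7_nt
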