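import Pool.Agent.P.MP_fc15d7_nt.Iface

/-! Decomposition of a word into periodic runs. -/

set_option autoImplicit false

namespace Pool.Agent.P.MP_fc15d7_nt

variable {ε : ℕ → ℕ} {Ty : Finset (ℕ × ℕ)} {a : ℕ}

theorem runs_win (h : ∀ i, ε i ≤ 1) (l : ℕ) : ∃ T : Finset ℕ, T.card ≤ 2 ^ l ∧
    ∀ x, ∃ π ∈ T, ∀ j < l, ε (x + j) = ε (π + j) := by
  let W : ℕ → Fin l → Fin 2 := fun x j => ⟨ε (x + j), Nat.lt_succ_of_le (h _)⟩
  refine ⟨Finset.univ.image (Function.invFun W), Finset.card_image_le.trans (by simp), fun x =>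
    ⟨_, Finset.mem_image_of_mem _ (Finset.mem_univ (W x)), fun j hj => ?_⟩⟩
  exact (congrArg Fin.val (congrFun (Function.invFun_eq (f := W) ⟨x, rfl⟩) ⟨j, hj⟩)).symm

theorem runs_letters (h1 : ∀ x, ∃ π, (π, 1) ∈ Ty ∧ ∀ j < 1, ε (x + j) = ε (π + j)) {r x : ℕ}
    (h : Dec ε Ty r x) : ∀ n, Dec ε Ty (r + n) (x + n)
  | 0 => h
  | n + 1 => by
    obtain ⟨π, h2, h3⟩ := h1 (x + n)
    exact (runs_letters h1 h n).step π 1 1 h2 fun t ht j hj => by
      rw [Nat.lt_one_iff.1 ht]; exact h3 j hj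

theorem runs_close (ha : 0 < a) (h1 : ∀ x, ∃ π, (π, 1) ∈ Ty ∧ ∀ j < 1, ε (x + j) = ε (π + j))
    (h2 : ∀ x, ∃ π, (π, a) ∈ Ty ∧ ∀ j < a, ε (x + j) = ε (π + j)) {r x y : ℕ} (h : Dec ε Ty r x)
    (hxy : x ≤ y) (hg : ∀ i, x ≤ i → i + a < y → ε (i + a) = ε i) :
    ∃ r' ≤ r + a, Dec ε Ty r' y := by
  obtain ⟨π, h3, h4⟩ := h2 x
  have h5 := Nat.div_add_mod' (y - x) a
  have h6 := Nat.mod_lt (y - x) ha
  have h7 := runs_letters h1 (h.step π a ((y - x) / a) h3 fun t ht j hj => by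
    induction t with
    | zero => simpa using h4 j hj
    | succ t ih =>
      have h8 := Nat.mul_le_mul_right a (Nat.succ_le_of_lt ht)
      simp only [Nat.succ_mul] at h8
      rw [← ih (by omega), ← hg (x + t * a + j) (by omega) (by omega), Nat.succ_mul]
      congr 1
      omega) ((y - x) % a)
  exact ⟨_, by omega, (show x + (y - x) / a * a + (y - x) % a = y by omega) ▸ h7⟩

theorem t_RUNS : S_RUNS := by
  intro ε a h ha
  obtain ⟨T, t1, t2⟩ := runs_win h a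
  obtain ⟨T', t3, t4⟩ := runs_win h 1
  set Ty := T.image (·, a) ∪ T'.image (·, 1) with hTy
  have h1 : ∀ x, ∃ π, (π, 1) ∈ Ty ∧ ∀ j < 1, ε (x + j) = ε (π + j) := fun x =>
    (t4 x).imp fun π hπ => ⟨Finset.mem_union_right _ (Finset.mem_image_of_mem _ hπ.1), hπ.2⟩
  have h2 : ∀ x, ∃ π, (π, a) ∈ Ty ∧ ∀ j < a, ε (x + j) = ε (π + j) := fun x =>
    (t2 x).imp fun π hπ => ⟨Finset.mem_union_left _ (Finset.mem_image_of_mem _ hπ.1), hπ.2⟩
  have key : ∀ N, ∃ x ≤ N, ∃ r ≤ a * ((Finset.range N).filter fun i => ε (i + a) ≠ ε i).card,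
      Dec ε Ty r x ∧ ∀ i, x ≤ i → i < N → ε (i + a) = ε i := fun N => by
    induction N with
    | zero => exact ⟨0, le_rfl, 0, Nat.zero_le _, .zero, fun i _ hi => absurd hi i.not_lt_zero⟩
    | succ N ih =>
      obtain ⟨x, hx, r, hr, h3, h4⟩ := ih
      rw [Finset.range_add_one, Finset.filter_insert]
      split_ifs with e
      · obtain ⟨r', h5, h6⟩ := runs_close ha h1 h2 h3 (hx.trans N.le_succ)
          fun i hi hi' => h4 i hi (by omega)
        refine ⟨N + 1, le_rfl, r', ?_, h6, fun i hi hi' => absurd hi' (not_lt.2 hi)⟩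
        rw [Finset.card_insert_of_notMem (by simp), mul_add]
        omega
      · refine ⟨x, hx.trans N.le_succ, r, hr, h3, fun i hi hi' => ?_⟩
        rcases (Nat.le_of_lt_succ hi').eq_or_lt with rfl | h5
        · exact not_not.1 e
        · exact h4 i hi h5
  refine ⟨Ty, (Finset.card_union_le _ _).trans (add_le_add (Finset.card_image_le.trans t1)
    (Finset.card_image_le.trans t3)), fun y hy => ?_, fun N => ?_⟩
  · simp only [hTy, Finset.mem_union, Finset.mem_image] at hy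
    rcases hy with ⟨_, -, rfl⟩ | ⟨_, -, rfl⟩
    exacts [⟨ha, le_rfl⟩, ⟨le_rfl, ha⟩]
  · obtain ⟨x, hx, r, hr, h3, h4⟩ := key N
    obtain ⟨r', h5, h6⟩ := runs_close ha h1 h2 h3 hx fun i hi hi' => h4 i hi (by omega)
    exact ⟨r', by nlinarith, h6⟩

end Pool.Agent.P.MP_fc15d7_nt
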