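import Pool.Agent.P.MP_fc15d7_nt.Iface

/-! Right special factors of words of low complexity. -/

set_option autoImplicit false

namespace Pool.Agent.P.MP_fc15d7_nt

variable {ε : ℕ → ℕ}

/-- factors -/
def specF (ε : ℕ → ℕ) (l : ℕ) : Set (Fin l → ℕ) := {w | ∃ i, ∀ j : Fin l, w j = ε (i + j)}

/-- right special factors -/
def specR (ε : ℕ → ℕ) (l : ℕ) : Set (Fin l → ℕ) := {u | ∃ i i', (∀ j < l, ε (i + j) = ε (i' + j)) ∧
  ε (i + l) ≠ ε (i' + l) ∧ u = fun j : Fin l => ε (i + j)}

theorem spec_fin (h : ∀ i, ε i ≤ 1) (l : ℕ) : (specF ε l).Finite :=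
  (Set.Finite.pi' fun _ : Fin l => Set.finite_Iic 1).subset fun _ ⟨_, hw⟩ j => (hw j).trans_le (h _)

theorem spec_finR (h : ∀ i, ε i ≤ 1) (l : ℕ) : (specR ε l).Finite :=
  (spec_fin h l).subset fun _ ⟨i, _, _, _, hu⟩ => ⟨i, congrFun hu⟩

theorem spec_succ (h : ∀ i, ε i ≤ 1) (l : ℕ) :
    cx ε l + (specR ε l).ncard ≤ cx ε (l + 1) := by
  let A : ℕ → Set (Fin (l + 1) → ℕ) := fun b => specF ε (l + 1) ∩ {w | w (Fin.last l) = b}
  have hA : ∀ b, (A b).Finite := fun b => (spec_fin h _).inter_of_left _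
  have h0 : ∀ i, (fun j : Fin l => ε (i + j)) ∈ Fin.init '' A (ε (i + l)) := fun i =>
    ⟨fun j => ε (i + j), ⟨⟨i, fun _ => rfl⟩, rfl⟩, rfl⟩
  have h1 : specF ε l ⊆ Fin.init '' A 0 ∪ Fin.init '' A 1 := by
    rintro w ⟨i, hw⟩
    obtain rfl : w = _ := funext hw
    rcases Nat.le_one_iff_eq_zero_or_eq_one.1 (h (i + l)) with e | e
    · exact Or.inl (by have := h0 i; rwa [e] at this)
    · exact Or.inr (by have := h0 i; rwa [e] at this)
  have h2 : specR ε l ⊆ Fin.init '' A 0 ∩ Fin.init '' A 1 := by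
    rintro w ⟨i, i', e1, e2, rfl⟩
    have h3 := h0 i
    have h4 := h0 i'
    rw [← show (fun j : Fin l => ε (i + j)) = fun j : Fin l => ε (i' + j) from
      funext fun j => e1 j j.2] at h4
    have := h (i + l)
    have := h (i' + l)
    rcases Nat.le_one_iff_eq_zero_or_eq_one.1 (h (i + l)) with e | e
    · rw [e] at h3
      rw [show ε (i' + l) = 1 by omega] at h4
      exact ⟨h3, h4⟩
    · rw [e] at h3
      rw [show ε (i' + l) = 0 by omega] at h4
      exact ⟨h4, h3⟩
  have f0 := (hA 0).image Fin.init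
  have f1 := (hA 1).image Fin.init
  calc _ ≤ _ := add_le_add (Set.ncard_le_ncard h1 (f0.union f1))
        (Set.ncard_le_ncard h2 (f0.inter_of_left _))
    _ = _ := Set.ncard_union_add_ncard_inter _ _ f0 f1
    _ ≤ (A 0).ncard + (A 1).ncard :=
        add_le_add (Set.ncard_image_le (hA 0)) (Set.ncard_image_le (hA 1))
    _ = (A 0 ∪ A 1).ncard := (Set.ncard_union_eq (Set.disjoint_left.2 fun w a b =>
        zero_ne_one (a.2.symm.trans b.2)) (hA 0) (hA 1)).symm
    _ ≤ _ := Set.ncard_le_ncard (Set.union_subset Set.inter_subset_left Set.inter_subset_left)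
        (spec_fin h _)

theorem spec_sum (h : ∀ i, ε i ≤ 1) (m c k : ℕ) (hc : ∀ t < k, c ≤ (specR ε (m + t)).ncard) :
    cx ε m + k * c ≤ cx ε (m + k) := by
  induction k with
  | zero => simp
  | succ k ih =>
    have h1 := spec_succ h (m + k)
    have h2 := ih fun t ht => hc t (by omega)
    have h3 := hc k (by omega)
    rw [← add_assoc, add_mul]
    omega

theorem spec_step {l x y : ℕ} (h : ∀ j < l, ε (x + j) = ε (y + j)) (h' : ε (x + l) = ε (y + l)) :
    ∀ j < l, ε (x + 1 + j) = ε (y + 1 + j) := fun j hj => by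
  rw [add_assoc, add_assoc]
  rcases Nat.lt_or_eq_of_le (show 1 + j ≤ l by omega) with e | e
  · exact h _ e
  · rw [e, h']

theorem t_SPEC : S_SPEC := by
  intro ε C n h hA hn hC
  obtain ⟨t, ht, hR⟩ : ∃ t < n / 2, (specR ε ((n + 1) / 2 + t)).ncard ≤ 3 * C := by
    by_contra hc
    push Not at hc
    have h1 := spec_sum h ((n + 1) / 2) (3 * C + 1) (n / 2) hc
    rw [show (n + 1) / 2 + n / 2 = n by omega] at h1
    have h2 : C * n ≤ C * (3 * (n / 2)) := Nat.mul_le_mul_left _ (by omega)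
    have h3 : 1 ≤ n / 2 := by omega
    nlinarith
  obtain ⟨l, hl⟩ : ∃ l, l = (n + 1) / 2 + t := ⟨_, rfl⟩
  rw [← hl] at hR
  refine ⟨l, (spec_finR h l).toFinset, by omega, by omega,
    by rwa [← Set.ncard_eq_toFinset_card _ (spec_finR h l)], fun i i' h1 h2 =>
    (Set.Finite.mem_toFinset _).2 ⟨i, i', h1, h2, rfl⟩, fun i => ?_⟩
  by_contra hc
  simp only [not_exists, not_and, Set.Finite.mem_toFinset] at hc
  have h1 := spec_sum h l 0 (n - l) fun _ _ => Nat.zero_le _
  rw [show l + (n - l) = n by omega] at h1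
  have key : ∀ t1 t2, t1 < t2 → t2 ≤ C * n →
      (fun j : Fin l => ε (i + t1 + j)) ≠ fun j : Fin l => ε (i + t2 + j) := by
    intro t1 t2 h12 h2 e
    have e0 : ∀ j < l, ε (i + t1 + j) = ε (i + t2 + j) := fun j hj => congrFun e ⟨j, hj⟩
    have ns : ∀ t ≤ C * n, ∀ x, (∀ j < l, ε (i + t + j) = ε (x + j)) →
        ε (i + t + l) = ε (x + l) := fun t ht x hx => by
      by_contra h3
      exact hc t ht ⟨_, x, hx, h3, rfl⟩
    have P : ∀ s, ∃ t < t2, ∀ j < l, ε (i + t + j) = ε (i + t1 + s + j) := fun s => by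
      induction s with
      | zero => exact ⟨t1, h12, fun _ _ => rfl⟩
      | succ s ih =>
        obtain ⟨t, ht, h3⟩ := ih
        have h4 := spec_step h3 (ns t (by omega) _ h3)
        rcases Nat.lt_or_eq_of_le (Nat.succ_le_of_lt ht) with e | e
        · exact ⟨t + 1, e, h4⟩
        · exact ⟨t1, h12, fun j hj => (e0 j hj).trans (e ▸ h4 j hj)⟩
    have ns' : ∀ s x, (∀ j < l, ε (i + t1 + s + j) = ε (x + j)) →
        ε (i + t1 + s + l) = ε (x + l) := fun s x hx => by
      obtain ⟨t, ht, h3⟩ := P s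
      exact (ns t (by omega) _ h3).symm.trans
        (ns t (by omega) _ fun j hj => (h3 j hj).trans (hx j hj))
    have Q : ∀ s, ∀ j < l, ε (i + t1 + s + j) = ε (i + t2 + s + j) := fun s => by
      induction s with
      | zero => exact e0
      | succ s ih => exact spec_step ih (ns' s _ ih)
    obtain ⟨j, hj, h3⟩ := hA (i + t1 + l) (t2 - t1) (by omega)
    have := ns' (j - (i + t1 + l)) _ (Q _)
    rw [show i + t1 + (j - (i + t1 + l)) + l = j by omega,
      show i + t2 + (j - (i + t1 + l)) + l = j + (t2 - t1) by omega] at this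
    exact h3 this.symm
  obtain ⟨t1, a1, t2, a2, a3, a4⟩ := Finset.exists_ne_map_eq_of_card_lt_of_maps_to
    (s := Finset.range (C * n + 1)) (t := (spec_fin h l).toFinset)
    (f := fun t (j : Fin l) => ε (i + t + j))
    (by
      rw [← Set.ncard_eq_toFinset_card _ (spec_fin h l), Finset.card_range]
      exact Nat.lt_succ_of_le (le_trans (le_trans (Nat.le_add_right _ _) h1) hC))
    fun t _ => by simpa using ⟨i + t, fun _ => rfl⟩
  rw [Finset.mem_range] at a1 a2
  rcases lt_or_gt_of_ne a3 with e | e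
  · exact key _ _ e (by omega) a4
  · exact key _ _ e (by omega) a4.symm

end Pool.Agent.P.MP_fc15d7_nt
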