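import Pool.Agent.P.MP_fc15d7_nt.Subspace
import Pool.Agent.P.MP_fc15d7_nt.TFLAG
import Pool.Agent.P.MP_fc15d7_nt.TGAIN
import Pool.Agent.P.MP_fc15d7_nt.TGROW
import Pool.Agent.P.MP_fc15d7_nt.TGL
import Pool.Agent.P.MP_fc15d7_nt.TSPEC
import Pool.Agent.P.MP_fc15d7_nt.TDEC
import Pool.Agent.P.MP_fc15d7_nt.TRUNS
import Pool.Agent.P.MP_fc15d7_nt.TKEY
import Pool.Agent.P.MP_fc15d7_nt.TCX
import Pool.Agent.P.MP_fc15d7_nt.TCH

/-! Assembly. -/

set_option autoImplicit false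

namespace Pool.Agent.P.MP_fc15d7_nt

theorem gl_final : S_GL := t_GL subspace (t_GAIN t_FLAG) t_GROW

theorem key_final : S_KEY := t_KEY gl_final

theorem cx_final : S_CX := t_CX (t_DEC t_SPEC) key_final

theorem ch_final : S_CH := t_CH t_RUNS key_final

end Pool.Agent.P.MP_fc15d7_nt
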