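import Pool.Agent.P.MP_fc15d7_nt.Iface

/-! The auxiliary polynomial. -/

set_option autoImplicit false

open Matrix MvPolynomial

namespace Pool.Agent.P.MP_fc15d7_nt

theorem aux_siegel {α β : Type} [Fintype α] [Fintype β] (A : Matrix α β ℤ) {M : ℝ} (hM : 1 ≤ M)
    (hA : ∀ i j, |((A i j : ℤ) : ℝ)| ≤ M) (hc : 2 * Fintype.card α ≤ Fintype.card β)
    (hβ : 0 < Fintype.card β) :
    ∃ t : β → ℤ, t ≠ 0 ∧ A *ᵥ t = 0 ∧ ∀ j, |((t j : ℤ) : ℝ)| ≤ Fintype.card β * M := by
  classical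
  have h1 : (1 : ℝ) ≤ Fintype.card β := by exact_mod_cast hβ
  rcases Nat.eq_zero_or_pos (Fintype.card α) with h0 | h0
  · have := Fintype.card_eq_zero_iff.1 h0
    obtain ⟨j0⟩ := Fintype.card_pos_iff.1 hβ
    refine ⟨fun _ => 1, fun h => one_ne_zero (congrFun h j0), Subsingleton.elim _ _, fun j => ?_⟩
    simpa using one_le_mul_of_one_le_of_one_le h1 hM
  · let : SeminormedAddCommGroup (Matrix α β ℤ) := Matrix.seminormedAddCommGroup
    obtain ⟨t, ht, hAt, hn⟩ := Int.Matrix.exists_ne_zero_int_vec_norm_le A (by omega) h0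
    refine ⟨t, ht, hAt, fun j => ?_⟩
    have h2 : ‖A‖ ≤ M := (Matrix.norm_le_iff (by linarith)).2 fun i j => by
      rw [Int.norm_eq_abs]; exact hA i j
    have h3 : max 1 ‖A‖ ≤ M := max_le hM h2
    have h4 : (1 : ℝ) ≤ Fintype.card β * max 1 ‖A‖ :=
      one_le_mul_of_one_le_of_one_le h1 (le_max_left _ _)
    have h5 : (2 * Fintype.card α : ℝ) ≤ Fintype.card β := by exact_mod_cast hc
    have h6 : (0 : ℝ) < Fintype.card α := by exact_mod_cast h0
    have h7 : (Fintype.card α : ℝ) / (Fintype.card β - Fintype.card α) ≤ 1 :=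
      (div_le_one (by linarith)).2 (by linarith)
    calc |((t j : ℤ) : ℝ)| = ‖t j‖ := (Int.norm_eq_abs _).symm
      _ ≤ ‖t‖ := norm_le_pi_norm t j
      _ ≤ _ := hn
      _ ≤ (Fintype.card β * max 1 ‖A‖) ^ (1 : ℝ) := Real.rpow_le_rpow_of_exponent_le h4 h7
      _ ≤ _ := by rw [Real.rpow_one]; gcongr

theorem aux_card {ι : Type} [Fintype ι] [DecidableEq ι] (d : ℕ) :
    (Finset.piAntidiag (Finset.univ : Finset ι) d).card ≤ Fintype.card ι ^ d := by
  have h := Finset.sum_pow_eq_sum_piAntidiag (Finset.univ : Finset ι) (fun _ => (1 : ℕ)) d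
  simp only [Finset.sum_const, Finset.card_univ, smul_eq_mul, mul_one, one_pow,
    Finset.prod_const_one, Nat.cast_id] at h
  rw [h, Finset.card_eq_sum_ones]
  exact Finset.sum_le_sum fun k _ => Nat.multinomial_pos _ _

/-- the monomial of a multi-index -/
noncomputable def auxMon {m : ℕ} {ι : Type} [Fintype ι] (I : Fin m → ι → ℕ) : Fin m × ι →₀ ℕ :=
  Finsupp.equivFunOnFinite.symm fun s => I s.1 s.2

theorem aux_mon_apply {m : ℕ} {ι : Type} [Fintype ι] (I : Fin m → ι → ℕ) (s : Fin m × ι) :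
    auxMon I s = I s.1 s.2 := rfl

theorem aux_mon_inj {m : ℕ} {ι : Type} [Fintype ι] :
    Function.Injective (auxMon : (Fin m → ι → ℕ) → Fin m × ι →₀ ℕ) := fun I J h => by
  funext a b
  exact DFunLike.congr_fun h (a, b)

theorem aux_lin_le {m : ℕ} {ι : Type} [Fintype ι] {d : Fin m → ℕ}
    {P : MvPolynomial (Fin m × ι) ℤ} (hP : MH d P) (B : Matrix ι ι ℤ) {K : ℝ}
    (hK : ∀ i, ∑ j, |((B i j : ℤ) : ℝ)| ≤ K) :
    wn 1 (lin (fun _ => B) P) ≤ wn 1 P * K ^ ∑ h, d h := by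
  refine (wn_lin_le (fun _ => zero_le_one) _ _).trans (wn_le_mul P fun J hJ => ?_)
  rw [Finsupp.prod_fintype _ _ (by simp), ← hP.sum_eq hJ, ← Finset.prod_pow_eq_pow_sum]
  refine Finset.prod_le_prod (fun s _ => by positivity) fun s _ => ?_
  refine pow_le_pow_left₀ (by positivity) ?_ _
  simpa using hK s.2

theorem t_AUX (hCNT : S_CNT) : S_AUX := by
  intro ι κ _ _ _ _ B c η hη
  classical
  have hδ : (0 : ℝ) < 1 / (2 * (Fintype.card κ + 1)) := by positivity
  choose m0 hm0 using fun v => hCNT ι (c v) η _ hη hδ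
  obtain ⟨K0, hK1, hK0⟩ : ∃ K0 : ℝ, 1 ≤ K0 ∧ ∀ v i, ∑ j, |((B v i j : ℤ) : ℝ)| ≤ K0 := by
    refine ⟨1 + ∑ v, ∑ i, ∑ j, |((B v i j : ℤ) : ℝ)|, le_add_of_nonneg_right (by positivity),
      fun v i => ?_⟩
    have h1 := Finset.single_le_sum (f := fun i => ∑ j, |((B v i j : ℤ) : ℝ)|)
      (fun i _ => by positivity) (Finset.mem_univ i)
    have h2 := Finset.single_le_sum (f := fun v => ∑ i, ∑ j, |((B v i j : ℤ) : ℝ)|)
      (fun i _ => by positivity) (Finset.mem_univ v)
    linarith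
  have hD : (1 : ℝ) ≤ Fintype.card ι := by exact_mod_cast Fintype.card_pos
  refine ⟨Finset.univ.sup m0, Fintype.card ι * (Fintype.card ι * K0) * K0, ?_,
    fun m hm N d Z hZ hN hd => ?_⟩
  · exact one_le_mul_of_one_le_of_one_le (one_le_mul_of_one_le_of_one_le hD
      (one_le_mul_of_one_le_of_one_le hD hK1)) hK1
  obtain ⟨Mon, hMon⟩ : ∃ Mon : Finset (Fin m → ι → ℕ),
      Mon = Fintype.piFinset fun h => Finset.piAntidiag Finset.univ (d h) := ⟨_, rfl⟩
  have hmem : ∀ I, I ∈ Mon ↔ ∀ h, ∑ i, I h i = d h := fun I => by simp [hMon]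
  obtain ⟨T, hT⟩ : ∃ T : κ → Finset (Fin m → ι → ℕ), T = fun v => Mon.filter fun J =>
      (∑ i, c v i) / Fintype.card ι * ∑ h, N h * d h + η * m * Z <
        ∑ h, ∑ i, N h * c v i * J h i := ⟨_, rfl⟩
  have hTc : ∀ v, ((T v).card : ℝ) ≤ 1 / (2 * (Fintype.card κ + 1)) * Mon.card := fun v => by
    rw [hMon]
    refine hm0 v m ((Finset.le_sup (Finset.mem_univ v)).trans hm) N d Z hZ hN hd (T v) ?_ ?_
    · rw [hT, ← hMon]; exact Finset.filter_subset _ _
    · intro J hJ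
      rw [hT] at hJ
      exact (Finset.mem_filter.1 hJ).2
  have hcard : (Mon.card : ℝ) ≤ (Fintype.card ι : ℝ) ^ ∑ h, d h := by
    rw [hMon, Fintype.card_piFinset, ← Finset.prod_pow_eq_pow_sum]
    exact_mod_cast Finset.prod_le_prod' fun h _ => aux_card (d h)
  have hMH : ∀ (I : Mon) (a : ℤ), MH d (monomial (auxMon I.1) a) := fun I a J hJ h => by
    rw [Finset.mem_singleton.1 (support_monomial_subset hJ)]
    exact (hmem _).1 I.2 h
  have hw : ∀ (I : Fin m → ι → ℕ) (a : ℤ), wn 1 (monomial (auxMon I) a) = |(a : ℝ)| :=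
    fun I a => by rw [wn_monomial]; simp [Finsupp.prod]
  have hKS : 1 ≤ K0 ^ ∑ h, d h := one_le_pow₀ hK1
  obtain ⟨t, ht, hAt, htn⟩ := aux_siegel (α := Σ v, T v) (β := Mon)
    (Matrix.of fun e I => (lin (fun _ => B e.1) (monomial (auxMon I.1) 1)).coeff (auxMon e.2.1))
    hKS (fun e I => by
      have h1 := coeff_le_wn (β := 1) (fun _ => zero_le_one)
        (lin (fun _ => B e.1) (monomial (auxMon I.1) 1)) (auxMon e.2.1)
      have h2 := aux_lin_le (hMH I 1) (B e.1) (hK0 e.1)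
      rw [hw] at h2
      simp only [Pi.one_apply, one_pow, Finsupp.prod, Finset.prod_const_one, mul_one] at h1
      simpa using h1.trans h2)
    (by
      rw [Fintype.card_sigma]
      simp only [Fintype.card_coe]
      have h1 : ∑ v, ((T v).card : ℝ) ≤
          Fintype.card κ * (1 / (2 * (Fintype.card κ + 1)) * Mon.card) := by
        simpa using Finset.sum_le_card_nsmul _ _ _ fun v (_ : v ∈ Finset.univ) => hTc v
      have h2 : (Fintype.card κ : ℝ) * (1 / (2 * (Fintype.card κ + 1)) * Mon.card) ≤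
          (Fintype.card κ + 1) * (1 / (2 * (Fintype.card κ + 1)) * Mon.card) := by
        gcongr; linarith
      have h3 : ((Fintype.card κ : ℝ) + 1) * (1 / (2 * (Fintype.card κ + 1)) * Mon.card) =
          Mon.card / 2 := by field_simp
      have h4 : 2 * ∑ v, ((T v).card : ℝ) ≤ Mon.card := by linarith
      exact_mod_cast h4)
    (by
      obtain ⟨i0⟩ := ‹Nonempty ι›
      exact Fintype.card_pos_iff.2 ⟨⟨fun h => Pi.single i0 (d h), (hmem _).2 fun h => by simp⟩⟩)
  rw [Fintype.card_coe] at htn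
  have hP : MH d (∑ I : Mon, monomial (auxMon I.1) (t I)) := fun J hJ => by
    obtain ⟨I, -, hI⟩ := Finset.mem_biUnion.1 (support_sum hJ)
    exact hMH I _ J hI
  have hPw : wn 1 (∑ I : Mon, monomial (auxMon I.1) (t I)) ≤
      (Fintype.card ι * (Fintype.card ι * K0)) ^ ∑ h, d h := by
    refine (wn_sum_le (fun _ => zero_le_one) _ _).trans ?_
    refine (Finset.sum_le_card_nsmul _ _ _ fun I _ => (hw _ _).trans_le (htn I)).trans ?_
    rw [Finset.card_univ, Fintype.card_coe, nsmul_eq_mul, mul_pow, mul_pow]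
    gcongr
  refine ⟨∑ I : Mon, monomial (auxMon I.1) (t I), fun h0 => ht (funext fun I => ?_), hP, ?_,
    fun v => ⟨?_, fun J hJ => ?_⟩⟩
  · have h1 := congrArg (coeff (auxMon I.1)) h0
    rw [coeff_sum, Finset.sum_eq_single I (fun I' _ hI' => by
      rw [coeff_monomial, if_neg fun h => hI' (Subtype.ext (aux_mon_inj h))]) (by simp)] at h1
    simpa using h1
  · rw [mul_pow]
    exact hPw.trans (le_mul_of_one_le_right (by positivity) hKS)
  · rw [mul_pow]
    exact (aux_lin_le hP (B v) (hK0 v)).trans (by gcongr)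
  · by_contra hlt
    have hJM : (fun h i => J (h, i)) ∈ T v := by
      rw [hT]
      exact Finset.mem_filter.2 ⟨(hmem _).2 (hP.lin _ J hJ), not_le.1 hlt⟩
    have h1 := congrFun hAt ⟨v, ⟨_, hJM⟩⟩
    have h2 : auxMon (fun h i => J (h, i)) = J := Finsupp.ext fun s => rfl
    simp only [Matrix.mulVec, dotProduct, Matrix.of_apply, h2, Pi.zero_apply] at h1
    refine mem_support_iff.1 hJ ?_
    rw [map_sum, coeff_sum, ← h1]
    refine Finset.sum_congr rfl fun I _ => ?_
    rw [show monomial (auxMon I.1) (t I) = C (t I) * monomial (auxMon I.1) 1 by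
      rw [C_mul_monomial, mul_one], map_mul, algHom_C, algebraMap_eq, coeff_C_mul, mul_comm]

end Pool.Agent.P.MP_fc15d7_nt
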