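import Pool.Agent.P.MP_fc15d7_nt.Iface

/-! The second moment bound for the number of exceptional multi-indices. -/

set_option autoImplicit false

namespace Pool.Agent.P.MP_fc15d7_nt

open Finset

theorem cnt_sym {ι : Type} [Fintype ι] [DecidableEq ι] (d : ℕ) (i j : ι) :
    ∑ J ∈ piAntidiag (univ : Finset ι) d, (J i : ℝ) = ∑ J ∈ piAntidiag univ d, (J j : ℝ) := by
  refine sum_nbij' (fun J => J ∘ Equiv.swap i j) (fun J => J ∘ Equiv.swap i j) ?_ ?_ ?_ ?_ ?_
  · intro J hJ
    simp only [mem_piAntidiag, mem_univ, implies_true, and_true] at hJ ⊢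
    rw [← hJ]; exact Equiv.sum_comp _ J
  · intro J hJ
    simp only [mem_piAntidiag, mem_univ, implies_true, and_true] at hJ ⊢
    rw [← hJ]; exact Equiv.sum_comp _ J
  · intro J _; ext k; simp
  · intro J _; ext k; simp
  · intro J _; simp

theorem cnt_mean {ι : Type} [Fintype ι] [DecidableEq ι] (c : ι → ℝ) (d : ℕ) :
    ∑ J ∈ piAntidiag (univ : Finset ι) d,
      (∑ i, c i * J i - (∑ i, c i) / Fintype.card ι * d) = 0 := by
  rcases isEmpty_or_nonempty ι with h | ⟨⟨i₀⟩⟩
  · simp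
  have h0 : (Fintype.card ι : ℝ) ≠ 0 := by
    have : 0 < Fintype.card ι := Fintype.card_pos_iff.2 ⟨i₀⟩
    positivity
  have h1 : ∑ J ∈ piAntidiag (univ : Finset ι) d, (d : ℝ) =
      Fintype.card ι * ∑ J ∈ piAntidiag univ d, (J i₀ : ℝ) := by
    rw [← nsmul_eq_mul, ← card_univ, ← sum_const, sum_congr rfl fun i _ => cnt_sym d i₀ i, sum_comm]
    refine sum_congr rfl fun J hJ => ?_
    rw [← (mem_piAntidiag.1 hJ).1, Nat.cast_sum]
  rw [sum_sub_distrib, ← mul_sum, h1, sum_comm]
  simp only [← mul_sum, fun i => cnt_sym d i i₀, ← sum_mul]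
  field_simp
  ring

theorem cnt_var {α : Type} [DecidableEq α] {m : ℕ} (S : Fin m → Finset α) (ξ : Fin m → α → ℝ)
    (B : ℝ) (h0 : ∀ h, ∑ a ∈ S h, ξ h a = 0) (hB : ∀ h, ∀ a ∈ S h, ξ h a ^ 2 ≤ B) :
    ∑ J ∈ Fintype.piFinset S, (∑ h, ξ h (J h)) ^ 2 ≤ m * B * (Fintype.piFinset S).card := by
  simp only [sq, sum_mul_sum]
  rw [sum_comm]
  refine (sum_le_card_nsmul _ _ (B * (Fintype.piFinset S).card) fun h _ => ?_).trans (by
    simp [mul_assoc])
  rw [sum_comm, sum_eq_single h _ (by simp)]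
  · refine (sum_le_card_nsmul _ _ B fun J hJ => ?_).trans (by simp [mul_comm])
    rw [← sq]; exact hB h _ (Fintype.mem_piFinset.1 hJ h)
  intro k _ hk
  have e : ∀ J : Fin m → α, ξ h (J h) * ξ k (J k) =
      ∏ i, ((if i = h then ξ i (J i) else 1) * if i = k then ξ i (J i) else 1) := fun J => by
    rw [prod_mul_distrib]
    simp
  simp only [e]
  rw [← prod_univ_sum S fun i a => (if i = h then ξ i a else 1) * if i = k then ξ i a else 1]
  exact prod_eq_zero (mem_univ k) (by simpa [hk] using h0 k)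

theorem t_CNT : S_CNT := by
  intro ι _ _ c η δ hη hδ
  set C := ∑ i, |c i| with hC
  have C0 : 0 ≤ C := sum_nonneg fun _ _ => abs_nonneg _
  refine ⟨⌈4 * C ^ 2 / (δ * η ^ 2)⌉₊ + 1, fun m hm N d Z hZ hN hd T hT hJ => ?_⟩
  have m1 : 4 * C ^ 2 ≤ m * (δ * η ^ 2) := by
    rw [← div_le_iff₀ (by positivity)]
    exact (Nat.ceil_le.1 (by omega))
  have m0 : (0 : ℝ) < m := by exact_mod_cast (by omega : 0 < m)
  set μ := (∑ i, c i) / Fintype.card ι with hμ
  have hμ' : |μ| ≤ C := by
    rcases isEmpty_or_nonempty ι with h | h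
    · simpa [hμ] using C0
    rw [hμ, abs_div, Nat.abs_cast]
    exact (div_le_self (abs_nonneg _) (Nat.one_le_cast.2 Fintype.card_pos)).trans
      (abs_sum_le_sum_abs _ _)
  have v := cnt_var (fun h => piAntidiag (univ : Finset ι) (d h))
    (fun h J => N h * (∑ i, c i * J i - μ * d h)) ((2 * C * Z) ^ 2)
    (fun h => by rw [← mul_sum, cnt_mean, mul_zero]) fun h J hJ => by
      refine sq_le_sq' (neg_le_of_abs_le ?_) (le_of_abs_le ?_)
      all_goals
        have a1 : |∑ i, c i * J i| ≤ C * d h := by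
          rw [hC, sum_mul]
          refine (abs_sum_le_sum_abs _ _).trans (sum_le_sum fun i _ => ?_)
          rw [abs_mul, Nat.abs_cast, ← (mem_piAntidiag.1 hJ).1]
          exact mul_le_mul_of_nonneg_left (by
            exact_mod_cast single_le_sum (f := J) (fun _ _ => Nat.zero_le _) (mem_univ i))
            (abs_nonneg _)
        have a2 : |μ * d h| ≤ C * d h := by
          rw [abs_mul, Nat.abs_cast]; exact mul_le_mul_of_nonneg_right hμ' (Nat.cast_nonneg _)
        have a3 := abs_sub (∑ i, c i * J i) (μ * d h)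
        rw [abs_mul, abs_of_nonneg (hN h)]
        nlinarith [mul_le_mul_of_nonneg_left (hd h) C0, hN h,
          mul_le_mul_of_nonneg_left (a3.trans (add_le_add a1 a2)) (hN h)]
  have w : T.card • (η * m * Z) ^ 2 ≤ _ := le_trans (card_nsmul_le_sum T _ _ fun J hJ' => ?_)
    ((sum_le_sum_of_subset_of_nonneg hT fun _ _ _ => sq_nonneg _).trans v)
  · rw [nsmul_eq_mul] at w
    refine le_of_mul_le_mul_right (w.trans ?_) (by positivity : 0 < (η * m * Z) ^ 2)
    have := mul_le_mul_of_nonneg_left m1 (by positivity : 0 ≤ m * Z ^ 2 *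
      ((Fintype.piFinset fun h => piAntidiag (univ : Finset ι) (d h)).card : ℝ))
    linarith
  · refine pow_le_pow_left₀ (by positivity) ?_ 2
    have := hJ J hJ'
    simp only [mul_sub, sum_sub_distrib, mul_sum, ← mul_assoc] at this ⊢
    simp only [mul_comm (N _) μ]
    linarith

end Pool.Agent.P.MP_fc15d7_nt
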