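import Pool.Agent.P.MP_fc15d7_nt.Iface

/-! The height of the hyperplanes spanned by points of the boxes. -/

set_option autoImplicit false

open Matrix Filter

namespace Pool.Agent.P.MP_fc15d7_nt

variable {ι : Type} [Fintype ι] [DecidableEq ι]

theorem ht_perm {M : Type} [CommMonoidWithZero M] (φ : ℤ → M) (h0 : φ 0 = 0) (h1 : φ 1 = 1)
    (A : Matrix ι ι ℤ) (i j0 : ι) (σ : Equiv.Perm ι) :
    ∏ j, φ (A.updateRow i (Pi.single j0 1) (σ j) j) = 0 ∨ ((∀ i', i' ≠ i → σ.symm i' ≠ j0) ∧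
      ∏ j, φ (A.updateRow i (Pi.single j0 1) (σ j) j) =
        ∏ i' ∈ Finset.univ.erase i, φ (A i' (σ.symm i'))) := by
  by_cases h : σ.symm i = j0
  · refine Or.inr ⟨fun i' hi e => hi (σ.symm.injective (e.trans h.symm)), ?_⟩
    rw [← Equiv.prod_comp σ.symm, ← Finset.mul_prod_erase _ _ (Finset.mem_univ i)]
    simp only [Equiv.apply_symm_apply]
    rw [updateRow_self, h, Pi.single_eq_same, h1, one_mul]
    exact Finset.prod_congr rfl fun i' hi => by rw [updateRow_ne (Finset.ne_of_mem_erase hi)]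
  · refine Or.inl (Finset.prod_eq_zero (Finset.mem_univ (σ.symm i)) ?_)
    rw [Equiv.apply_symm_apply, updateRow_self, Pi.single_eq_of_ne h, h0]

theorem ht_abs (A : Matrix ι ι ℤ) (i j0 : ι) (c : ι → ℝ) (N : ℝ)
    (h : ∀ j, j ≠ j0 → ∀ i', |((A i' j : ℤ) : ℝ)| ≤ Real.exp (c i' * N)) :
    |((A.adjugate j0 i : ℤ) : ℝ)| ≤
      (Fintype.card ι).factorial * Real.exp ((∑ i', c i' - c i) * N) := by
  rw [adjugate_apply]
  refine abs_det_le_int _ fun σ => ?_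
  rcases ht_perm (fun a => |(a : ℝ)|) (by simp) (by simp) A i j0 σ with e | ⟨h1, e⟩
  · rw [e]; positivity
  · rw [e, ← Finset.sum_erase_eq_sub (Finset.mem_univ i), Finset.sum_mul, Real.exp_sum]
    exact Finset.prod_le_prod (fun _ _ => abs_nonneg _) fun i' hi =>
      h _ (h1 i' (Finset.ne_of_mem_erase hi)) i'

theorem ht_dvd {p : ℕ} (hp : 2 ≤ p) (A : Matrix ι ι ℤ) (i j0 : ι) (k : ι → ℝ) (N : ℝ)
    (h : ∀ j, j ≠ j0 → ∀ i', (p : ℤ) ^ ex p (k i') N ∣ A i' j) :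
    (p : ℤ) ^ ex p (∑ i', k i' - k i) N ∣ A.adjugate j0 i := by
  rw [adjugate_apply]
  refine dvd_det _ fun σ => ?_
  rcases ht_perm id rfl rfl A i j0 σ with e | ⟨h1, e⟩
  · exact e ▸ dvd_zero _
  · refine e ▸ ?_
    rw [← Finset.sum_erase_eq_sub (Finset.mem_univ i)]
    refine (pow_dvd_pow _ (ex_sum_le hp _ k N)).trans ?_
    rw [← Finset.prod_pow_eq_pow_sum]
    exact Finset.prod_dvd_prod_of_dvd _ _ fun i' hi => h _ (h1 i' (Finset.ne_of_mem_erase hi)) i'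

theorem ht_orth (Y : Matrix ι ι ℤ) (j0 j : ι) :
    ∑ i, Y.adjugate j0 i * Y i j = if j0 = j then Y.det else 0 := by
  have := congrFun (congrFun (adjugate_mul Y) j0) j
  simpa [mul_apply, one_apply] using this

theorem ht_ne {Y : Matrix ι ι ℤ} (h : Y.det ≠ 0) (j0 : ι) : ∃ i, Y.adjugate j0 i ≠ 0 := by
  by_contra h1
  push Not at h1
  have := ht_orth Y j0 j0
  simp [h1, h.symm] at this

theorem ht_adj (M Y : Matrix ι ι ℤ) (j0 : ι) :
    Y.adjugate j0 ᵥ* M.adjugate = (M * Y).adjugate j0 := by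
  rw [adjugate_mul_distrib]; rfl

theorem ht_dot (M : Matrix ι ι ℤ) (w x : ι → ℤ) :
    M.det * ∑ i, w i * x i = ∑ i, (w ᵥ* M.adjugate) i * (M *ᵥ x) i := by
  change M.det * (w ⬝ᵥ x) = (w ᵥ* M.adjugate) ⬝ᵥ (M *ᵥ x)
  rw [dotProduct_mulVec, vecMul_vecMul, adjugate_mul, vecMul_smul, vecMul_one, smul_dotProduct,
    smul_eq_mul]

theorem ht_le_mul {a b : ℤ} (hb : b ≠ 0) : |(a : ℝ)| ≤ |((b * a : ℤ) : ℝ)| := by
  rw [Int.cast_mul, abs_mul]
  exact le_mul_of_one_le_left (abs_nonneg _) (by exact_mod_cast Int.one_le_abs hb)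

omit [DecidableEq ι] in
theorem ht_scale (w : ι → ℤ) (i1 : ι) (h : w i1 ≠ 0) (hmax : ∀ i, |w i| ≤ |w i1|) {R : ℝ}
    (hR : ∀ i, (((w i : ℚ) / w i1).den : ℝ) ≤ R) :
    ∃ (Δ : ℤ) (w' : ι → ℤ), 0 < Δ ∧ (Δ : ℝ) ≤ R ^ Fintype.card ι ∧ (∀ i, |w' i| ≤ Δ) ∧
      Δ • w = w i1 • w' := by
  have h1 : ∀ i, ∃ z : ℤ, ((∏ i, (((w i : ℚ) / w i1).den : ℤ) : ℤ) : ℚ) * (w i / w i1) = z := by
    intro i
    obtain ⟨e, he⟩ := Finset.dvd_prod_of_mem (fun i => (((w i : ℚ) / w i1).den : ℤ))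
      (Finset.mem_univ i)
    refine ⟨e * ((w i : ℚ) / w i1).num, ?_⟩
    rw [he, Int.cast_mul, Int.cast_mul, Int.cast_natCast, ← Rat.den_mul_eq_num]
    ring
  choose w' hw using h1
  have h2 : 0 < ∏ i, (((w i : ℚ) / w i1).den : ℤ) :=
    Finset.prod_pos fun i _ => by exact_mod_cast Rat.den_pos _
  have h3 : (w i1 : ℚ) ≠ 0 := by exact_mod_cast h
  have h4 : ∀ i, (∏ i, (((w i : ℚ) / w i1).den : ℤ)) * w i = w i1 * w' i := by
    intro i
    have a1 := hw i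
    generalize ∏ i, (((w i : ℚ) / w i1).den : ℤ) = Δ at a1
    have a2 : (Δ : ℚ) * w i = w i1 * w' i := by rw [← a1]; field_simp
    exact_mod_cast a2
  refine ⟨_, w', h2, ?_, fun i => ?_, funext h4⟩
  · push_cast
    rw [← Finset.card_univ, ← Finset.prod_const]
    exact Finset.prod_le_prod (fun i _ => Nat.cast_nonneg _) fun i _ => hR i
  · have a1 := congrArg abs (h4 i)
    rw [abs_mul, abs_mul, abs_of_pos h2] at a1
    refine le_of_mul_le_mul_left ?_ (abs_pos.2 h)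
    rw [← a1, mul_comm]
    exact mul_le_mul_of_nonneg_right (hmax i) h2.le

omit [DecidableEq ι] in
theorem ht_vec {w' : ι → ℤ} {Δ : ℤ} (h : ∀ i, |w' i| ≤ Δ) (B : Matrix ι ι ℤ) (i : ι) :
    |(((w' ᵥ* B) i : ℤ) : ℝ)| ≤ Δ * ∑ i', |((B i' i : ℤ) : ℝ)| := by
  rw [vecMul, dotProduct, Int.cast_sum, Finset.mul_sum]
  refine (Finset.abs_sum_le_sum_abs _ _).trans (Finset.sum_le_sum fun i' _ => ?_)
  rw [Int.cast_mul, abs_mul]
  exact mul_le_mul_of_nonneg_right (by exact_mod_cast h i') (abs_nonneg _)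

variable {κ : Type} [Fintype κ] {p : κ → ℕ} {L0 : Matrix ι ι ℤ} {L : κ → Matrix ι ι ℤ}
  {c : ι → ℝ} {k : κ → ι → ℝ}

theorem ht_A (hS : Sys p L0 L) {w x : ι → ℤ} {c0 N : ℝ} {k0 : κ → ℝ} (hN : 0 ≤ N)
    (h0 : ∀ i, (w ᵥ* L0.adjugate) i ≠ 0 → c i ≤ c0)
    (h1 : ∀ v i, (w ᵥ* (L v).adjugate) i ≠ 0 → k0 v ≤ k v i) (hx : InBox p L0 L c k N x)
    (hne : ∑ i, w i * x i ≠ 0) : Real.exp ((∑ v, k0 v - c0) * N) ≤
      |((∏ v, (L v).det : ℤ) : ℝ)| * ∑ i, |(((w ᵥ* L0.adjugate) i : ℤ) : ℝ)| := by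
  classical
  have a1 := exp_le_of_dvd hS.two_le hS.cop k0 (fun _ => N)
    (mul_ne_zero (Finset.prod_ne_zero_iff.2 fun v (_ : v ∈ Finset.univ) => hS.det v) hne)
    (fun v => by
      refine Dvd.dvd.trans ?_ (mul_dvd_mul_right
        (Finset.dvd_prod_of_mem (fun v => (L v).det) (Finset.mem_univ v)) _)
      rw [ht_dot]
      refine Finset.dvd_sum fun i _ => ?_
      by_cases hi : (w ᵥ* (L v).adjugate) i = 0
      · simp [hi]
      · exact ((pow_dvd_pow _ (ex_mono (hS.two_le v) hN (h1 v i hi))).trans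
          (hx.2 v i)).mul_left _)
  have a2 : |((∑ i, w i * x i : ℤ) : ℝ)| ≤
      (∑ i, |(((w ᵥ* L0.adjugate) i : ℤ) : ℝ)|) * Real.exp (c0 * N) := by
    refine (ht_le_mul hS.det0).trans ?_
    rw [ht_dot, Int.cast_sum, Finset.sum_mul]
    refine (Finset.abs_sum_le_sum_abs _ _).trans (Finset.sum_le_sum fun i _ => ?_)
    by_cases hi : (w ᵥ* L0.adjugate) i = 0
    · simp [hi]
    · rw [Int.cast_mul, abs_mul]
      exact mul_le_mul_of_nonneg_left ((hx.1 i).trans (Real.exp_le_exp.2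
        (mul_le_mul_of_nonneg_right (h0 i hi) hN))) (abs_nonneg _)
  rw [sub_mul, Real.exp_sub, div_le_iff₀ (Real.exp_pos _), Finset.sum_mul, mul_assoc]
  refine a1.trans ?_
  rw [Int.cast_mul, abs_mul]
  exact mul_le_mul_of_nonneg_left a2 (abs_nonneg _)

theorem ht_B (hS : Sys p L0 L) {Y : Matrix ι ι ℤ} {j0 i0 i1 : ι} {iv : κ → ι} {N R : ℝ}
    (hY : ∀ j, j ≠ j0 → InBox p L0 L c k N fun i => Y i j)
    (h0 : (Y.adjugate j0 ᵥ* L0.adjugate) i0 ≠ 0)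
    (h1 : ∀ v, (Y.adjugate j0 ᵥ* (L v).adjugate) (iv v) ≠ 0) (h : Y.adjugate j0 i1 ≠ 0)
    (hmax : ∀ i, |Y.adjugate j0 i| ≤ |Y.adjugate j0 i1|)
    (hR : ∀ i, (((Y.adjugate j0 i : ℚ) / Y.adjugate j0 i1).den : ℝ) ≤ R) :
    Real.exp (∑ v, (∑ i, k v i - k v (iv v)) * N) ≤
      ((Fintype.card ι).factorial * ∏ v, ∑ i, |(((L v).adjugate i (iv v) : ℤ) : ℝ)|) *
        (R ^ Fintype.card ι) ^ (Fintype.card κ + 1) * Real.exp ((∑ i, c i - c i0) * N) := by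
  classical
  obtain ⟨Δ, w', b1, b2, b3, b4⟩ := ht_scale _ i1 h hmax hR
  have b5 : ∀ (B : Matrix ι ι ℤ) i,
      Δ * (Y.adjugate j0 ᵥ* B) i = Y.adjugate j0 i1 * (w' ᵥ* B) i := by
    intro B i
    have := congrFun (congrArg (· ᵥ* B) b4) i
    simpa only [smul_vecMul, Pi.smul_apply, smul_eq_mul] using this
  have b6 : ∀ (B : Matrix ι ι ℤ) i, (Y.adjugate j0 ᵥ* B) i ≠ 0 → (w' ᵥ* B) i ≠ 0 := fun B i hi =>
    right_ne_zero_of_mul (b5 B i ▸ mul_ne_zero b1.ne' hi)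
  have a1 := exp_le_of_dvd hS.two_le hS.cop (fun v => ∑ i, k v i - k v (iv v)) (fun _ => N)
    (mul_ne_zero h (Finset.prod_ne_zero_iff.2 fun v (_ : v ∈ Finset.univ) => b6 _ _ (h1 v)))
    (fun v => by
      refine Dvd.dvd.trans ?_ (mul_dvd_mul_left _ (Finset.dvd_prod_of_mem
        (fun v => (w' ᵥ* (L v).adjugate) (iv v)) (Finset.mem_univ v)))
      rw [← b5, ht_adj]
      exact (ht_dvd (hS.two_le v) _ _ _ _ _ fun j hj i => (hY j hj).2 v i).mul_left _)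
  have b0 : (0 : ℝ) < Δ := by exact_mod_cast b1
  have a2 : |((Y.adjugate j0 i1 : ℤ) : ℝ)| ≤
      Δ * ((Fintype.card ι).factorial * Real.exp ((∑ i, c i - c i0) * N)) := by
    refine (ht_le_mul (b6 _ _ h0)).trans ?_
    rw [mul_comm, ← b5, ht_adj, Int.cast_mul, abs_mul, abs_of_pos b0]
    exact mul_le_mul_of_nonneg_left (ht_abs _ _ _ _ _ fun j hj i => (hY j hj).1 i) b0.le
  have a3 : |((∏ v, (w' ᵥ* (L v).adjugate) (iv v) : ℤ) : ℝ)| ≤
      Δ ^ Fintype.card κ * ∏ v, ∑ i, |(((L v).adjugate i (iv v) : ℤ) : ℝ)| := by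
    rw [Int.cast_prod, Finset.abs_prod, ← Finset.card_univ, ← Finset.prod_const,
      ← Finset.prod_mul_distrib]
    exact Finset.prod_le_prod (fun _ _ => abs_nonneg _) fun v _ => ht_vec b3 _ _
  refine a1.trans ?_
  rw [Int.cast_mul, abs_mul]
  refine (mul_le_mul a2 a3 (abs_nonneg _) (by positivity)).trans ?_
  calc _ = ((Fintype.card ι).factorial * ∏ v, ∑ i, |(((L v).adjugate i (iv v) : ℤ) : ℝ)|) *
        (Δ : ℝ) ^ (Fintype.card κ + 1) * Real.exp ((∑ i, c i - c i0) * N) := by ring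
    _ ≤ _ := by gcongr

theorem t_HT : S_HT := by
  intro ι κ _ _ _ p L0 L c k U N Y j0 hS hγ hN hY
  classical
  have hN0 : ∀ᶠ n in U, 0 ≤ N n := hN.eventually_ge_atTop 0
  have key : ∀ (M : Matrix ι ι ℤ) (f : ι → ℝ), M.det ≠ 0 → ∃ i0, ∀ᶠ n in U,
      ((Y n).adjugate j0 ᵥ* M.adjugate) i0 ≠ 0 ∧
        ∀ i, ((Y n).adjugate j0 ᵥ* M.adjugate) i ≠ 0 → f i ≤ f i0 := by
    intro M f hM
    refine Ultrafilter.eventually_exists_iff.1 ?_
    filter_upwards [hY] with n hn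
    obtain ⟨i, hi⟩ := ht_ne (Y := M * Y n) (by rw [det_mul]; exact mul_ne_zero hM hn.1) j0
    obtain ⟨i0, a1, a2⟩ := (Finset.univ.filter fun i => (M * Y n).adjugate j0 i ≠ 0).exists_max_image
      f ⟨i, by simpa using hi⟩
    rw [ht_adj]
    exact ⟨i0, by simpa using a1, fun i hi => a2 i (by simpa using hi)⟩
  obtain ⟨i0, h0⟩ := key L0 c hS.det0
  choose iv h1 using fun v => key (L v) (fun i => -k v i) (hS.det v)
  have h1' := eventually_all.2 h1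
  rcases lt_or_ge (c i0) (∑ v, k v (iv v)) with hA | hB
  · obtain ⟨n0, a1, a2, a3⟩ := (hY.and (h0.and h1')).exists
    refine Or.inl ⟨(Y n0).adjugate j0, fun e => ?_, ?_⟩
    · obtain ⟨i, hi⟩ := ht_ne a1.1 j0
      exact hi (congrFun e i)
    filter_upwards [hY, hN0, ev_le_exp hN (|((∏ v, (L v).det : ℤ) : ℝ)| *
      ∑ i, |((((Y n0).adjugate j0 ᵥ* L0.adjugate) i : ℤ) : ℝ)| + 1) (sub_pos.2 hA)]
      with n b1 b2 b3 j hj
    by_contra hne
    have := ht_A hS b2 a2.2 (fun v i hi => neg_le_neg_iff.1 ((a3 v).2 i hi)) (b1.2 j hj) hne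
    linarith
  right
  by_contra hcon
  have hD : (0 : ℝ) < Fintype.card ι := by exact_mod_cast Fintype.card_pos_iff.2 ⟨j0⟩
  obtain ⟨γ, hγe⟩ : ∃ γ, γ = ∑ v, ∑ i, k v i - ∑ i, c i := ⟨_, rfl⟩
  have hγ0 : 0 < γ := hγe ▸ sub_pos.2 hγ
  obtain ⟨θ, hθ, hθe⟩ : ∃ θ : ℝ, 0 < θ ∧ (Fintype.card κ + 1) * (Fintype.card ι * θ) = γ / 2 :=
    ⟨γ / 2 / ((Fintype.card κ + 1) * Fintype.card ι), by positivity, by field_simp⟩
  have h2 : ∀ i1 i2, ∀ᶠ n in U, (Y n).adjugate j0 i1 ≠ 0 →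
      ((((Y n).adjugate j0 i2 : ℚ) / (Y n).adjugate j0 i1).den : ℝ) ≤ Real.exp (θ * N n) := by
    intro i1 i2
    by_cases e : i1 = i2
    · filter_upwards [hN0] with n hn hw
      rw [e] at hw ⊢
      rw [div_self (by exact_mod_cast hw)]
      simpa using mul_nonneg hθ.le hn
    · filter_upwards [Ultrafilter.eventually_not.2 fun h => hcon ⟨θ, i1, i2, hθ, e, h⟩]
        with n hn hw
      exact (Real.log_le_iff_le_exp (by exact_mod_cast Rat.den_pos _)).1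
        (not_le.1 fun h => hn ⟨hw, h⟩).le
  obtain ⟨n, b1, b2, b3, b4, b5, b6⟩ := (hY.and (hN0.and (h0.and (h1'.and
    ((eventually_all.2 fun i1 => eventually_all.2 (h2 i1)).and (ev_le_exp hN
      ((Fintype.card ι).factorial * ∏ v, ∑ i, |(((L v).adjugate i (iv v) : ℤ) : ℝ)| + 1)
      (half_pos hγ0))))))).exists
  obtain ⟨i1, -, hmax⟩ := Finset.univ.exists_max_image (fun i => |(Y n).adjugate j0 i|)
    ⟨j0, Finset.mem_univ _⟩
  have hw : (Y n).adjugate j0 i1 ≠ 0 := by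
    obtain ⟨i, hi⟩ := ht_ne b1.1 j0
    exact abs_pos.1 ((abs_pos.2 hi).trans_le (hmax i (Finset.mem_univ _)))
  have h3 := ht_B hS b1.2 b3.1 (fun v => (b4 v).1) hw (fun i => hmax i (Finset.mem_univ _))
    fun i => b5 i1 i hw
  rw [← Real.exp_nat_mul, ← Real.exp_nat_mul, mul_assoc, ← Real.exp_add] at h3
  refine absurd h3 (not_le.2 ((mul_lt_mul_of_pos_right ((lt_add_one _).trans_le b6)
    (Real.exp_pos _)).trans_le ?_))
  rw [← Real.exp_add, Real.exp_le_exp, ← Finset.sum_mul, Finset.sum_sub_distrib]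
  have h4 := mul_le_mul_of_nonneg_right hB b2
  have h5 := congrArg (· * N n) hθe
  have h6 := congrArg (· * N n) hγe
  push_cast
  linarith

end Pool.Agent.P.MP_fc15d7_nt
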