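import Pool.Agent.P.MP_fc15d7_nt.Iface

/-! The subspace theorem for hyperplanes spanned by points of the box. -/

set_option autoImplicit false

open Matrix Filter

namespace Pool.Agent.P.MP_fc15d7_nt

theorem hyp_seq {U : Ultrafilter ℕ} {N : ℕ → ℝ} (hN : Tendsto N U atTop) {q : ℕ → Prop}
    (hq : ∀ᶠ n in U, q n) (ρ W : ℕ) : ∃ n : ℕ → ℕ, (∀ h, q (n h) ∧ W ≤ ⌈N (n h)⌉₊) ∧
      ∀ h h', h < h' → ρ * ⌈N (n h)⌉₊ ≤ ⌈N (n h')⌉₊ := by
  have h1 : ∀ K : ℕ, ∃ n, q n ∧ K ≤ ⌈N n⌉₊ := fun K =>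
    (hq.and ((tendsto_nat_ceil_atTop.comp hN).eventually_ge_atTop K)).exists
  choose f f1 f2 using h1
  let s : ℕ → ℕ := fun h => Nat.rec (f W) (fun _ x => f (W + (ρ + 1) * ⌈N x⌉₊)) h
  have h2 : ∀ h, W + (ρ + 1) * ⌈N (s h)⌉₊ ≤ ⌈N (s (h + 1))⌉₊ := fun h => f2 _
  have h3 : Monotone fun h => ⌈N (s h)⌉₊ := monotone_nat_of_le_succ fun h => by
    have := h2 h
    nlinarith
  refine ⟨s, fun h => ?_, fun h h' hh => ?_⟩
  · cases h with
    | zero => exact ⟨f1 _, f2 _⟩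
    | succ h => exact ⟨f1 _, le_trans (Nat.le_add_right _ _) (h2 h)⟩
  · have := h2 h
    have := h3 (Nat.succ_le_of_lt hh)
    simp only [Nat.succ_eq_add_one] at this
    nlinarith

theorem hyp_M {ι κ : Type} [Fintype ι] [Fintype κ] {p : κ → ℕ} (hp : ∀ v, 2 ≤ p v) (a : ι → ℤ)
    (c : ι → ℝ) (k : κ → ι → ℝ) : ∃ b : ℝ, 0 < b ∧ ∀ N : ℝ, 1 ≤ N → ∀ i,
      |((a i * ∏ v, (p v : ℤ) ^ ∑ i, ex (p v) (k v i) N : ℤ) : ℝ)| ≤ Real.exp (c i * N + b * N) := by
  refine ⟨1 + ∑ v, ∑ i, (p v + |k v i|) + ∑ i, (|(a i : ℝ)| + |c i|), by positivity,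
    fun N hN i => ?_⟩
  have h0 : ∀ x : ℝ, 0 ≤ x → x ≤ Real.exp (x * N) := fun x hx =>
    le_trans (by nlinarith) (Real.add_one_le_exp _)
  have h1 : ∏ v, (p v : ℝ) ^ ∑ i, ex (p v) (k v i) N ≤
      Real.exp ((∑ v, ∑ i, (p v + |k v i|)) * N) := by
    rw [Finset.sum_mul, Real.exp_sum]
    refine Finset.prod_le_prod (fun v _ => by positivity) fun v _ => ?_
    rw [Finset.sum_mul, Real.exp_sum, ← Finset.prod_pow_eq_pow_sum]
    refine Finset.prod_le_prod (fun i _ => by positivity) fun i _ => ?_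
    refine (pow_le_pow_right₀ (by exact_mod_cast one_le_two.trans (hp v))
      (ex_mono (hp v) (by linarith) (le_abs_self _))).trans
      ((pow_ex_le (hp v) (by positivity)).trans ?_)
    rw [add_mul, Real.exp_add]
    gcongr
    exact h0 _ (Nat.cast_nonneg _)
  have h2 : |(a i : ℝ)| + |c i| ≤ ∑ i, (|(a i : ℝ)| + |c i|) :=
    Finset.single_le_sum (f := fun i => |(a i : ℝ)| + |c i|) (fun i _ => by positivity)
      (Finset.mem_univ i)
  push_cast
  rw [abs_mul, abs_of_nonneg (a := ∏ v, _) (by positivity)]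
  refine (mul_le_mul (h0 _ (abs_nonneg _)) h1 (by positivity) (Real.exp_pos _).le).trans ?_
  rw [← Real.exp_add, Real.exp_le_exp]
  nlinarith [neg_abs_le (c i)]

theorem hyp_pow {K lam : ℝ} {m W s Z : ℕ} (hK : 1 ≤ K) (hW : 0 < W) (h : m * Real.log K ≤ lam * W)
    (hs : W * s ≤ m * Z) : K ^ s ≤ Real.exp (lam * Z) := by
  have h1 : (W : ℝ) * s ≤ m * Z := by exact_mod_cast hs
  have h2 := Real.log_nonneg hK
  have h3 : (0 : ℝ) < W := by exact_mod_cast hW
  rw [← Real.exp_log (show 0 < K ^ s by positivity), Real.log_pow, Real.exp_le_exp]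
  refine le_of_mul_le_mul_left ?_ h3
  calc W * (s * Real.log K) = W * s * Real.log K := by ring
    _ ≤ m * Z * Real.log K := by gcongr
    _ = m * Real.log K * Z := by ring
    _ ≤ lam * W * Z := by gcongr
    _ = _ := by ring

theorem hyp_col {ι : Type} [Fintype ι] [DecidableEq ι] (L Y : Matrix ι ι ℤ) (j0 i1 : ι) (M : ℤ)
    (i j : ι) : (L * Y.updateCol j0 (Pi.single i1 M)) i j =
      if j = j0 then L i i1 * M else (L *ᵥ fun i => Y i j) i := by
  split_ifs with h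
  · simp [h, mul_apply, Pi.single_apply]
  · simp [mul_apply, updateCol_ne h, mulVec, dotProduct]

theorem t_HYP (hAUX : S_AUX) (hVAN : S_VAN) (hORDH : S_ORDH) (hKRON : S_KRON) (hROTH : S_ROTH)
    (hHT : S_HT) : S_HYP := by
  intro ι κ _ _ _ p L0 L c k U N Y j0 hS hck hN hY
  refine (hHT ι κ p L0 L c k U N Y j0 hS hck hN hY).resolve_right ?_
  rintro ⟨θ, i1, i2, hθ, hi, hw⟩
  have : Nonempty ι := ⟨j0⟩
  obtain ⟨γ, hγ⟩ : ∃ γ, γ = ∑ v, ∑ i, k v i - ∑ i, c i := ⟨_, rfl⟩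
  have γ0 : 0 < γ := by linarith
  have D0 : (0 : ℝ) < Fintype.card ι := by exact_mod_cast Fintype.card_pos
  set D : ℝ := (Fintype.card ι : ℝ) with hD
  obtain ⟨m0, K, K1, hA⟩ := hAUX ι (Option κ) (fun v => v.elim L0.adjugate fun v => (L v).adjugate)
    (fun v => v.elim c fun v i => -k v i) (γ / (16 * D * (Fintype.card κ + 1))) (by positivity)
  obtain ⟨b, b0, hb⟩ := hyp_M hS.two_le (fun i => L0 i i1) c k
  obtain ⟨lam, ρ, w0, lam0, hR⟩ := hROTH (m0 + 1) (γ / (8 * D * b)) (θ / 2) (by positivity)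
    (by positivity)
  set K2 := ((∏ v, |(((L v).det : ℤ) : ℝ)|) * D + 1) * K with hK2
  have hKK : K ≤ K2 := le_mul_of_one_le_left (by linarith) (le_add_of_nonneg_left (by positivity))
  obtain ⟨W1, hW1⟩ := exists_nat_ge ((m0 + 1 : ℕ) * Real.log K2 / min lam (γ / (16 * D)))
  have hW : (m0 + 1 : ℕ) * Real.log K2 ≤ min lam (γ / (16 * D)) * (W1 + w0 + 1 : ℕ) := by
    have h1 : 0 < min lam (γ / (16 * D)) := by positivity
    rw [div_le_iff₀' h1] at hW1
    refine hW1.trans ?_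
    gcongr
    omega
  obtain ⟨n, hn, hρ⟩ := hyp_seq hN (hY.and (hw.and (hN.eventually_ge_atTop 1))) ρ (W1 + w0 + 1)
  let wt : Fin (m0 + 1) → ℕ := fun h => ⌈N (n h)⌉₊
  obtain ⟨Z, hZ⟩ : ∃ Z, Z = ∑ h, wt h := ⟨_, rfl⟩
  have w1 : ∀ h, wt h ≤ Z := fun h =>
    hZ ▸ Finset.single_le_sum (f := wt) (fun _ _ => Nat.zero_le _) (Finset.mem_univ h)
  have w2 : ∀ h, W1 + w0 + 1 ≤ wt h := fun h => (hn h).2
  have w3 : ∀ h : Fin (m0 + 1), N (n h) ≤ wt h := fun h => Nat.le_ceil _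
  have N1 : ∀ h : Fin (m0 + 1), 1 ≤ N (n h) := fun h => (hn h).1.2.2
  have w4 : ∀ h : Fin (m0 + 1), wt h ≤ 2 * N (n h) := fun h => by
    have := Nat.ceil_lt_add_one (zero_le_one.trans (N1 h))
    linarith [N1 h]
  have Z1 : 1 ≤ Z := by have := w1 0; have := w2 0; omega
  have Z0 : (0 : ℝ) < Z := by exact_mod_cast Z1
  let d : Fin (m0 + 1) → ℕ := fun h => Z / wt h
  have d1 : ∀ h, wt h * d h ≤ Z := fun h => Nat.mul_div_le _ _
  have d2 : ∀ h : Fin (m0 + 1), N (n h) * d h ≤ Z := fun h =>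
    (mul_le_mul_of_nonneg_right (w3 h) (Nat.cast_nonneg _)).trans (by exact_mod_cast d1 h)
  have d3 : ∀ h : Fin (m0 + 1), (Z : ℝ) / 4 ≤ N (n h) * d h := fun h => by
    have h1 : 0 < wt h := by have := w2 h; omega
    have h2 : Z < wt h * (d h + 1) := Nat.lt_mul_div_succ _ h1
    have h3 : 1 ≤ d h := (Nat.le_div_iff_mul_le h1).2 (by simpa using w1 h)
    have h4 : Z ≤ 2 * (wt h * d h) := by nlinarith
    have h5 : (Z : ℝ) ≤ 2 * (wt h * d h) := by exact_mod_cast h4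
    nlinarith [mul_le_mul_of_nonneg_right (w4 h) (Nat.cast_nonneg (d h))]
  have d4 : K2 ^ ∑ h, d h ≤ Real.exp (min lam (γ / (16 * D)) * Z) :=
    hyp_pow (K1.trans hKK) (Nat.succ_pos _) hW (by
      rw [Finset.mul_sum]
      refine (Finset.sum_le_card_nsmul _ _ Z fun h _ =>
        (Nat.mul_le_mul_right _ (w2 h)).trans (d1 h)).trans_eq ?_
      simp)
  obtain ⟨P, P0, PH, P1, P2⟩ := hA (m0 + 1) (Nat.le_succ _) (fun h => N (n h)) d Z Z0
    (fun h => zero_le_one.trans (N1 h)) d2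
  obtain ⟨S, hS'⟩ : ∃ S, S = ∑ h : Fin (m0 + 1), N (n h) * d h := ⟨_, rfl⟩
  have S1 : (m0 + 1 : ℕ) * (Z / 4 : ℝ) ≤ S := by
    rw [hS']
    refine le_trans (le_of_eq ?_) (Finset.sum_le_sum fun h _ => d3 h)
    simp
  rw [← hS'] at P2
  obtain ⟨E, hE⟩ : ∃ E, E = γ / (16 * D * (Fintype.card κ + 1)) * (m0 + 1 : ℕ) * Z := ⟨_, rfl⟩
  rw [← hE] at P2
  let M : Fin (m0 + 1) → ℤ := fun h => ∏ v, (p v : ℤ) ^ ∑ i, ex (p v) (k v i) (N (n h))
  have hV := hVAN ι κ p L0 L c k hS (m0 + 1) (fun h => N (n h)) (fun h => b * N (n h)) d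
    (fun h => (Y (n h)).updateCol j0 (Pi.single i1 (M h))) j0 P _ _
    (fun v => (∑ i, k v i) / D * S - E) PH
    (fun h i j hj => by rw [hyp_col, if_neg hj]; exact ((hn h).1.1.2 j hj).1 i)
    (fun h i => by rw [hyp_col, if_pos rfl]; exact hb _ (N1 h) i)
    (fun v h i j => by
      rw [hyp_col]
      split_ifs with hj
      · exact ((pow_dvd_pow _ (Finset.single_le_sum (f := fun i => ex (p v) (k v i) (N (n h)))
          (fun _ _ => Nat.zero_le _) (Finset.mem_univ i))).trans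
          (Finset.dvd_prod_of_mem (fun v => (p v : ℤ) ^ ∑ i, ex (p v) (k v i) (N (n h)))
            (Finset.mem_univ v))).mul_left _
      · exact ((hn h).1.1.2 j hj).2 v i) (P2 none).1 (P2 none).2
    (fun v J hJ => by
      have := (P2 (some v)).2 J hJ
      simp only [Option.elim, mul_neg, neg_mul, Finset.sum_neg_distrib, neg_div] at this
      linarith)
  obtain ⟨F, F0, F1, F2, F3⟩ := hKRON ι (m0 + 1) _ i1 i2 wt d ⌈γ / (8 * D * b) * Z⌉₊ P hi
    (fun h => (hn h).1.2.1.1) P0 PH (hORDH ι _ (fun h => Y (n h)) M j0 i1 wt _ P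
      (fun h => (hn h).1.1.1) (fun h => Finset.prod_ne_zero_iff.2 fun v _ => pow_ne_zero _ (by
        have := hS.two_le v
        omega)) fun J hJ => by
      have h1 := (hV J hJ).trans (mul_le_mul_of_nonneg_right (le_trans (b := K2 ^ ∑ h, d h) (by
        rw [← mul_pow, hK2]
        gcongr
        linarith) d4) (Real.exp_pos _).le)
      rw [← Real.exp_add, Real.exp_le_exp] at h1
      simp only [Option.elim, Finset.sum_sub_distrib, ← Finset.sum_mul, ← Finset.sum_div,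
        Finset.sum_const, Finset.card_univ, nsmul_eq_mul] at h1
      have h2 : ∑ h : Fin (m0 + 1), b * N (n h) * J (h, j0) ≤ b * (∑ h, wt h * J (h, j0) : ℕ) := by
        push_cast
        rw [Finset.mul_sum]
        refine Finset.sum_le_sum fun h _ => ?_
        rw [mul_assoc]
        gcongr
        exact w3 h
      have h3 : (Fintype.card κ + 1) * E = γ / D * ((m0 + 1 : ℕ) * Z / 16) := by
        rw [hE]
        field_simp
      have h4 : min lam (γ / (16 * D)) * Z ≤ γ / D * (Z / 16) :=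
        (mul_le_mul_of_nonneg_right (min_le_right _ _) Z0.le).trans_eq (by ring)
      have h5 : (∑ v, ∑ i, k v i) / D * S - (∑ i, c i) / D * S = γ / D * S := by rw [hγ]; ring
      have h6 : γ / D * (Z / 8) ≤ γ / D * (S - (m0 + 1 : ℕ) * Z / 16 - Z / 16) := by
        refine mul_le_mul_of_nonneg_left ?_ (by positivity)
        push_cast at S1 ⊢
        nlinarith [mul_nonneg (Nat.cast_nonneg (α := ℝ) m0) Z0.le]
      rw [Nat.ceil_le, show γ / (8 * D * b) * Z = γ / D * (Z / 8) / b by field_simp,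
        div_le_iff₀' b0]
      linarith)
  refine hR _ wt Z _ F (fun h => by have := w2 h; omega) (fun h h' hh => hρ h h' hh)
    (fun h => ?_) w1 Z1 F0 (fun h => (Nat.mul_le_mul_left _ (F1 h)).trans (d1 h)) ?_
    (Nat.le_ceil _) F3
  · rw [Rat.neg_den]
    nlinarith [(hn h).1.2.1.2, w4 h]
  · refine (F2.trans P1).trans (le_trans (by gcongr) (d4.trans ?_))
    gcongr
    exact min_le_left _ _

end Pool.Agent.P.MP_fc15d7_nt
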