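import Pool.Agent.P.MP_fc15d7_nt.Iface

/-! Reduction to one variable in each block by a Kronecker substitution. -/

set_option autoImplicit false

open Polynomial
open Pool.Agent.P.MP_7aad9f_nt.Sub (Ord nrm sb)

namespace Pool.Agent.P.MP_fc15d7_nt

theorem kron_sep (σ : Type) [Fintype σ] (B : ℕ) : ∃ e : σ → ℕ, (∀ s, 0 < e s) ∧
    ∀ J J' : σ → ℕ, (∀ s, J s ≤ B) → (∀ s, J' s ≤ B) → ∑ s, J s * e s = ∑ s, J' s * e s →
      J = J' := by
  set n := Fintype.equivFin σ
  refine ⟨fun s => (B + 1) ^ (n s : ℕ), fun s => by positivity, fun J J' h h' e => ?_⟩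
  have key : ∀ (J : σ → ℕ) (h : ∀ s, J s ≤ B), ∑ s, J s * (B + 1) ^ (n s : ℕ) =
      finFunctionFinEquiv fun i => (⟨J (n.symm i), Nat.lt_succ_of_le (h _)⟩ : Fin (B + 1)) :=
    fun J h => by rw [finFunctionFinEquiv_apply, ← n.sum_comp]; simp
  rw [key J h, key J' h'] at e
  funext s
  simpa using congrFun (finFunctionFinEquiv.injective (Fin.ext e)) (n s)

theorem kron_dvd {μ : ℕ} {Φ : ℚ[X][X]} (h : ∀ x : ℚ, (X : ℚ[X]) ^ μ ∣ Φ.eval (C x)) (k : ℕ) :
    (X : ℚ[X]) ^ μ ∣ Φ.coeff k := by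
  refine X_pow_dvd_iff.2 fun j hj => ?_
  have : ∑ k ∈ Φ.support, monomial k ((Φ.coeff k).coeff j) = 0 := Polynomial.funext fun x => by
    rw [eval_zero, ← X_pow_dvd_iff.1 (h x) j hj, eval_eq_sum (p := Φ), sum_def, finsetSum_coeff,
      eval_finsetSum]
    simp only [eval_monomial, ← C_pow, coeff_mul_C]
  have h1 := congrArg (coeff · k) this
  simp only [finsetSum_coeff, coeff_monomial, Finset.sum_ite_eq', coeff_zero] at h1
  split_ifs at h1 with e
  · exact h1
  · rw [notMem_support_iff.1 e, coeff_zero]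

theorem kron_coeff {R σ : Type} [CommRing R] [Fintype σ] (P : MvPolynomial σ ℤ) (e : σ → ℕ)
    (u : σ → R[X]) (k : ℕ) (h : ∀ J ∈ P.support, k ≤ ∑ s, J s * e s) :
    (MvPolynomial.eval₂Hom (Int.castRingHom _) (fun s => X ^ e s * u s) P).coeff k =
      ∑ J ∈ P.support with ∑ s, J s * e s = k,
        ((P.coeff J : ℤ) : R) * ∏ s, (u s).coeff 0 ^ J s := by
  rw [MvPolynomial.coe_eval₂Hom, MvPolynomial.eval₂_eq', finsetSum_coeff, Finset.sum_filter]
  refine Finset.sum_congr rfl fun J hJ => ?_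
  simp only [mul_pow, ← pow_mul, Finset.prod_mul_distrib, Finset.prod_pow_eq_pow_sum,
    mul_comm (e _), eq_intCast, coeff_intCast_mul, coeff_X_pow_mul']
  by_cases e1 : ∑ s, J s * e s = k
  · rw [if_pos e1, if_pos e1.le, e1, Nat.sub_self, ← constantCoeff_apply, map_prod]
    simp only [map_pow, constantCoeff_apply]
  · rw [if_neg e1, if_neg fun e2 => e1 (le_antisymm e2 (h J hJ)), mul_zero]

theorem t_KRON : S_KRON := by
  intro ι _ _ m w i1 i2 wt d μ P h12 hw hP hd hO
  obtain ⟨e0, he0, hsep⟩ := kron_sep (Fin m × ι) (∑ h, d h)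
  set e : Fin m × ι → ℕ := fun s => if s.2 = i1 ∨ s.2 = i2 then 0 else e0 s with he
  obtain ⟨J0, hJ0, hmin⟩ := P.support.exists_min_image (fun J => ∑ s, J s * e s)
    (MvPolynomial.support_nonempty.2 hP)
  set π : (Fin m × ι →₀ ℕ) → (Fin m →₀ ℕ) :=
    fun J => Finsupp.equivFunOnFinite.symm fun h => J (h, i1) with hπ
  set S := P.support.filter fun J => ∑ s, J s * e s = ∑ s, J0 s * e s with hS
  have hle : ∀ J ∈ P.support, ∀ s : Fin m × ι, J s ≤ d s.1 := fun J hJ s => hd J hJ s.1 ▸
    Finset.single_le_sum (f := fun i => J (s.1, i)) (fun _ _ => Nat.zero_le _) (Finset.mem_univ _)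
  have hinj : ∀ J ∈ S, π J = π J0 → J = J0 := fun J hJ h => by
    obtain ⟨h1, h2⟩ := Finset.mem_filter.1 hJ
    have b : ∀ J ∈ P.support, ∀ s : Fin m × ι,
        (if s.2 = i1 ∨ s.2 = i2 then 0 else J s) ≤ ∑ h, d h := fun J hJ s => by
      split_ifs
      · exact Nat.zero_le _
      · exact (hle J hJ s).trans
          (Finset.single_le_sum (fun _ _ => Nat.zero_le _) (Finset.mem_univ _))
    have h3 := hsep _ _ (b J h1) (b J0 hJ0) (by simpa only [he, mul_ite, ite_mul, mul_zero,
      zero_mul] using h2)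
    have h4 : ∀ t i, i ≠ i2 → J (t, i) = J0 (t, i) := fun t i hi => by
      by_cases e1 : i = i1
      · simpa [hπ, e1] using DFunLike.congr_fun h t
      · simpa [e1, hi] using congrFun h3 (t, i)
    ext ⟨t, i⟩
    by_cases hi : i = i2
    · have h5 := (hd J h1 t).trans (hd J0 hJ0 t).symm
      rw [← Finset.add_sum_erase _ _ (Finset.mem_univ i2),
        ← Finset.add_sum_erase _ _ (Finset.mem_univ i2),
        Finset.sum_congr rfl fun i hi => h4 t i (Finset.ne_of_mem_erase hi)] at h5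
      exact hi ▸ Nat.add_right_cancel h5
    · exact h4 t i hi
  refine ⟨∑ J ∈ S, MvPolynomial.monomial (π J) (P.coeff J), fun h => ?_, fun t => ?_, ?_,
    fun b => ?_⟩
  · have := congrArg (MvPolynomial.coeff (π J0)) h
    rw [MvPolynomial.coeff_sum, Finset.sum_eq_single_of_mem (s := S) J0
      (Finset.mem_filter.2 ⟨hJ0, rfl⟩) fun J hJ hn => (MvPolynomial.coeff_monomial _ _ _).trans
        (if_neg fun h => hn (hinj J hJ h)), MvPolynomial.coeff_monomial, if_pos rfl] at this
    exact MvPolynomial.mem_support_iff.1 hJ0 this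
  · refine MvPolynomial.degreeOf_le_iff.2 fun K hK => ?_
    obtain ⟨J, h1, h2⟩ := Finset.mem_biUnion.1 (MvPolynomial.support_sum hK)
    rw [Finset.mem_singleton.1 (MvPolynomial.support_monomial_subset h2)]
    exact hle J (Finset.mem_filter.1 h1).1 (t, i1)
  · rw [nrm_eq_wn, wn_one_eq P]
    refine (wn_sum_le (fun _ => zero_le_one) _ _).trans ?_
    simp only [wn_monomial, one_pow, Finsupp.prod_fun_one, mul_one]
    exact Finset.sum_le_sum_of_subset_of_nonneg (Finset.filter_subset _ _) fun _ _ _ =>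
      abs_nonneg _
  · set u : Fin m × ι → ℚ[X][X] := fun s => if s.2 = i1 then C (C (b s.1) * X ^ wt s.1) -
      ∑ i ∈ Finset.univ.erase i1, C (C ((w s.1 i : ℚ) / w s.1 i1)) * X ^ e (s.1, i) else 1 with hu
    have h1 := kron_dvd (μ := μ) (Φ := MvPolynomial.eval₂Hom (Int.castRingHom _)
        (fun s => X ^ e s * u s) P) (fun x => by
      have := hO (fun t i => if i = i1 then
        -∑ i ∈ Finset.univ.erase i1, (w t i : ℚ) / w t i1 * x ^ e (t, i) else x ^ e (t, i)) b
        fun t => by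
          have h0 : (w t i1 : ℚ) ≠ 0 := by exact_mod_cast hw t
          rw [← Finset.add_sum_erase _ _ (Finset.mem_univ i1), if_pos rfl, mul_neg, Finset.mul_sum,
            neg_add_eq_zero]
          refine Finset.sum_congr rfl fun i hi => ?_
          rw [if_neg (Finset.ne_of_mem_erase hi)]
          field_simp
      rw [← coe_evalRingHom, MvPolynomial.map_eval₂Hom]
      refine this.trans (dvd_of_eq (MvPolynomial.eval₂Hom_congr (RingHom.ext_int _ _)
        (funext fun s => ?_) rfl))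
      by_cases hs : s.2 = i1
      · have e1 : e s = 0 := if_pos (Or.inl hs)
        simp only [hu, hs, e1, if_true, pow_zero, one_mul, coe_evalRingHom, eval_sub, eval_C,
          eval_finsetSum, eval_mul, eval_pow, eval_X, map_neg, map_sum, C_mul, C_pow,
          neg_add_eq_sub]
      · simp [hu, hs]) (∑ s, J0 s * e s)
    rw [kron_coeff P e u _ hmin] at h1
    rw [map_sum]
    refine h1.trans (dvd_of_eq (Finset.sum_congr rfl fun J _ => ?_))
    rw [sb, MvPolynomial.eval₂Hom_monomial, Finsupp.prod_fintype _ _ (by simp),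
      Fintype.prod_prod_type]
    refine congrArg₂ _ rfl (Finset.prod_congr rfl fun t _ => ?_)
    rw [Finset.prod_eq_single i1 (fun i _ hi => by simp [hu, hi]) (by simp)]
    refine congrArg₂ _ ?_ rfl
    simp only [hu, if_true, coeff_sub, coeff_C_zero, finsetSum_coeff, coeff_C_mul, coeff_X_pow]
    rw [Finset.sum_eq_single_of_mem i2 (by simp [h12.symm]) fun i hi h => by
      simp [he, Finset.ne_of_mem_erase hi, h, (he0 _).ne]]
    simp [he, neg_add_eq_sub]

end Pool.Agent.P.MP_fc15d7_nt
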