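import Pool.Agent.P.MP_fc15d7_nt.Iface

/-! A basis of the lattice cut out by finitely many congruences. -/

set_option autoImplicit false

open Matrix Filter Module

namespace Pool.Agent.P.MP_fc15d7_nt

theorem t_LAT : S_LAT := by
  classical
  intro D τ _ q r hq
  have : ∀ t, NeZero (q t) := fun t => ⟨(hq t).ne'⟩
  let f : (Fin D → ℤ) →+ ∀ t, ZMod (q t) :=
    { toFun := fun x t => ((∑ i, r t i * x i : ℤ) : ZMod (q t))
      map_zero' := by funext t; simp
      map_add' := fun x y => by funext t; simp [mul_add, Finset.sum_add_distrib] }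
  have hf : ∀ x, x ∈ f.ker ↔ ∀ t, (q t : ℤ) ∣ ∑ i, r t i * x i := fun x => by
    rw [AddMonoidHom.mem_ker, funext_iff]
    exact forall_congr' fun t => ZMod.intCast_zmod_eq_zero_iff_dvd _ _
  have h1 : f.ker.index ≤ ∏ t, q t := by
    rw [AddSubgroup.index_ker]
    refine (Nat.card_le_card_of_injective _ Subtype.val_injective).trans_eq ?_
    simp
  have h2 : finrank ℤ f.ker = D := by
    rw [AddSubgroup.finrank_eq_of_finiteIndex]; simp
  have : Module.Finite ℤ f.ker := inferInstanceAs (Module.Finite ℤ f.ker.toIntSubmodule)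
  have : Module.Free ℤ f.ker := inferInstanceAs (Module.Free ℤ f.ker.toIntSubmodule)
  let b := Module.finBasisOfFinrankEq ℤ f.ker h2
  have h3 := AddSubgroup.index_eq_natAbs_det (Pi.basisFun ℤ (Fin D)) f.ker b
  have h4 : (Pi.basisFun ℤ (Fin D)).det (fun j => (b j : Fin D → ℤ)) =
      (Matrix.of fun i j => (b j : Fin D → ℤ) i).det := by
    rw [Pi.basisFun_det_apply, ← Matrix.det_transpose]; rfl
  rw [h4] at h3
  refine ⟨Matrix.of fun i j => (b j : Fin D → ℤ) i, fun h0 => ?_, ?_, fun t j => (hf _).1 (b j).2 t,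
    fun x hx => ⟨b.repr ⟨x, (hf x).2 hx⟩, ?_⟩⟩
  · rw [h0] at h3
    exact AddSubgroup.FiniteIndex.index_ne_zero h3
  · rw [← Int.natCast_natAbs, ← h3]
    exact_mod_cast h1
  · have := congrArg Subtype.val (b.sum_repr ⟨x, (hf x).2 hx⟩)
    funext i
    have h5 := congrFun this i
    simp only [AddSubmonoidClass.coe_finsetSum, AddSubgroupClass.coe_zsmul, Finset.sum_apply,
      Pi.smul_apply, smul_eq_mul] at h5
    rw [← h5]
    simp only [Matrix.mulVec, dotProduct, Matrix.of_apply, mul_comm]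

end Pool.Agent.P.MP_fc15d7_nt
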