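import Pool.Agent.P.MP_fc15d7_nt.Iface

/-! From monomials to the order of vanishing along hyperplanes. -/

set_option autoImplicit false

open Matrix Filter Module

namespace Pool.Agent.P.MP_fc15d7_nt

theorem ordh_solve {ι : Type} [Fintype ι] [DecidableEq ι] (Y : Matrix ι ι ℤ) (hY : Y.det ≠ 0)
    (j0 : ι) (y : ι → ℚ) (h : ∑ i, (Y.adjugate j0 i : ℚ) * y i = 0) :
    ∃ z : ι → ℚ, z j0 = 0 ∧ ∀ i, ∑ j, (Y i j : ℚ) * z j = y i := by
  have hd : (Y.det : ℚ) ≠ 0 := by exact_mod_cast hY
  refine ⟨fun j => (∑ i, (Y.adjugate j i : ℚ) * y i) / Y.det, by simp only [h, zero_div],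
    fun i => ?_⟩
  have h1 : ∀ k, ∑ j, (Y i j : ℚ) * (Y.adjugate j k : ℚ) = if i = k then (Y.det : ℚ) else 0 := by
    intro k
    have := congrFun (congrFun (mul_adjugate Y) i) k
    rw [mul_apply, Matrix.smul_apply, one_apply] at this
    split_ifs at this ⊢
    · exact_mod_cast this.trans (mul_one _)
    · exact_mod_cast this.trans (mul_zero _)
  simp only [← mul_div_assoc, ← Finset.sum_div, Finset.mul_sum, ← mul_assoc]
  rw [Finset.sum_comm]
  simp only [← Finset.sum_mul, h1, ite_mul, zero_mul, Finset.sum_ite_eq, Finset.mem_univ, if_true]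
  field_simp

open Polynomial in
theorem t_ORDH : S_ORDH := by
  intro ι _ _ m Y M j0 i1 wt μ P hY hM hJ y b hy
  choose z hz0 hz using fun h => ordh_solve (Y h) (hY h) j0 (y h) (hy h)
  let ζ : Fin m × ι → ℚ[X] := fun s =>
    if s.2 = j0 then C (b s.1 / M s.1) * X ^ wt s.1 else C (z s.1 s.2)
  have e : MvPolynomial.aeval (R := ℤ) (fun s : Fin m × ι =>
      C (y s.1 s.2) + if s.2 = i1 then C (b s.1) * X ^ wt s.1 else 0) =
      (MvPolynomial.aeval ζ).comp (lin fun h => (Y h).updateCol j0 (Pi.single i1 (M h))) := by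
    refine MvPolynomial.algHom_ext fun s => ?_
    have hm : (M s.1 : ℚ) ≠ 0 := by exact_mod_cast hM s.1
    simp only [AlgHom.comp_apply, lin_X, map_sum, map_mul, MvPolynomial.aeval_X,
      eq_intCast, map_intCast]
    rw [← hz, ← Finset.add_sum_erase _ _ (Finset.mem_univ j0),
      ← Finset.add_sum_erase _ _ (Finset.mem_univ j0), hz0, mul_zero, zero_add, map_sum, add_comm]
    congr 1
    · simp only [ζ, if_true, updateCol_self, Pi.single_apply]
      split_ifs
      · rw [← mul_assoc, ← map_intCast (C : ℚ →+* ℚ[X]), ← map_mul, mul_div_cancel₀ _ hm]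
      · simp
    · refine Finset.sum_congr rfl fun j hj => ?_
      have hj' := Finset.ne_of_mem_erase hj
      simp only [ζ, if_neg hj', updateCol_ne hj', map_mul, map_intCast]
  rw [e, AlgHom.comp_apply]
  set Q := lin (fun h => (Y h).updateCol j0 (Pi.single i1 (M h))) P
  rw [Q.as_sum, map_sum]
  refine Finset.dvd_sum fun J hJ' => ?_
  rw [MvPolynomial.aeval_monomial, Finsupp.prod_fintype _ _ fun _ => pow_zero _,
    Fintype.prod_prod_type]
  refine ((pow_dvd_pow X (hJ J hJ')).trans ?_).mul_left _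
  rw [← Finset.prod_pow_eq_pow_sum]
  refine Finset.prod_dvd_prod_of_dvd _ _ fun h _ => ?_
  refine Dvd.dvd.trans ?_ (Finset.dvd_prod_of_mem _ (Finset.mem_univ j0))
  simp only [ζ, if_true, mul_pow, pow_mul]
  exact dvd_mul_left _ _

end Pool.Agent.P.MP_fc15d7_nt
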