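import Pool.Agent.P.MP_fc15d7_nt.TCMP

/-! From a linear form on the exterior power to a linear form on the space. -/

set_option autoImplicit false

open Matrix

namespace Pool.Agent.P.MP_fc15d7_nt

theorem t_PLK (hCMP : S_CMP) : S_PLK := by
  intro D a w ha hw
  obtain ⟨s0, hs0⟩ := Function.ne_iff.1 hw
  let z : Fin a := ⟨0, ha⟩
  let E : Matrix (Fin D) (Fin a) ℤ := (1 : Matrix (Fin D) (Fin D) ℤ).submatrix id (emb s0)
  let Ω : (Fin D → ℤ) →ₗ[ℤ] ℤ := ∑ s, w s • (LinearMap.proj z ∘ₗ cramer (E.submatrix (emb s) id) ∘ₗ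
    LinearMap.funLeft ℤ ℤ (emb s))
  have hΩ : ∀ x, Ω x = ∑ s, w s * ((E.updateCol z x).submatrix (emb s) id).det := fun x => by
    simp only [Ω, LinearMap.sum_apply, LinearMap.smul_apply, LinearMap.comp_apply,
      LinearMap.proj_apply, cramer_apply, smul_eq_mul]
    rfl
  refine ⟨fun i => Ω (Pi.single i 1), Function.ne_iff.2 ⟨emb s0 z, ?_⟩, fun Y t0 hY h j hj => ?_⟩
  · have h1 : E.updateCol z (Pi.single (emb s0 z) 1) = E := by
      ext i j
      rw [updateCol_apply]
      split_ifs with h
      · simp [E, h, one_apply, Pi.single_apply]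
      · rfl
    have h2 := cmp_smul_one (D := D) (a := a) 1
    rw [one_smul, one_pow, one_smul] at h2
    have h3 : ∀ s, (E.submatrix (emb s) id).det = (1 : Matrix (Sb D a) (Sb D a) ℤ) s s0 :=
      fun s => h2 ▸ rfl
    rw [hΩ, h1]
    simpa [h3, one_apply] using hs0
  · have h1 : ∑ i, Ω (Pi.single i 1) * Y i j = Ω fun i => Y i j := by
      rw [pi_eq_sum_univ' fun i => Y i j, map_sum]
      simp only [map_smul, smul_eq_mul, mul_comm]
    let Z := (Y.adjugate * E).updateCol z (Pi.single j Y.det)
    have h2 : Y * Z = Y.det • E.updateCol z fun i => Y i j := by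
      ext i r
      by_cases hr : r = z
      · simp [Z, hr, mul_apply, Pi.single_apply, mul_comm]
      · have : (Y * Z) i r = (Y * (Y.adjugate * E)) i r := by
          rw [Matrix.mul_apply, Matrix.mul_apply]
          simp only [Z, updateCol_ne hr]
        rw [this, ← Matrix.mul_assoc, mul_adjugate, Matrix.smul_mul, Matrix.one_mul,
          Matrix.smul_apply, Matrix.smul_apply, updateCol_ne hr]
    have h3 : Y.det ^ a * Ω (fun i => Y i j) =
        ∑ t, (∑ s, w s * cmp a Y s t) * (Z.submatrix (emb t) id).det := by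
      simp only [hΩ, Finset.mul_sum, Finset.sum_mul]
      rw [Finset.sum_comm]
      refine Finset.sum_congr rfl fun s _ => ?_
      have := hCMP.1 ℤ D a (Y.submatrix (emb s) id) Z
      rw [← submatrix_id_id Z, ← submatrix_mul Y Z _ id id Function.bijective_id, h2,
        submatrix_smul, Pi.smul_apply, Pi.smul_apply, det_smul, Fintype.card_fin] at this
      rw [mul_left_comm, this, Finset.mul_sum]
      exact Finset.sum_congr rfl fun t _ => (mul_assoc _ _ _).symm
    rw [h1]
    refine (mul_eq_zero.1 (h3.trans (Finset.sum_eq_zero fun t _ => ?_))).resolve_left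
      (pow_ne_zero _ hY)
    by_cases ht : t = t0
    · refine mul_eq_zero_of_right _ (det_eq_zero_of_column_eq_zero z fun i => ?_)
      have : emb t i ≠ j := fun e => hj (by
        rw [← ht, ← Finset.mem_coe, ← cmp_range]
        exact ⟨i, e⟩)
      simp [Z, this]
    · rw [h t ht, zero_mul]

end Pool.Agent.P.MP_fc15d7_nt
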