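import Pool.Agent.P.MP_fc15d7_nt.Iface

/-! The subspace theorem from the hyperplane case, by passing to compound matrices. -/

set_option autoImplicit false

open Matrix Filter

namespace Pool.Agent.P.MP_fc15d7_nt

variable {D a : ℕ}

theorem st_sum {M : Type} [AddCommMonoid M] (s : Sb D a) (f : Fin D → M) :
    ∑ r, f (emb s r) = ∑ i ∈ s.1, f i := by
  rw [← Finset.map_orderEmbOfFin_univ s.1 s.2, Finset.sum_map]; rfl

theorem st_out {s t : Sb D a} (h : t ≠ s) : ∃ r, emb t r ∉ s.1 := by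
  by_contra hc
  push Not at hc
  refine h (Subtype.ext (Finset.eq_of_subset_of_card_le (fun i hi => ?_) (s.2.trans t.2.symm).le))
  obtain ⟨r, rfl⟩ : i ∈ Set.range (t.1.orderEmbOfFin t.2) := by
    rw [Finset.range_orderEmbOfFin]; exact hi
  exact hc r

theorem st_size {A : Matrix (Fin D) (Fin D) ℤ} {c ν : Fin D → ℝ} {η γ N : ℝ} (hN : 0 ≤ N)
    (h : ∀ i j, |((A i j : ℤ) : ℝ)| ≤ Real.exp ((c i + min (ν i) (ν j) + η) * N)) {t0 t : Sb D a}
    (h1 : ∀ i ∈ t0.1, γ ≤ ν i) (h2 : ∀ j ∉ t0.1, ν j ≤ 0) (ht : t ≠ t0) (s : Sb D a) :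
    |((cmp a A s t : ℤ) : ℝ)| ≤ a.factorial *
      Real.exp ((∑ i ∈ s.1, (c i + ν i) + a * η - if s = t0 then γ else 0) * N) := by
  refine (abs_det_le_int _ fun σ => ?_).trans_eq (by rw [Fintype.card_fin])
  refine (Finset.prod_le_prod (fun _ _ => abs_nonneg _) fun r _ => h _ _).trans ?_
  rw [← Real.exp_sum, ← Finset.sum_mul]
  refine Real.exp_le_exp.2 (mul_le_mul_of_nonneg_right ?_ hN)
  have h3 : ∀ r ∈ Finset.univ, 0 ≤ ν (emb s (σ r)) - min (ν (emb s (σ r))) (ν (emb t r)) :=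
    fun r _ => sub_nonneg.2 (min_le_left _ _)
  have h4 : (if s = t0 then γ else 0) ≤
      ∑ r, (ν (emb s (σ r)) - min (ν (emb s (σ r))) (ν (emb t r))) := by
    split_ifs with e
    · obtain ⟨r, hr⟩ := st_out ht
      refine le_trans ?_ (Finset.single_le_sum h3 (Finset.mem_univ r))
      have := h1 (emb s (σ r)) (e ▸ Finset.orderEmbOfFin_mem _ _ _)
      linarith [min_le_right (ν (emb s (σ r))) (ν (emb t r)), h2 _ hr]
    · exact Finset.sum_nonneg h3
  rw [← st_sum, ← Equiv.sum_comp σ fun r => c (emb s r) + ν (emb s r)]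
  simp only [Finset.sum_add_distrib, Finset.sum_sub_distrib, Finset.sum_const, Finset.card_univ,
    Fintype.card_fin, nsmul_eq_mul] at h4 ⊢
  linarith

theorem t_ST (hBAS : S_BAS) (hHYP : S_HYP) (hCMP : S_CMP) (hPLK : S_PLK) : S_ST := by
  intro D κ _ p L0 L c k U N x hS hk hlt hN hx
  obtain ⟨Y, ν, h1, h2, h3, h4, h5⟩ := hBAS D κ p L0 L c k U N hS hk hN
  set t0 := Finset.univ.filter fun j => 0 < ν j with ht0
  have h6 : ∀ j ∉ t0, ν j ≤ 0 := fun j hj => by simpa [ht0] using hj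
  have hne : t0.Nonempty := by
    rw [Finset.nonempty_iff_ne_empty]
    intro e
    have := Finset.sum_nonpos fun j (_ : j ∈ Finset.univ) => h6 j (e ▸ Finset.notMem_empty j)
    linarith
  obtain ⟨j1, hj1, hγ⟩ := t0.exists_min_image ν hne
  have hγ0 : 0 < ν j1 := (Finset.mem_filter.1 hj1).2
  set a := t0.card
  set T0 : Sb D a := ⟨t0, rfl⟩
  set η := ν j1 / ((Fintype.card (Sb D a) + 1) * (a + 1)) with hη
  have hη0 : 0 < η := by positivity
  have hcol : ∀ (A : Matrix (Fin D) (Fin D) ℤ) n s t,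
      (cmp a A *ᵥ fun i => cmp a (Y n) i t) s = cmp a (A * Y n) s t := fun A n s t => by
    rw [hCMP.2.1]; rfl
  obtain ⟨w, hw, hw'⟩ := hHYP (Sb D a) κ p (cmp a L0) (fun v => cmp a (L v))
    (fun s => ∑ i ∈ s.1, (c i + ν i) + (a + 1) * η - if s = T0 then ν j1 else 0)
    (fun v s => ∑ i ∈ s.1, k v i) U N (fun n => cmp a (Y n)) T0
    ⟨hS.two_le, hS.cop, hCMP.2.2.1 _ _ _ hS.det0, fun v => hCMP.2.2.1 _ _ _ (hS.det v)⟩
    (by
      obtain ⟨b, hb⟩ := hCMP.2.2.2 D a
      have e : ((Fintype.card (Sb D a) : ℝ) + 1) * ((a + 1) * η) = ν j1 := by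
        rw [hη]; field_simp
      have e' : (0 : ℝ) < (a + 1) * η := by positivity
      simp only [Finset.sum_sub_distrib, Finset.sum_add_distrib (s := Finset.univ), hb,
        Finset.sum_ite_eq', Finset.mem_univ, if_true, Finset.sum_const, Finset.card_univ,
        nsmul_eq_mul, ← Finset.mul_sum, h1]
      linarith) hN (by
      filter_upwards [h4 η hη0, ev_le_exp hN a.factorial hη0, hN.eventually_ge_atTop 0]
        with n e1 e2 e3
      refine ⟨hCMP.2.2.1 _ _ _ (h2 n), fun t ht => ⟨fun s => ?_, fun v s => ?_⟩⟩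
      · rw [hcol]
        refine (st_size (t0 := T0) e3 e1 hγ h6 ht s).trans
          ((mul_le_mul_of_nonneg_right e2 (Real.exp_pos _).le).trans_eq ?_)
        rw [← Real.exp_add]
        congr 1
        ring
      · rw [hcol]
        refine (pow_dvd_pow _ (ex_sum_le (hS.two_le v) _ _ _)).trans ?_
        rw [← st_sum, ← Finset.prod_pow_eq_pow_sum]
        exact prod_dvd_det _ _ fun i j => h3 n v _ _)
  obtain ⟨l, hl, hl'⟩ := hPLK D a w hne.card_pos hw
  refine ⟨l, hl, ?_⟩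
  filter_upwards [hw', h5, hx] with n e1 e2 e3
  obtain ⟨α, e4, e5⟩ := e2 _ e3
  simp only [e4, Matrix.mulVec, dotProduct, Finset.mul_sum, ← mul_assoc]
  rw [Finset.sum_comm]
  refine Finset.sum_eq_zero fun j _ => ?_
  rw [← Finset.sum_mul]
  by_cases hj : j ∈ t0
  · rw [e5 j (Finset.mem_filter.1 hj).2, mul_zero]
  · rw [hl' (Y n) T0 (h2 n) e1 j hj, zero_mul]

end Pool.Agent.P.MP_fc15d7_nt
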