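import Pool.Agent.P.MP_fc15d7_nt.Iface

/-! The vanishing estimate `S_VAN`. -/

set_option autoImplicit false

open Matrix MvPolynomial Filter

namespace Pool.Agent.P.MP_fc15d7_nt

theorem van_arch {ι : Type} [Fintype ι] [DecidableEq ι] {m : ℕ} (M : Fin m → Matrix ι ι ℤ)
    (c : ι → ℝ) (N B : Fin m → ℝ) (d : Fin m → ℕ) (j0 : ι) (Q : MvPolynomial (Fin m × ι) ℤ)
    (T0 K : ℝ) (hQ : MH d Q)
    (h1 : ∀ h i j, j ≠ j0 → |((M h i j : ℤ) : ℝ)| ≤ Real.exp (c i * N h))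
    (h2 : ∀ h i, |((M h i j0 : ℤ) : ℝ)| ≤ Real.exp (c i * N h + B h))
    (hK : wn 1 Q ≤ K) (hT : ∀ J ∈ Q.support, ∑ h, ∑ i, N h * c i * J (h, i) ≤ T0)
    (J : Fin m × ι →₀ ℕ) :
    |(((lin M Q).coeff J : ℤ) : ℝ)| ≤
      (Fintype.card ι : ℝ) ^ (∑ h, d h) * K * Real.exp (T0 + ∑ h, B h * J (h, j0)) := by
  set β : Fin m × ι → ℝ := fun s => if s.2 = j0 then Real.exp (-B s.1) else 1 with hβ
  have hβ0 : ∀ s, 0 ≤ β s := fun s => by
    simp only [hβ]; split_ifs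
    · exact (Real.exp_pos _).le
    · exact zero_le_one
  have e1 : (J.prod fun s e => β s ^ e) = Real.exp (-∑ h, B h * J (h, j0)) := by
    rw [Finsupp.prod_fintype _ _ (by simp), Fintype.prod_prod_type, ← Finset.sum_neg_distrib,
      Real.exp_sum]
    refine Finset.prod_congr rfl fun h _ => ?_
    rw [Finset.prod_eq_single j0 (fun i _ hi => by simp [hβ, hi]) (by simp)]
    simp only [hβ, if_true]
    rw [← Real.exp_nat_mul]
    congr 1; ring
  have e2 : ∀ s : Fin m × ι, ∑ j, |((M s.1 s.2 j : ℤ) : ℝ)| * β (s.1, j) ≤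
      Fintype.card ι * Real.exp (c s.2 * N s.1) := fun s => by
    have : ∀ j, |((M s.1 s.2 j : ℤ) : ℝ)| * β (s.1, j) ≤ Real.exp (c s.2 * N s.1) := fun j => by
      by_cases hj : j = j0
      · subst hj
        simp only [hβ, if_true]
        calc _ ≤ Real.exp (c s.2 * N s.1 + B s.1) * Real.exp (-B s.1) :=
              mul_le_mul_of_nonneg_right (h2 _ _) (Real.exp_pos _).le
          _ = _ := by rw [← Real.exp_add]; congr 1; ring
      · simp only [hβ, if_neg hj, mul_one]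
        exact h1 _ _ _ hj
    calc _ ≤ ∑ _j : ι, Real.exp (c s.2 * N s.1) := Finset.sum_le_sum fun j _ => this j
      _ = _ := by simp
  have e3 : wn (fun s : Fin m × ι => (Fintype.card ι : ℝ) * Real.exp (c s.2 * N s.1)) Q ≤
      wn 1 Q * ((Fintype.card ι : ℝ) ^ (∑ h, d h) * Real.exp T0) := by
    refine wn_le_mul Q fun J' hJ' => ?_
    rw [Finsupp.prod_fintype _ _ (by simp)]
    simp only [mul_pow, Finset.prod_mul_distrib, Finset.prod_pow_eq_pow_sum, hQ.sum_eq hJ']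
    refine mul_le_mul_of_nonneg_left ?_ (by positivity)
    simp only [← Real.exp_nat_mul]
    rw [← Real.exp_sum, Real.exp_le_exp, Fintype.sum_prod_type]
    refine le_of_eq_of_le ?_ (hT J' hJ')
    exact Finset.sum_congr rfl fun h _ => Finset.sum_congr rfl fun i _ => by ring
  have e4 := (coeff_le_wn hβ0 (lin M Q) J).trans ((wn_lin_le hβ0 M Q).trans
    ((wn_mono (fun s => Finset.sum_nonneg fun j _ => mul_nonneg (abs_nonneg _) (hβ0 _)) e2 Q).trans
      (e3.trans (mul_le_mul_of_nonneg_right hK (by positivity)))))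
  rw [e1, Real.exp_neg, ← div_eq_mul_inv, div_le_iff₀ (Real.exp_pos _)] at e4
  rw [Real.exp_add]
  exact e4.trans_eq (by ring)

theorem van_padic {ι : Type} [Fintype ι] {m : ℕ} {p : ℕ} (hp : 2 ≤ p)
    (M : Fin m → Matrix ι ι ℤ) (k : ι → ℝ) (N : Fin m → ℝ) (Q : MvPolynomial (Fin m × ι) ℤ)
    (T : ℝ) (h1 : ∀ h i j, (p : ℤ) ^ ex p (k i) (N h) ∣ M h i j)
    (hT : ∀ J ∈ Q.support, T ≤ ∑ h, ∑ i, N h * k i * J (h, i)) (J : Fin m × ι →₀ ℕ) :
    (p : ℤ) ^ ex p T 1 ∣ (lin M Q).coeff J := by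
  refine (C_dvd_iff_dvd_coeff _ _).1 ?_ J
  rw [Q.as_sum, map_sum]
  refine Finset.dvd_sum fun J' hJ' => ?_
  rw [lin_monomial]
  refine Dvd.dvd.mul_left ?_ _
  have e1 : ex p T 1 ≤ ∑ s : Fin m × ι, ex p (k s.2) (N s.1) * J' s := by
    rw [ex_le_iff hp, mul_one]
    refine (hT J' hJ').trans ?_
    rw [Nat.cast_sum, Finset.sum_mul, Fintype.sum_prod_type]
    refine Finset.sum_le_sum fun h _ => Finset.sum_le_sum fun i _ => ?_
    have := mul_le_mul_of_nonneg_right (le_ex_mul hp (k i) (N h)) (Nat.cast_nonneg (J' (h, i)))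
    push_cast
    linarith
  refine (map_dvd C (pow_dvd_pow (p : ℤ) e1)).trans ?_
  rw [← Finset.prod_pow_eq_pow_sum, map_prod]
  refine Finset.prod_dvd_prod_of_dvd _ _ fun s _ => ?_
  rw [pow_mul, map_pow]
  exact pow_dvd_pow_of_dvd (Finset.dvd_sum fun j _ => (map_dvd C (h1 _ _ _)).mul_right _) _

theorem t_VAN : S_VAN := by
  intro ι κ _ _ _ p L0 L c k hS m N B d A j0 P T0 K T hP h1 h2 h3 hK hT0 hT J hJ
  have ha : (lin A P).coeff J ≠ 0 := mem_support_iff.1 hJ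
  have e1 := van_arch (fun h => L0 * A h) c N B d j0 _ T0 K (hP.lin _) h1 h2 hK hT0 J
  rw [hP.lin_adj, coeff_C_mul] at e1
  have e2 : |(((lin A P).coeff J : ℤ) : ℝ)| ≤
      (Fintype.card ι : ℝ) ^ (∑ h, d h) * K * Real.exp (T0 + ∑ h, B h * J (h, j0)) := by
    refine le_trans ?_ e1
    rw [Int.cast_mul, abs_mul, Int.cast_pow, abs_pow]
    have : (1 : ℝ) ≤ |((L0.det : ℤ) : ℝ)| := by exact_mod_cast Int.one_le_abs hS.det0
    exact le_mul_of_one_le_left (abs_nonneg _) (one_le_pow₀ this)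
  have e3 : ∀ v, (p v : ℤ) ^ ex (p v) (T v) 1 ∣
      (∏ v, (L v).det) ^ (∑ h, d h) * (lin A P).coeff J := fun v => by
    have := van_padic (hS.two_le v) (fun h => L v * A h) (k v) N _ (T v) (h3 v) (hT v) J
    rw [hP.lin_adj, coeff_C_mul] at this
    exact this.trans (mul_dvd_mul_right
      (pow_dvd_pow_of_dvd (Finset.dvd_prod_of_mem _ (Finset.mem_univ v)) _) _)
  have e4 := exp_le_of_dvd hS.two_le hS.cop T (fun _ => 1)
    (mul_ne_zero (pow_ne_zero _ (Finset.prod_ne_zero_iff.2 fun v _ => hS.det v)) ha) e3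
  simp only [mul_one] at e4
  refine e4.trans ?_
  rw [Int.cast_mul, abs_mul, Int.cast_pow, abs_pow, Int.cast_prod, Finset.abs_prod, mul_pow]
  refine (mul_le_mul_of_nonneg_left e2 (pow_nonneg
    (Finset.prod_nonneg fun v _ => abs_nonneg _) _)).trans_eq (by ring)

end Pool.Agent.P.MP_fc15d7_nt
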