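import Pool.Agent.P.MP_fc15d7_nt.TELIM
import Pool.Agent.P.MP_fc15d7_nt.TROTH
import Pool.Agent.P.MP_fc15d7_nt.TCNT
import Pool.Agent.P.MP_fc15d7_nt.TAUX
import Pool.Agent.P.MP_fc15d7_nt.TVAN
import Pool.Agent.P.MP_fc15d7_nt.TORDH
import Pool.Agent.P.MP_fc15d7_nt.TKRON
import Pool.Agent.P.MP_fc15d7_nt.THT
import Pool.Agent.P.MP_fc15d7_nt.THYP
import Pool.Agent.P.MP_fc15d7_nt.TREDU
import Pool.Agent.P.MP_fc15d7_nt.TLAT
import Pool.Agent.P.MP_fc15d7_nt.TBAS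
import Pool.Agent.P.MP_fc15d7_nt.TPLK
import Pool.Agent.P.MP_fc15d7_nt.TST

/-! The `p`-adic subspace theorem over `ℚ` for linear forms with integer coefficients. -/

set_option autoImplicit false

namespace Pool.Agent.P.MP_fc15d7_nt

theorem subspace : S_ST := t_ST (t_BAS t_REDU t_LAT)
  (t_HYP (t_AUX t_CNT) t_VAN t_ORDH t_KRON (t_ROTH t_ELIM) t_HT) t_CMP (t_PLK t_CMP)

end Pool.Agent.P.MP_fc15d7_nt
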