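import Pool.Agent.P.MP_fc15d7_nt.Basic

/-! Interface: every `S_*` is proved in its own file. -/

set_option autoImplicit false

open Matrix Filter Module
open Pool.Agent.P.MP_7aad9f_nt.Sub (Ord nrm)

namespace Pool.Agent.P.MP_fc15d7_nt

/-! ### Roth's lemma -/

def S_ELIM : Prop :=
  ∀ (n : ℕ) (α : Fin (n + 1) → ℚ) (wt : Fin (n + 1) → ℕ) (μ μ' : ℕ)
    (F : MvPolynomial (Fin (n + 1)) ℤ), α 0 ≠ 0 → (∀ h, 0 < wt h) → F ≠ 0 →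
    (∀ e : ℕ, (e = 0 ∨ (∃ h : Fin n, e ≤ F.degreeOf h.succ) ∨ (α 0).den ^ e ≤ nrm F) →
      μ' + e * wt 0 ≤ μ) → Ord α wt μ F →
    ∃ (N : ℕ) (R : MvPolynomial (Fin n) ℤ), 0 < N ∧ N ≤ 2 * F.degreeOf 0 + 1 ∧ R ≠ 0 ∧
      (∀ h, R.degreeOf h ≤ N * F.degreeOf h.succ) ∧
      nrm R ≤ N.factorial * (8 ^ F.degreeOf 0 * nrm F) ^ N ∧
      Ord (Fin.tail α) (Fin.tail wt) (∑ c : Fin N, (μ' - c * wt 0)) R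

def S_ROTH : Prop :=
  ∀ (m : ℕ) (ε θ : ℝ), 0 < ε → 0 < θ → ∃ (lam : ℝ) (ρ w0 : ℕ), 0 < lam ∧
    ∀ (α : Fin m → ℚ) (wt : Fin m → ℕ) (Z μ : ℕ) (F : MvPolynomial (Fin m) ℤ),
      (∀ h, w0 ≤ wt h) → (∀ h h', h < h' → ρ * wt h ≤ wt h') →
      (∀ h, θ * wt h ≤ Real.log (α h).den) → (∀ h, wt h ≤ Z) → 1 ≤ Z → F ≠ 0 →
      (∀ h, wt h * F.degreeOf h ≤ Z) → (nrm F : ℝ) ≤ Real.exp (lam * Z) → ε * Z ≤ μ →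
      Ord α wt μ F → False

/-! ### The auxiliary polynomial -/

def S_CNT : Prop :=
  ∀ (ι : Type) [Fintype ι] [DecidableEq ι] (c : ι → ℝ) (η δ : ℝ), 0 < η → 0 < δ →
    ∃ m0 : ℕ, ∀ m : ℕ, m0 ≤ m → ∀ (N : Fin m → ℝ) (d : Fin m → ℕ) (Z : ℝ), 0 < Z →
      (∀ h, 0 ≤ N h) → (∀ h, N h * d h ≤ Z) →
      ∀ T : Finset (Fin m → ι → ℕ),
        T ⊆ (Fintype.piFinset fun h => Finset.piAntidiag Finset.univ (d h)) →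
        (∀ J ∈ T, (∑ i, c i) / Fintype.card ι * ∑ h, N h * d h + η * m * Z <
          ∑ h, ∑ i, N h * c i * J h i) →
        (T.card : ℝ) ≤ δ *
          (Fintype.piFinset fun h => Finset.piAntidiag (Finset.univ : Finset ι) (d h)).card

def S_AUX : Prop :=
  ∀ (ι κ : Type) [Fintype ι] [DecidableEq ι] [Nonempty ι] [Fintype κ]
    (B : κ → Matrix ι ι ℤ) (c : κ → ι → ℝ) (η : ℝ), 0 < η →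
    ∃ (m0 : ℕ) (K : ℝ), 1 ≤ K ∧ ∀ m : ℕ, m0 ≤ m → ∀ (N : Fin m → ℝ) (d : Fin m → ℕ) (Z : ℝ),
      0 < Z → (∀ h, 0 ≤ N h) → (∀ h, N h * d h ≤ Z) →
      ∃ P : MvPolynomial (Fin m × ι) ℤ, P ≠ 0 ∧ MH d P ∧ wn 1 P ≤ K ^ ∑ h, d h ∧
        ∀ v, wn 1 (lin (fun _ => B v) P) ≤ K ^ ∑ h, d h ∧
          ∀ J ∈ (lin (fun _ => B v) P).support, ∑ h, ∑ i, N h * c v i * J (h, i) ≤
            (∑ i, c v i) / Fintype.card ι * ∑ h, N h * d h + η * m * Z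

def S_VAN : Prop :=
  ∀ (ι κ : Type) [Fintype ι] [DecidableEq ι] [Fintype κ] (p : κ → ℕ) (L0 : Matrix ι ι ℤ)
    (L : κ → Matrix ι ι ℤ) (c : ι → ℝ) (k : κ → ι → ℝ), Sys p L0 L →
    ∀ (m : ℕ) (N B : Fin m → ℝ) (d : Fin m → ℕ) (A : Fin m → Matrix ι ι ℤ) (j0 : ι)
      (P : MvPolynomial (Fin m × ι) ℤ) (T0 K : ℝ) (T : κ → ℝ), MH d P →
      (∀ h i j, j ≠ j0 → |(((L0 * A h) i j : ℤ) : ℝ)| ≤ Real.exp (c i * N h)) →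
      (∀ h i, |(((L0 * A h) i j0 : ℤ) : ℝ)| ≤ Real.exp (c i * N h + B h)) →
      (∀ v h i j, (p v : ℤ) ^ ex (p v) (k v i) (N h) ∣ (L v * A h) i j) →
      wn 1 (lin (fun _ => L0.adjugate) P) ≤ K →
      (∀ J ∈ (lin (fun _ => L0.adjugate) P).support, ∑ h, ∑ i, N h * c i * J (h, i) ≤ T0) →
      (∀ v, ∀ J ∈ (lin (fun _ => (L v).adjugate) P).support,
        T v ≤ ∑ h, ∑ i, N h * k v i * J (h, i)) →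
      ∀ J ∈ (lin A P).support, Real.exp (∑ v, T v) ≤
        ((∏ v, |(((L v).det : ℤ) : ℝ)|) * Fintype.card ι) ^ (∑ h, d h) * K *
          Real.exp (T0 + ∑ h, B h * J (h, j0))

def S_ORDH : Prop :=
  ∀ (ι : Type) [Fintype ι] [DecidableEq ι] (m : ℕ) (Y : Fin m → Matrix ι ι ℤ) (M : Fin m → ℤ)
    (j0 i1 : ι) (wt : Fin m → ℕ) (μ : ℕ) (P : MvPolynomial (Fin m × ι) ℤ),
    (∀ h, (Y h).det ≠ 0) → (∀ h, M h ≠ 0) →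
    (∀ J ∈ (lin (fun h => (Y h).updateCol j0 (Pi.single i1 (M h))) P).support,
      μ ≤ ∑ h, wt h * J (h, j0)) →
    OrdH (fun h => (Y h).adjugate j0) i1 wt μ P

def S_KRON : Prop :=
  ∀ (ι : Type) [Fintype ι] [DecidableEq ι] (m : ℕ) (w : Fin m → ι → ℤ) (i1 i2 : ι)
    (wt d : Fin m → ℕ) (μ : ℕ) (P : MvPolynomial (Fin m × ι) ℤ), i1 ≠ i2 → (∀ h, w h i1 ≠ 0) →
    P ≠ 0 → MH d P → OrdH w i1 wt μ P →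
    ∃ F : MvPolynomial (Fin m) ℤ, F ≠ 0 ∧ (∀ h, F.degreeOf h ≤ d h) ∧ (nrm F : ℝ) ≤ wn 1 P ∧
      Ord (fun h => -((w h i2 : ℚ) / w h i1)) wt μ F

/-! ### Hyperplanes -/

def S_HT : Prop :=
  ∀ (ι κ : Type) [Fintype ι] [DecidableEq ι] [Fintype κ] (p : κ → ℕ) (L0 : Matrix ι ι ℤ)
    (L : κ → Matrix ι ι ℤ) (c : ι → ℝ) (k : κ → ι → ℝ) (U : Ultrafilter ℕ) (N : ℕ → ℝ)
    (Y : ℕ → Matrix ι ι ℤ) (j0 : ι), Sys p L0 L → ∑ i, c i < ∑ v, ∑ i, k v i →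
    Tendsto N U atTop →
    (∀ᶠ n in U, (Y n).det ≠ 0 ∧ ∀ j, j ≠ j0 → InBox p L0 L c k (N n) fun i => Y n i j) →
    (∃ w : ι → ℤ, w ≠ 0 ∧ ∀ᶠ n in U, ∀ j, j ≠ j0 → ∑ i, w i * Y n i j = 0) ∨
      ∃ (θ : ℝ) (i1 i2 : ι), 0 < θ ∧ i1 ≠ i2 ∧ ∀ᶠ n in U, (Y n).adjugate j0 i1 ≠ 0 ∧
        θ * N n ≤ Real.log (((Y n).adjugate j0 i2 : ℚ) / (Y n).adjugate j0 i1).den

def S_HYP : Prop :=
  ∀ (ι κ : Type) [Fintype ι] [DecidableEq ι] [Fintype κ] (p : κ → ℕ) (L0 : Matrix ι ι ℤ)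
    (L : κ → Matrix ι ι ℤ) (c : ι → ℝ) (k : κ → ι → ℝ) (U : Ultrafilter ℕ) (N : ℕ → ℝ)
    (Y : ℕ → Matrix ι ι ℤ) (j0 : ι), Sys p L0 L → ∑ i, c i < ∑ v, ∑ i, k v i →
    Tendsto N U atTop →
    (∀ᶠ n in U, (Y n).det ≠ 0 ∧ ∀ j, j ≠ j0 → InBox p L0 L c k (N n) fun i => Y n i j) →
    ∃ w : ι → ℤ, w ≠ 0 ∧ ∀ᶠ n in U, ∀ j, j ≠ j0 → ∑ i, w i * Y n i j = 0

/-! ### Geometry of numbers and the subspace theorem -/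

def S_REDU : Prop :=
  ∀ D : ℕ, ∃ K : ℝ, 1 ≤ K ∧ ∀ A : Matrix (Fin D) (Fin D) ℝ, A.det ≠ 0 →
    ∃ (V : Matrix (Fin D) (Fin D) ℤ) (μ : Fin D → ℝ), IsUnit V.det ∧ (∀ i, 0 < μ i) ∧
      ∏ i, μ i = |A.det| ∧ ∀ i j, |(A * V.map (Int.cast : ℤ → ℝ)) i j| ≤ K * μ i ∧
        |(A * V.map (Int.cast : ℤ → ℝ)) i j| ≤ K * μ j

def S_LAT : Prop :=
  ∀ (D : ℕ) (τ : Type) [Fintype τ] (q : τ → ℕ) (r : τ → Fin D → ℤ), (∀ t, 0 < q t) →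
    ∃ B : Matrix (Fin D) (Fin D) ℤ, B.det ≠ 0 ∧ |B.det| ≤ ∏ t, (q t : ℤ) ∧
      (∀ t j, (q t : ℤ) ∣ ∑ i, r t i * B i j) ∧
      ∀ x : Fin D → ℤ, (∀ t, (q t : ℤ) ∣ ∑ i, r t i * x i) → ∃ a : Fin D → ℤ, x = B *ᵥ a

def S_BAS : Prop :=
  ∀ (D : ℕ) (κ : Type) [Fintype κ] (p : κ → ℕ) (L0 : Matrix (Fin D) (Fin D) ℤ)
    (L : κ → Matrix (Fin D) (Fin D) ℤ) (c : Fin D → ℝ) (k : κ → Fin D → ℝ) (U : Ultrafilter ℕ)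
    (N : ℕ → ℝ), Sys p L0 L → (∀ v i, 0 ≤ k v i) → Tendsto N U atTop →
    ∃ (Y : ℕ → Matrix (Fin D) (Fin D) ℤ) (ν : Fin D → ℝ),
      ∑ i, c i + ∑ i, ν i = ∑ v, ∑ i, k v i ∧ (∀ n, (Y n).det ≠ 0) ∧
      (∀ n v i j, (p v : ℤ) ^ ex (p v) (k v i) (N n) ∣ (L v * Y n) i j) ∧
      (∀ η : ℝ, 0 < η → ∀ᶠ n in U, ∀ i j,
        |(((L0 * Y n) i j : ℤ) : ℝ)| ≤ Real.exp ((c i + min (ν i) (ν j) + η) * N n)) ∧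
      ∀ᶠ n in U, ∀ x, InBox p L0 L c k (N n) x →
        ∃ a : Fin D → ℤ, x = Y n *ᵥ a ∧ ∀ j, 0 < ν j → a j = 0

def S_CMP : Prop :=
  (∀ (R : Type) [CommRing R] (D a : ℕ) (M : Matrix (Fin a) (Fin D) R)
    (M' : Matrix (Fin D) (Fin a) R), (M * M').det =
      ∑ t : Sb D a, (M.submatrix id (emb t)).det * (M'.submatrix (emb t) id).det) ∧
  (∀ (R : Type) [CommRing R] (D a : ℕ) (A B : Matrix (Fin D) (Fin D) R),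
    cmp a (A * B) = cmp a A * cmp a B) ∧
  (∀ (D a : ℕ) (A : Matrix (Fin D) (Fin D) ℤ), A.det ≠ 0 → (cmp a A).det ≠ 0) ∧
  ∀ D a : ℕ, ∃ b : ℕ, ∀ f : Fin D → ℝ, ∑ s : Sb D a, ∑ i ∈ s.1, f i = b * ∑ i, f i

def S_PLK : Prop :=
  ∀ (D a : ℕ) (w : Sb D a → ℤ), 0 < a → w ≠ 0 → ∃ l : Fin D → ℤ, l ≠ 0 ∧
    ∀ (Y : Matrix (Fin D) (Fin D) ℤ) (t0 : Sb D a), Y.det ≠ 0 →
      (∀ t, t ≠ t0 → ∑ s, w s * cmp a Y s t = 0) → ∀ j, j ∉ t0.1 → ∑ i, l i * Y i j = 0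

/-- The subspace theorem over `ℚ`, along an ultrafilter. -/
def S_ST : Prop :=
  ∀ (D : ℕ) (κ : Type) [Fintype κ] (p : κ → ℕ) (L0 : Matrix (Fin D) (Fin D) ℤ)
    (L : κ → Matrix (Fin D) (Fin D) ℤ) (c : Fin D → ℝ) (k : κ → Fin D → ℝ) (U : Ultrafilter ℕ)
    (N : ℕ → ℝ) (x : ℕ → Fin D → ℤ), Sys p L0 L → (∀ v i, 0 ≤ k v i) →
    ∑ i, c i < ∑ v, ∑ i, k v i → Tendsto N U atTop →
    (∀ᶠ n in U, InBox p L0 L c k (N n) (x n)) →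
    ∃ l : Fin D → ℤ, l ≠ 0 ∧ ∀ᶠ n in U, ∑ i, l i * x n i = 0

/-! ### Filtrations -/

def S_FLAG : Prop :=
  ∀ (R : Type) [AddCommGroup R] [Module ℚ R] (D : ℕ) (g : Fin D → R) (G : ℕ → Submodule ℚ R)
    (b : ℕ), LinearIndependent ℚ g → Antitone G → (∀ i, g i ∈ G 0) →
    ∃ (L : Matrix (Fin D) (Fin D) ℤ) (t : Fin D → ℕ), L.det ≠ 0 ∧
      (∀ i, ∑ j, (L i j : ℚ) • g j ∈ G (t i)) ∧
      ∑ s ∈ Finset.Icc 1 b, finrank ℚ ↥(G s ⊓ Submodule.span ℚ (Set.range g)) ≤ ∑ i, t i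

def S_GAIN : Prop :=
  ∀ (R : Type) [AddCommGroup R] [Module ℚ R] (S : Finset R) (lev : R → ℕ)
    (F G : ℕ → Submodule ℚ R) (X : Submodule ℚ R) (V : R →ₗ[ℚ] R) (u : ℕ),
    Antitone F → Antitone G → (∀ x ∈ S, x ∈ F (lev x) ∧ x ∈ G (lev x)) →
    X ≤ Submodule.span ℚ S → X.map V ≤ Submodule.span ℚ S → (∀ x ∈ X, V x = 0 → x = 0) →
    (∀ s, ∀ x ∈ X, x ∈ F s → V x ∈ F (s + u)) → (∀ s, ∀ x ∈ X, V x ∈ G s → x ∈ G s) →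
    ∃ (D : ℕ) (g : Fin D → R) (LF LG : Matrix (Fin D) (Fin D) ℤ) (tF tG : Fin D → ℕ),
      D = finrank ℚ (Submodule.span ℚ (S : Set R)) ∧ (∀ i, g i ∈ S) ∧ LinearIndependent ℚ g ∧
      LF.det ≠ 0 ∧ LG.det ≠ 0 ∧ (∀ i, ∑ j, (LF i j : ℚ) • g j ∈ F (tF i)) ∧
      (∀ i, ∑ j, (LG i j : ℚ) • g j ∈ G (tG i)) ∧ ∑ i, lev (g i) ≤ ∑ i, tF i ∧
      ∑ i, lev (g i) ≤ ∑ i, tG i ∧
      2 * ∑ i, lev (g i) + u * finrank ℚ X ≤ ∑ i, tF i + ∑ i, tG i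

def S_GROW : Prop :=
  ∀ s : ℕ, ∃ J : ℕ, ∀ (R : Type) [CommRing R] [Algebra ℚ R] (A Y : Finset R), A.card ≤ s →
    ∃ j < J, ∃ B : ℕ,
      finrank ℚ ↥(Submodule.span ℚ (A : Set R) ^ (j + 1) * Submodule.span ℚ (Y : Set R) ^ (B + 1)) ≤
        2 * finrank ℚ ↥(Submodule.span ℚ (A : Set R) ^ j * Submodule.span ℚ (Y : Set R) ^ B)

/-- No short `S`-unit expansion with few small coefficients is `2`-adically very small. -/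
def S_GL : Prop :=
  ∀ s : ℕ, ∃ δ : ℝ, 0 < δ ∧ ∀ r : ℕ, ∃ N0 : ℕ, ∀ N : ℕ, N0 ≤ N →
    ∀ (q : ℕ) (W : Finset ℤ) (l : List (ℕ × ℤ)) (M : ℤ), W.card ≤ s → l.length ≤ r → 0 < q →
      (q : ℝ) ≤ Real.exp (δ * N) → (∀ x ∈ W, |(x : ℝ)| ≤ Real.exp (δ * N)) →
      (∀ y ∈ l, y.1 ≤ N ∧ y.2 ∈ W) →
      (l.map fun y => (2 / 3 : ℚ) ^ y.1 * y.2).sum = q * (2 / 3 : ℚ) ^ N * M →
      1 ≤ (2 / 3 : ℚ) ^ N * |(M : ℚ)| → False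

/-! ### Words -/

def S_SPEC : Prop :=
  ∀ (ε : ℕ → ℕ) (C n : ℕ), (∀ i, ε i ≤ 1) → Aper ε → 2 ≤ n → cx ε n ≤ C * n →
    ∃ (l : ℕ) (RS : Finset (Fin l → ℕ)), n ≤ 2 * l ∧ l ≤ n ∧ RS.card ≤ 3 * C ∧
      (∀ i i', (∀ j < l, ε (i + j) = ε (i' + j)) → ε (i + l) ≠ ε (i' + l) →
        (fun j : Fin l => ε (i + j)) ∈ RS) ∧
      ∀ i, ∃ t ≤ C * n, (fun j : Fin l => ε (i + t + j)) ∈ RS

def S_DEC : Prop :=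
  ∀ C : ℕ, ∃ s c0 : ℕ, ∀ T : ℕ, ∃ r0 : ℕ, ∀ (ε : ℕ → ℕ) (n : ℕ), (∀ i, ε i ≤ 1) → Aper ε →
    2 ≤ n → cx ε n ≤ C * n → ∃ (Ty : Finset (ℕ × ℕ)) (r N : ℕ), Ty.card ≤ s ∧
      (∀ y ∈ Ty, 1 ≤ y.2 ∧ y.2 ≤ c0 * n) ∧ r ≤ r0 ∧ T * n ≤ N ∧ Dec ε Ty r N

def S_RUNS : Prop :=
  ∀ (ε : ℕ → ℕ) (a : ℕ), (∀ i, ε i ≤ 1) → 0 < a → ∃ Ty : Finset (ℕ × ℕ),
    Ty.card ≤ 2 ^ a + 2 ∧ (∀ y ∈ Ty, 1 ≤ y.2 ∧ y.2 ≤ a) ∧ ∀ N : ℕ, ∃ r,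
      r ≤ (2 * a + 1) * (((Finset.range N).filter fun i => ε (i + a) ≠ ε i).card + 1) ∧
        Dec ε Ty r N

def S_KEY : Prop :=
  ∀ s c0 : ℕ, ∃ T : ℕ, ∀ r0 : ℕ, ∃ n1 : ℕ, ∀ n : ℕ, n1 ≤ n → ∀ x : ℕ, x ≤ 3 ^ n →
    ∀ (Ty : Finset (ℕ × ℕ)) (r N : ℕ), Ty.card ≤ s → (∀ y ∈ Ty, 1 ≤ y.2 ∧ y.2 ≤ c0 * n) →
      r ≤ r0 → T * n ≤ N → ¬ Dec (par x) Ty r N

def S_CX : Prop :=
  ∀ x : ℕ, Tendsto (fun n : ℕ => (cx (par x) n : ℝ) / n) atTop atTop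

def S_CH : Prop :=
  ∀ x a : ℕ, 0 < a → Tendsto (fun k : ℕ =>
    (((Finset.range k).filter fun i => par x (i + a) ≠ par x i).card : ℝ) / Real.log k)
      atTop atTop

end Pool.Agent.P.MP_fc15d7_nt
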