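import Mathlib

/-! A Hankel type argument in base `(3 / 2) ^ q`: the digits of an integer sequence with
`2 v (n + 1) = 3 v n + O(1)` cannot all lie in a short arc modulo `q`. -/

namespace Pool.Agent.P.MP_fc15d7_nt.Sq

open Polynomial Finset

/-- The shift. -/
def sh : Module.End ℤ (ℕ → ℤ) := LinearMap.funLeft ℤ ℤ Nat.succ

theorem sh_pow (j : ℕ) (M : ℕ → ℤ) (i : ℕ) : (sh ^ j) M i = M (i + j) := by
  induction j generalizing i with
  | zero => rfl
  | succ j ih =>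
    rw [pow_succ', Module.End.mul_apply]
    exact (ih (i + 1)).trans (congrArg M (by omega))

theorem ap_eq {h : ℤ[X]} {d : ℕ} (hd : h.natDegree ≤ d) (M : ℕ → ℤ) (i : ℕ) :
    aeval sh h M i = ∑ j ∈ range (d + 1), h.coeff j * M (i + j) := by
  rw [aeval_eq_sum_range' (Nat.lt_succ_of_le hd), LinearMap.sum_apply, Finset.sum_apply]
  exact sum_congr rfl fun j _ => by rw [LinearMap.smul_apply, Pi.smul_apply, sh_pow, smul_eq_mul]

theorem ap_mul (h h' : ℤ[X]) (M : ℕ → ℤ) : aeval sh (h * h') M = aeval sh h (aeval sh h' M) := by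
  rw [map_mul, Module.End.mul_apply]

/-- The linear polynomial with root `(3 / 2) ^ q`. -/
noncomputable def T (q : ℕ) : ℤ[X] := C (2 ^ q) * X - C (3 ^ q)

theorem ap_T (q : ℕ) (M : ℕ → ℤ) (i : ℕ) : aeval sh (T q) M i = 2 ^ q * M (i + 1) - 3 ^ q * M i := by
  simp only [T, map_sub, map_mul, aeval_C, aeval_X, LinearMap.sub_apply, Pi.sub_apply,
    Module.End.mul_apply, Module.algebraMap_end_apply, Pi.smul_apply, smul_eq_mul]
  rfl

theorem cop (a b : ℕ) : IsCoprime ((2 : ℤ) ^ a) (3 ^ b) :=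
  (Int.isCoprime_iff_gcd_eq_one.2 (by norm_num)).pow

theorem two_adic {q L : ℕ} {w : ℕ → ℤ} (h : ∀ i < L, 2 ^ q * w (i + 1) = 3 ^ q * w i)
    (h0 : |w 0| < 2 ^ (q * L)) : ∀ i ≤ L, w i = 0 := by
  have h1 : ∀ i ≤ L, 2 ^ (q * i) * w i = 3 ^ (q * i) * w 0 := fun i hi => by
    induction i with
    | zero => simp
    | succ i ih =>
      rw [Nat.mul_succ, pow_add, pow_add, mul_assoc, h i hi, mul_left_comm, ih (by omega)]
      ring
  have h2 : w 0 = 0 := Int.eq_zero_of_abs_lt_dvd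
    ((cop _ (q * L)).dvd_of_dvd_mul_left ⟨_, (h1 L le_rfl).symm⟩) h0
  intro i hi
  have h3 := h1 i hi
  rw [h2, mul_zero] at h3
  exact (mul_eq_zero.1 h3).resolve_left (by positivity)

attribute [local instance] Matrix.seminormedAddCommGroup in
theorem siegel {L : ℕ} (hL : 0 < L) (D : ℕ → ℤ) {G : ℤ} (hG : 1 ≤ G)
    (hD : ∀ i < 2 * L, |D i| ≤ G) : ∃ h : ℤ[X], h ≠ 0 ∧ h.natDegree ≤ L ∧
      (∀ j, |h.coeff j| ≤ ((L + 1) * G) ^ L) ∧ ∀ i < L, aeval sh h D i = 0 := by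
  let A : Matrix (Fin L) (Fin (L + 1)) ℤ := fun i j => D (i + j)
  obtain ⟨t, h0, h1, h2⟩ := Int.Matrix.exists_ne_zero_int_vec_norm_le A (by simp) (by simpa)
  have hA : max 1 ‖A‖ ≤ (G : ℝ) := max_le (by exact_mod_cast hG)
    ((Matrix.norm_le_iff (by positivity)).2 fun i j => by
      rw [Int.norm_eq_abs]
      exact_mod_cast hD _ (by omega))
  simp only [Fintype.card_fin, Nat.cast_add, Nat.cast_one, add_sub_cancel_left, div_one,
    Real.rpow_natCast] at h2
  have hc : ∀ j : Fin (L + 1), (ofFn (L + 1) t).coeff j = t j := fun j =>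
    ofFn_coeff_eq_val_of_lt t j.2
  have hd : (ofFn (L + 1) t).natDegree ≤ L := Nat.lt_succ_iff.1 (ofFn_natDegree_lt (by omega) t)
  refine ⟨ofFn (L + 1) t, fun e => h0 (funext fun j => by rw [← hc, e]; rfl), hd, fun j => ?_,
    fun i hi => ?_⟩
  · by_cases hj : j < L + 1
    · rw [hc ⟨j, hj⟩]
      have h3 := (norm_le_pi_norm t ⟨j, hj⟩).trans (h2.trans
        (pow_le_pow_left₀ (by positivity) (mul_le_mul_of_nonneg_left hA (by positivity)) L))
      rw [Int.norm_eq_abs] at h3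
      exact_mod_cast h3
    · rw [coeff_eq_zero_of_natDegree_lt (by omega), abs_zero]
      positivity
  · rw [ap_eq hd, Finset.sum_range]
    simp only [hc]
    exact (sum_congr rfl fun j _ => mul_comm _ _).trans (congrFun h1 ⟨i, hi⟩)

theorem divide {q : ℕ} (hq : 0 < q) {h : ℤ[X]} {H : ℤ} (hH : ∀ j, |h.coeff j| ≤ H)
    (h0 : eval (((3 ^ q : ℤ) : ℚ) / (2 ^ q : ℤ)) (h.map (algebraMap ℤ ℚ)) = 0) :
    ∃ h₁, h = T q * h₁ ∧ ∀ j, |h₁.coeff j| ≤ H := by
  have hp : (T q).IsPrimitive := fun r hr => by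
    have h1 := (C_dvd_iff_dvd_coeff _ _).1 hr
    refine (cop q q).isUnit_of_dvd' ?_ ?_
    · have h2 := h1 1
      rwa [T, coeff_sub, coeff_C_mul, coeff_X_one, mul_one, coeff_C_succ, sub_zero] at h2
    · have h2 := h1 0
      rwa [T, coeff_sub, coeff_C_mul, coeff_X_zero, mul_zero, coeff_C_zero, zero_sub, dvd_neg] at h2
  obtain ⟨h₁, rfl⟩ : T q ∣ h := by
    refine hp.dvd_of_fraction_map_dvd_fraction_map (K := ℚ) ?_
    have e : (T q).map (algebraMap ℤ ℚ) =
        C (2 ^ q) * (X - C (((3 ^ q : ℤ) : ℚ) / (2 ^ q : ℤ))) := by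
      rw [mul_sub, ← C_mul, T, Polynomial.map_sub, Polynomial.map_mul, map_C, map_C, map_X]
      congr 2
      · simp
      · push_cast
        field_simp
        simp
    rw [e, (isUnit_C.2 (Ne.isUnit (by positivity))).mul_left_dvd]
    exact dvd_iff_isRoot.2 h0
  refine ⟨h₁, rfl, fun j => ?_⟩
  have h2 : (2 : ℤ) ^ q + 1 ≤ 3 ^ q :=
    pow_lt_pow_left₀ (by norm_num : (2 : ℤ) < 3) (by norm_num) hq.ne'
  have h3 : (0 : ℤ) < 2 ^ q := by positivity
  have h4 : 0 ≤ H := (abs_nonneg _).trans (hH 0)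
  induction j with
  | zero =>
    have h5 := hH 0
    rw [T, sub_mul, mul_assoc, coeff_sub, coeff_C_mul, coeff_C_mul, coeff_X_mul_zero, mul_zero,
      zero_sub, abs_neg, abs_mul, abs_of_pos (by positivity : (0 : ℤ) < 3 ^ q)] at h5
    nlinarith [abs_nonneg (h₁.coeff 0)]
  | succ j ih =>
    have h5 := hH (j + 1)
    rw [T, sub_mul, mul_assoc, coeff_sub, coeff_C_mul, coeff_C_mul, coeff_X_mul] at h5
    have h6 := abs_sub_abs_le_abs_sub (3 ^ q * h₁.coeff (j + 1)) (2 ^ q * h₁.coeff j)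
    rw [abs_sub_comm, abs_mul, abs_mul, abs_of_pos h3,
      abs_of_pos (by positivity : (0 : ℤ) < 3 ^ q)] at h6
    by_contra h7
    nlinarith [abs_nonneg (h₁.coeff j)]

theorem natDegree_T (q : ℕ) : (T q).natDegree = 1 := by
  rw [T, natDegree_sub_C, natDegree_C_mul_X _ (by positivity)]

end Pool.Agent.P.MP_fc15d7_nt.Sq
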