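import Pool.Agent.P.MP_fc15d7_nt.SqA

/-! The block lemma. -/

namespace Pool.Agent.P.MP_fc15d7_nt.Sq

open Polynomial Finset

theorem approx {v : ℕ → ℤ} (hv : ∀ n, |2 * v (n + 1) - 3 * v n| ≤ 1) (n t : ℕ) :
    |2 ^ t * v (n + t) - 3 ^ t * v n| ≤ 3 ^ t - 2 ^ t := by
  induction t with
  | zero => simp
  | succ t ih =>
    have h1 := abs_le.1 (hv (n + t))
    have h2 := abs_le.1 ih
    have h3 : (0 : ℤ) < 2 ^ t := by positivity
    rw [← add_assoc, pow_succ, pow_succ, abs_le]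
    constructor <;> nlinarith

theorem no_digit {v : ℕ → ℤ} {n t : ℕ} (h : ∀ o < t, 2 * v (n + o + 1) = 3 * v (n + o)) :
    2 ^ t * v (n + t) = 3 ^ t * v n := by
  induction t with
  | zero => simp
  | succ t ih =>
    rw [← add_assoc, pow_succ, pow_succ, mul_assoc, h t t.lt_succ_self, mul_left_comm,
      ih fun o ho => h o (by omega)]
    ring

/-- A short recurrence of small height for the digits. -/
structure Good (g L₁ : ℕ) (M : ℕ → ℤ) (h : ℤ[X]) (L : ℕ) : Prop where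
  ne : h ≠ 0
  le : L₁ ≤ L
  deg : h.natDegree ≤ L
  ht : ∀ j, |h.coeff j| ≤ 9 ^ (g * L)
  rel : ∀ i < L, aeval sh (T (16 * g) * h) M i = 0

section

variable {g L₁ L : ℕ} {M : ℕ → ℤ} {h : ℤ[X]}
  (hM : ∀ i j, |(M (i + j) : ℚ) - ((3 / 2) ^ (16 * g)) ^ j * M i| ≤ ((3 / 2) ^ (16 * g)) ^ j)

theorem succ_le (hg : 0 < g) (L : ℕ) : (L + 1 : ℚ) ≤ 3 ^ (g * L) := by
  have h1 : L < 3 ^ (g * L) :=
    (Nat.lt_pow_self (by norm_num)).trans_le
      (Nat.pow_le_pow_right (by norm_num) (Nat.le_mul_of_pos_left L hg))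
  exact_mod_cast h1

include hM

theorem Good.zero (hg : 0 < g) (hL : 0 < L₁) (hB : |M 0| + 1 ≤ 3 ^ (g * L₁))
    (H : Good g L₁ M h L) : ∀ i ≤ L, aeval sh h M i = 0 := by
  refine two_adic (q := 16 * g) (fun i hi => ?_) ?_
  · have := H.rel i hi
    rwa [ap_mul, ap_T, sub_eq_zero] at this
  have h1 : ∀ j ∈ range (L + 1), |((h.coeff j * M (0 + j) : ℤ) : ℚ)| ≤
      9 ^ (g * L) * (((3 / 2) ^ (16 * g)) ^ L * 3 ^ (g * L)) := fun j hj => by
    have h2 := abs_sub_abs_le_abs_sub (M (0 + j) : ℚ) (((3 / 2) ^ (16 * g)) ^ j * M 0)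
    have h3 : (|M 0| : ℚ) + 1 ≤ 3 ^ (g * L) := le_trans (by exact_mod_cast hB)
      (pow_le_pow_right₀ (by norm_num) (Nat.mul_le_mul_left g H.le))
    have h4 : (((3 / 2 : ℚ)) ^ (16 * g)) ^ j ≤ ((3 / 2) ^ (16 * g)) ^ L :=
      pow_le_pow_right₀ (one_le_pow₀ (by norm_num)) (Nat.lt_succ_iff.1 (mem_range.1 hj))
    rw [abs_mul, abs_of_pos (by positivity : (0 : ℚ) < ((3 / 2) ^ (16 * g)) ^ j)] at h2
    rw [Int.cast_mul, abs_mul]
    refine mul_le_mul (by exact_mod_cast H.ht j) (le_trans ?_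
      (mul_le_mul h4 h3 (by positivity) (by positivity))) (abs_nonneg _) (by positivity)
    linarith [hM 0 j]
  have h2 := (abs_sum_le_sum_abs _ _).trans (sum_le_card_nsmul _ _ _ h1)
  rw [← Int.cast_sum, ← ap_eq H.deg, card_range, nsmul_eq_mul, Nat.cast_succ] at h2
  have h3 : (3 * 9 * (3 / 2) ^ 16 * 3 : ℚ) ^ (g * L) < (2 ^ 16) ^ (g * L) :=
    pow_lt_pow_left₀ (by norm_num) (by norm_num) (Nat.mul_pos hg (hL.trans_le H.le)).ne'
  have h4 : (|(aeval sh h M 0 : ℤ)| : ℚ) < 2 ^ (16 * g * L) := by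
    refine h2.trans_lt (((mul_le_mul_of_nonneg_right (succ_le hg L) (by positivity)).trans_eq
      ?_).trans_lt (h3.trans_eq ?_))
    · rw [mul_pow, mul_pow, mul_pow, ← pow_mul, ← pow_mul, mul_assoc 16]
      ring
    · rw [← pow_mul, mul_assoc]
  exact_mod_cast h4

theorem Good.bound (hg : 0 < g) (hL : 0 < L₁) (hl : ∀ i, ((3 / 2 : ℚ) ^ (16 * g)) ^ i ≤ M i)
    (H : Good g L₁ M h L) (hd : h.natDegree ≤ L₁)
    (h0 : eval (((3 ^ (16 * g) : ℤ) : ℚ) / (2 ^ (16 * g) : ℤ)) (h.map (algebraMap ℤ ℚ)) ≠ 0)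
    {V : ℕ} (hV : L ≤ V) (hw : aeval sh h M V = 0) : V < 8 * L₁ := by
  have h1 := one_le_pow_mul_abs_eval_div (by positivity) h0
  have e : (((3 ^ (16 * g) : ℤ) : ℚ) / (2 ^ (16 * g) : ℤ)) = (3 / 2) ^ (16 * g) := by
    push_cast
    rw [div_pow]
  rw [e, eval_map_algebraMap, aeval_eq_sum_range] at h1
  obtain ⟨b, hb⟩ : ∃ b : ℚ, b = (3 / 2) ^ (16 * g) := ⟨_, rfl⟩
  have hb1 : 1 ≤ b := hb ▸ one_le_pow₀ (by norm_num)
  have h2 : ∀ j ∈ range (h.natDegree + 1), |(h.coeff j : ℚ) * (b ^ j * M V - M (V + j))| ≤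
      9 ^ (g * V) * b ^ h.natDegree := fun j hj => by
    rw [abs_mul, abs_sub_comm]
    refine mul_le_mul (le_trans (by exact_mod_cast H.ht j)
      (pow_le_pow_right₀ (by norm_num) (Nat.mul_le_mul_left g hV))) ((hb ▸ hM V j).trans
        (pow_le_pow_right₀ hb1 (Nat.lt_succ_iff.1 (mem_range.1 hj)))) (abs_nonneg _) (by positivity)
  have h3 := (abs_sum_le_sum_abs _ _).trans (sum_le_card_nsmul _ _ _ h2)
  have h4 : ∑ j ∈ range (h.natDegree + 1), (h.coeff j : ℚ) * M (V + j) = 0 := by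
    rw [ap_eq le_rfl] at hw
    exact_mod_cast hw
  have h5 : ∑ j ∈ range (h.natDegree + 1), (h.coeff j : ℚ) * (b ^ j * M V - M (V + j)) =
      (∑ j ∈ range (h.natDegree + 1), h.coeff j • b ^ j) * M V := by
    simp only [mul_sub, sum_sub_distrib, h4, sub_zero, sum_mul, zsmul_eq_mul, mul_assoc]
  have h6 := hl V
  rw [← hb] at h1 h6
  rw [h5, abs_mul, abs_of_nonneg ((by positivity : (0 : ℚ) ≤ b ^ V).trans h6), card_range,
    nsmul_eq_mul, Nat.cast_succ] at h3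
  have h7 : (h.natDegree + 1 : ℚ) ≤ 3 ^ (g * V) := le_trans
    (by exact_mod_cast Nat.succ_le_succ (H.deg.trans hV)) (succ_le hg V)
  by_contra hc
  have h8 : (((2 ^ (16 * g) : ℤ) : ℚ) * b) ^ h.natDegree ≤ 9 ^ (g * V) := by
    rw [show ((2 ^ (16 * g) : ℤ) : ℚ) * b = 9 ^ (8 * g) by
      rw [hb, Int.cast_pow, ← mul_pow, show (9 : ℚ) = 3 ^ 2 by norm_num, ← pow_mul]
      norm_num
      ring, ← pow_mul]
    exact pow_le_pow_right₀ (by norm_num) (by nlinarith)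
  have h9 : (3 * 9 * 9 : ℚ) ^ (g * V) < ((3 / 2) ^ 16) ^ (g * V) :=
    pow_lt_pow_left₀ (by norm_num) (by norm_num) (Nat.mul_pos hg (by omega)).ne'
  rw [← pow_mul, ← mul_assoc 16, pow_mul _ (16 * g), ← hb] at h9
  refine (h9.trans_le h6).not_ge ?_
  have h10 : (0 : ℚ) ≤ ((2 ^ (16 * g) : ℤ) : ℚ) ^ h.natDegree := by positivity
  calc (M V : ℚ) ≤ (((2 ^ (16 * g) : ℤ) : ℚ) ^ h.natDegree *
        |∑ j ∈ range (h.natDegree + 1), h.coeff j • b ^ j|) * M V :=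
        le_mul_of_one_le_left ((by positivity : (0 : ℚ) ≤ b ^ V).trans h6) h1
    _ ≤ ((2 ^ (16 * g) : ℤ) : ℚ) ^ h.natDegree *
        (3 ^ (g * V) * (9 ^ (g * V) * b ^ h.natDegree)) := by
        rw [mul_assoc]
        exact mul_le_mul_of_nonneg_left
          (h3.trans (mul_le_mul_of_nonneg_right h7 (by positivity))) h10
    _ = 3 ^ (g * V) * 9 ^ (g * V) * (((2 ^ (16 * g) : ℤ) : ℚ) * b) ^ h.natDegree := by
        rw [mul_pow]
        ring
    _ ≤ 3 ^ (g * V) * 9 ^ (g * V) * 9 ^ (g * V) := mul_le_mul_of_nonneg_left h8 (by positivity)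
    _ = _ := by rw [mul_pow, mul_pow]

theorem core (hg : 0 < g) (hL : 0 < L₁) (hB : |M 0| + 1 ≤ 3 ^ (g * L₁))
    (hl : ∀ i, ((3 / 2 : ℚ) ^ (16 * g)) ^ i ≤ M i)
    (hex : ∀ L, L₁ ≤ L → L ≤ 8 * L₁ → ∃ h, Good g L₁ M h L) : False := by
  classical
  have h0 : ∃ d, ∃ h L, Good g L₁ M h L ∧ h.natDegree = d :=
    (hex L₁ le_rfl (by omega)).elim fun h H => ⟨_, h, L₁, H, rfl⟩
  obtain ⟨h, L, H, hd⟩ := Nat.find_spec h0
  have hmin : ∀ h' L', Good g L₁ M h' L' → h.natDegree ≤ h'.natDegree := fun h' L' H' =>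
    hd ▸ Nat.find_min' h0 ⟨h', L', H', rfl⟩
  have hz := H.zero hM hg hL hB
  by_cases hr : eval (((3 ^ (16 * g) : ℤ) : ℚ) / (2 ^ (16 * g) : ℤ)) (h.map (algebraMap ℤ ℚ)) = 0
  · obtain ⟨h₁, rfl, h1⟩ := divide (by omega) H.ht hr
    have h2 : h₁ ≠ 0 := right_ne_zero_of_mul H.ne
    have h3 := natDegree_mul (left_ne_zero_of_mul H.ne) h2
    rw [natDegree_T] at h3
    have := hmin h₁ L ⟨h2, H.le, by have := H.deg; omega, h1, fun i hi => hz i hi.le⟩
    omega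
  have hd1 : h.natDegree ≤ L₁ :=
    (hex L₁ le_rfl (by omega)).elim fun h' H' => (hmin h' _ H').trans H'.deg
  have hb := fun V => H.bound hM hg hL hl hd1 hr (V := V)
  have h1 : ∃ V, aeval sh h M V ≠ 0 := ⟨L + 8 * L₁, fun e => by
    have := hb _ (by omega) e
    omega⟩
  have h2 := Nat.find_spec h1
  have h3 := fun V => Nat.find_min h1 (m := V)
  generalize Nat.find h1 = V at h2 h3
  have h4 : L < V := not_le.1 fun e => h2 (hz V e)
  have h5 := hb (V - 1) (by omega) (not_not.1 (h3 _ (by omega)))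
  obtain ⟨h', H'⟩ := hex V (H.le.trans h4.le) (by omega)
  have h6 := hmin h' V H'
  have h7 := H'.deg
  have e := congrFun ((ap_mul h h' M).symm.trans (mul_comm h h' ▸ ap_mul h' h M))
    (V - h'.natDegree)
  rw [ap_eq le_rfl, sum_eq_zero, ap_eq (h := h') le_rfl, sum_range_succ, sum_eq_zero, zero_add,
    Nat.sub_add_cancel h7] at e
  · exact mul_ne_zero (leadingCoeff_ne_zero.2 H'.ne) h2 e.symm
  · intro j hj
    rw [not_not.1 (h3 _ (by have := mem_range.1 hj; omega)), mul_zero]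
  · intro j hj
    rw [H'.zero hM hg hL hB _ (by have := mem_range.1 hj; omega), mul_zero]

end

/-- The digits cannot all lie in the first sixteenth of the blocks. -/
theorem block {v : ℕ → ℤ} (hv : ∀ n, |2 * v (n + 1) - 3 * v n| ≤ 1) (h2 : 2 ≤ v 0) {g L₁ : ℕ}
    (hg : 8 * L₁ + 1 ≤ 3 ^ g) (hL : 0 < L₁) (hB : v 0 + 1 ≤ 3 ^ (g * L₁))
    (hz : ∀ i < 16 * L₁, ∀ o < 15 * g,
      2 * v (16 * g * i + g + o + 1) = 3 * v (16 * g * i + g + o)) : False := by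
  have hg0 : 0 < g := Nat.pos_of_ne_zero fun e => by
    rw [e] at hg
    omega
  have hq : ∀ n t, |(v (n + t) : ℚ) - (3 / 2) ^ t * v n| ≤ (3 / 2) ^ t := fun n t => by
    have h1 : |(2 : ℚ) ^ t * v (n + t) - 3 ^ t * v n| ≤ 3 ^ t - 2 ^ t := by
      exact_mod_cast approx hv n t
    have h3 : (0 : ℚ) < 2 ^ t := by positivity
    rw [div_pow, show (v (n + t) : ℚ) - 3 ^ t / 2 ^ t * v n =
      (2 ^ t * v (n + t) - 3 ^ t * v n) / 2 ^ t by field_simp, abs_div, abs_of_pos h3]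
    exact div_le_div_of_nonneg_right (by linarith) h3.le
  refine core (M := fun i => v (16 * g * i)) (g := g) (L₁ := L₁) (fun i j => ?_) hg0 hL
    (by simpa [abs_of_nonneg (by omega : 0 ≤ v 0)] using hB) (fun i => ?_) fun L h1 h3 => ?_
  · rw [← pow_mul, mul_add]
    exact hq _ _
  · have h1 := (abs_le.1 (hq 0 (16 * g * i))).1
    have h3 : (2 : ℚ) ≤ v 0 := by exact_mod_cast h2
    have h4 : (0 : ℚ) < (3 / 2) ^ (16 * g * i) := by positivity
    rw [← pow_mul]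
    rw [zero_add] at h1
    nlinarith
  obtain ⟨h, h4, h5, h6, h7⟩ := siegel (hL.trans_le h1)
    (fun i => 2 ^ g * v (16 * g * i + g) - 3 ^ g * v (16 * g * i)) (G := 3 ^ g)
    (one_le_pow₀ (by norm_num)) fun i _ =>
      (approx hv (16 * g * i) g).trans (sub_le_self _ (by positivity))
  refine ⟨h, h4, h1, h5, fun j => (h6 j).trans ?_, fun i hi => ?_⟩
  · rw [pow_mul, show (9 : ℤ) = 3 * 3 by norm_num, mul_pow 3 3 g]
    have h8 : (L + 1 : ℤ) ≤ 3 ^ g := by exact_mod_cast (by omega : L + 1 ≤ 3 ^ g)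
    gcongr
  · have h8 := h7 i hi
    rw [ap_eq h5] at h8
    rw [mul_comm, ap_mul, ap_eq h5, ← mul_zero ((3 : ℤ) ^ (15 * g)), ← h8, mul_sum]
    refine sum_congr rfl fun j hj => ?_
    have h9 := no_digit (hz (i + j) (by have := mem_range.1 hj; omega))
    rw [ap_T, show 16 * g * (i + j + 1) = 16 * g * (i + j) + g + 15 * g by ring,
      show (2 : ℤ) ^ (16 * g) = 2 ^ g * 2 ^ (15 * g) by ring, mul_assoc, h9]
    ring

end Pool.Agent.P.MP_fc15d7_nt.Sq
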