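import Pool.Agent.P.MP_fc15d7_nt.SqB

/-! Every window `[P, 4096 P)` contains logarithmically many nonzero digits. -/

namespace Pool.Agent.P.MP_fc15d7_nt.Sq

open Finset Filter

theorem dirichlet (A : Finset ℕ) (f : ℕ → ℕ) {P : ℕ} (hP : 0 < P) : ∃ t : ℕ, 0 < t ∧
    t ≤ 64 ^ A.card ∧ ∀ a ∈ A, ∃ b : ℕ, |(t * f a : ℤ) - P * b| * 64 < P := by
  classical
  let F : Fin (64 ^ A.card + 1) → A → Fin 64 := fun j a => ⟨j * f a % P * 64 / P,
    Nat.div_lt_of_lt_mul (Nat.mul_lt_mul_of_pos_right (Nat.mod_lt _ hP) (by norm_num))⟩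
  have key : ∀ j j', j < j' → F j = F j' → ∃ t : ℕ, 0 < t ∧
      t ≤ 64 ^ A.card ∧ ∀ a ∈ A, ∃ b : ℕ, |(t * f a : ℤ) - P * b| * 64 < P := fun j j' h e => by
    have h' : (j : ℕ) < j' := h
    refine ⟨j' - j, by omega, by omega, fun a ha => ⟨j' * f a / P - j * f a / P, ?_⟩⟩
    have h1 : j * f a % P * 64 / P = j' * f a % P * 64 / P := congrArg Fin.val (congrFun e ⟨a, ha⟩)
    have h2 := Nat.div_add_mod (j * f a % P * 64) P
    have h3 := Nat.div_add_mod (j' * f a % P * 64) P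
    have h4 := Nat.mod_lt (j * f a % P * 64) hP
    have h5 := Nat.mod_lt (j' * f a % P * 64) hP
    have h6 : ((P * (j * f a / P) + j * f a % P : ℕ) : ℤ) = (j * f a : ℕ) :=
      congrArg _ (Nat.div_add_mod _ P)
    have h7 : ((P * (j' * f a / P) + j' * f a % P : ℕ) : ℤ) = (j' * f a : ℕ) :=
      congrArg _ (Nat.div_add_mod _ P)
    rw [Nat.cast_sub h'.le, Nat.cast_sub (Nat.div_le_div_right (Nat.mul_le_mul_right _ h'.le)),
      sub_mul, mul_sub, ← Nat.cast_mul, ← Nat.cast_mul, ← Nat.cast_mul, ← Nat.cast_mul, ← h6, ← h7]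
    rw [h1] at h2
    rw [show ∀ z : ℤ, |z| * 64 = |z * 64| from fun z => by rw [abs_mul]; rfl, abs_lt]
    omega
  obtain ⟨j, j', h, e⟩ := Fintype.exists_ne_map_eq_of_card_lt F (by simp)
  rcases lt_or_gt_of_ne h with h | h
  exacts [key j j' h e, key j' j h e.symm]

theorem window {u : ℕ → ℤ} (hu : ∀ n, |2 * u (n + 1) - 3 * u n| ≤ 1) {P : ℕ}
    (hP : ∀ n, P ≤ n → n ≤ 2 * P → 2 ≤ u n ∧ u n + 1 ≤ 3 ^ P) :
    P < 4096 ^ (((Ico P (4096 * P)).filter fun n => 2 * u (n + 1) ≠ 3 * u n).card + 2) := by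
  by_contra hc
  obtain ⟨A, hA⟩ : ∃ A, A = (Ico P (4096 * P)).filter fun n => 2 * u (n + 1) ≠ 3 * u n := ⟨_, rfl⟩
  rw [← hA, not_lt] at hc
  have hP0 : 0 < P := lt_of_lt_of_le (by positivity) hc
  obtain ⟨t, ht, htJ, h⟩ := dirichlet A (· - P) hP0
  have h1 : 16 * t * (2 ^ 20 * t) ≤ P := by
    refine le_trans ?_ hc
    rw [pow_add, show (4096 : ℕ) = 64 * 64 by norm_num, mul_pow 64 64 A.card]
    nlinarith [Nat.mul_le_mul htJ htJ]
  obtain ⟨g, hg⟩ : ∃ g, g = P / (16 * t) := ⟨_, rfl⟩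
  have h2 : 2 ^ 20 * t ≤ g := hg ▸ (Nat.le_div_iff_mul_le (by omega)).2 (mul_comm (16 * t) _ ▸ h1)
  have h3 : 16 * t * g ≤ P := hg ▸ Nat.mul_div_le _ _
  have h4 : P < 16 * t * (g + 1) := hg ▸ Nat.lt_mul_div_succ _ (by omega)
  have h5 : 16 * g ≤ P := by nlinarith
  have h6 : P < g * (P / g + 1) := Nat.lt_mul_div_succ _ (by omega)
  have h7 : g * (P / g) ≤ P := Nat.mul_div_le _ _
  have h8 : P / g ≤ 32 * t := Nat.div_le_of_le_mul (by nlinarith)
  obtain ⟨h9, h10⟩ := hP (P + 16 * g - g / 2) (by omega) (by omega)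
  refine block (v := fun n => u (P + 16 * g - g / 2 + n)) (g := g) (L₁ := P / g + 1)
    (fun n => hu _) h9 (le_trans (by omega) (Nat.lt_pow_self (by norm_num : 1 < 3)).le)
    (Nat.succ_pos _) (h10.trans (pow_le_pow_right₀ (by norm_num) h6.le)) fun i hi o ho => ?_
  by_contra hn
  have h11 : g * i ≤ g * (16 * (P / g + 1)) := Nat.mul_le_mul_left _ hi.le
  obtain ⟨a, ha⟩ : ∃ a, a = 16 * g - g / 2 + (16 * g * i + g + o) := ⟨_, rfl⟩
  have h12 : a ≤ 1000 * P := by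
    rw [mul_left_comm, mul_add] at h11
    rw [ha, mul_assoc]
    omega
  obtain ⟨b, hb⟩ := h (P + a) (by
    rw [hA, mem_filter, mem_Ico]
    refine ⟨⟨by omega, by omega⟩, ?_⟩
    rw [show P + a = P + 16 * g - g / 2 + (16 * g * i + g + o) by omega]
    exact hn)
  simp only [Nat.add_sub_cancel_left] at hb
  rw [show ∀ z : ℤ, |z| * 64 = |z * 64| from fun z => by rw [abs_mul]; rfl, abs_lt] at hb
  have ht' : (0 : ℤ) < t := by exact_mod_cast ht
  have h13 : b ≤ 1000 * t := by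
    by_contra h14
    have h15 : (1000 * t + 1 : ℤ) ≤ b := by omega
    have h16 : (a : ℤ) ≤ 1000 * P := by omega
    have h17 : (0 : ℤ) < P := by omega
    nlinarith [hb.1]
  have h3' : (16 * t * g : ℤ) ≤ P := by exact_mod_cast h3
  have h4' : (P : ℤ) < 16 * t * (g + 1) := by exact_mod_cast h4
  have hb0 : (0 : ℤ) ≤ b := by positivity
  have h14 : -(g + 1 : ℤ) < 4 * (a - 16 * g * b) := by
    by_contra hh
    linarith [hb.1, mul_le_mul_of_nonneg_left (not_lt.1 hh) ht'.le,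
      mul_le_mul_of_nonneg_right h3' hb0]
  have h15 : 4 * (a - 16 * g * b : ℤ) < g + 1 + 64 * b := by
    by_contra hh
    linarith [hb.2, mul_le_mul_of_nonneg_left (not_lt.1 hh) ht'.le,
      mul_le_mul_of_nonneg_right h4'.le hb0]
  have h16 : (a : ℤ) = 16 * g - (g / 2 : ℕ) + (16 * g * i + g + o) := by
    rw [ha]
    push_cast [Nat.cast_sub (by omega : g / 2 ≤ 16 * g)]
    ring
  rcases le_or_gt b (i + 1) with h17 | h17
  · have h18 : (g * b : ℤ) ≤ g * i + g := by exact_mod_cast Nat.mul_le_mul_left g h17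
    rw [mul_assoc] at h15 h16
    omega
  · have h18 : (g * (i + 2) : ℤ) ≤ g * b := by exact_mod_cast Nat.mul_le_mul_left g h17
    rw [mul_assoc] at h14 h16
    rw [mul_add] at h18
    omega

/-- The map of the problem. -/
def U (m : ℕ) : ℕ := 3 * m / 2 + 1

theorem U_succ (x n : ℕ) : U^[n + 1] x = 3 * U^[n] x / 2 + 1 := Function.iterate_succ_apply' U n x

theorem U_mono (x : ℕ) : StrictMono fun n => U^[n] x := strictMono_nat_of_lt_succ fun n => by
  rw [U_succ]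
  omega

theorem U_le (x n : ℕ) : (U^[n] x + 2 : ℚ) ≤ (3 / 2) ^ n * (x + 2) := by
  induction n with
  | zero => simp
  | succ n ih =>
    have h : 2 * (U^[n + 1] x + 2) ≤ 3 * (U^[n] x + 2) := by
      rw [U_succ]
      omega
    have h' : (2 : ℚ) * (U^[n + 1] x + 2) ≤ 3 * (U^[n] x + 2) := by exact_mod_cast h
    rw [pow_succ]
    linarith

theorem changes {x a Q : ℕ} (ha : 0 < a) (haQ : a ≤ Q) (hx : x + 2 ≤ 2 ^ Q) : 4 * Q < 4096 ^
    (((Ico (4 * Q) (4096 * (4 * Q))).filter fun i => U^[i + a] x % 2 ≠ U^[i] x % 2).card + 2) := by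
  have h := window (u := fun n => (U^[n + a] x : ℤ) - U^[n] x) (P := 4 * Q) (fun n => by
    rw [Nat.add_right_comm, U_succ, U_succ, abs_le]
    omega) fun n h1 h2 => by
    have h3 : U^[n + 1] x ≤ U^[n + a] x := (U_mono x).monotone (by omega)
    have h4 : n ≤ U^[n] x := (U_mono x).le_apply
    rw [U_succ] at h3
    refine ⟨by omega, ?_⟩
    have h5 : (x + 2 : ℚ) ≤ 2 ^ Q := by exact_mod_cast hx
    have h6 : (U^[n + a] x + 2 : ℚ) ≤ 3 ^ (4 * Q) := by
      refine (U_le x _).trans ((mul_le_mul (pow_le_pow_right₀ (by norm_num)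
        (by omega : n + a ≤ 9 * Q)) h5 (by positivity) (by positivity)).trans ?_)
      rw [pow_mul, pow_mul, ← mul_pow]
      exact pow_le_pow_left₀ (by norm_num) (by norm_num) Q
    have h7 : (U^[n + a] x + 2 : ℤ) ≤ 3 ^ (4 * Q) := by exact_mod_cast h6
    omega
  refine h.trans_eq (congrArg (fun s : Finset ℕ => 4096 ^ (s.card + 2)) (filter_congr fun n _ => ?_))
  rw [Nat.add_right_comm, U_succ, U_succ]
  omega

theorem count {p : ℕ → Prop} [DecidablePred p] {h : ℕ}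
    (H : ∀ i, h < i → 4096 ^ i < 4096 ^ (((Ico (4096 ^ i) (4096 * 4096 ^ i)).filter p).card + 2))
    (j : ℕ) : j * h ≤ ((range (4096 ^ (h + 1 + j))).filter p).card := by
  induction j with
  | zero => simp
  | succ j ih =>
    have h1 := (Nat.pow_lt_pow_iff_right (by norm_num)).1 (H (h + 1 + j) (by omega))
    rw [← add_assoc, pow_succ', range_eq_Ico, ← Ico_union_Ico_eq_Ico (Nat.zero_le (4096 ^ (h + 1 + j)))
      (by omega), filter_union, card_union_of_disjoint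
      (disjoint_filter_filter (Ico_disjoint_Ico_consecutive _ _ _)), ← range_eq_Ico, Nat.succ_mul]
    omega

theorem final (x : ℕ) : ∀ᶠ k : ℕ in atTop, ∀ a : ℕ, 0 < a → a ^ 2 ≤ k → Real.log k ^ 2 / 600 ≤
    (((range k).filter fun i => U^[i + a] x % 2 ≠ U^[i] x % 2).card : ℝ) := by
  filter_upwards [eventually_ge_atTop (4096 ^ (2 * x + 10))] with k hk a ha hak
  have hk0 : k ≠ 0 := (lt_of_lt_of_le (by positivity) hk).ne'
  have h1 := Nat.pow_log_le_self 4096 hk0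
  have h2 := Nat.lt_pow_succ_log_self (by norm_num : 1 < 4096) k
  have h3 : 2 * x + 10 ≤ Nat.log 4096 k := Nat.le_log_of_pow_le (by norm_num) hk
  generalize Nat.log 4096 k = I at h1 h2 h3
  have h4 := count (p := fun i => U^[i + a] x % 2 ≠ U^[i] x % 2) (h := I / 2 + 1) (fun i hi => by
    obtain ⟨i, rfl⟩ : ∃ i', i = i' + 1 := ⟨i - 1, by omega⟩
    have h5 : a < 4096 ^ i := lt_of_pow_lt_pow_left₀ 2 (by positivity) (hak.trans_lt (h2.trans_le
      (by rw [← pow_mul]; exact Nat.pow_le_pow_right (by norm_num) (by omega))))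
    have h6 : i < 4096 ^ i := Nat.lt_pow_self (by norm_num)
    rw [show 4096 ^ (i + 1) = 4 * (1024 * 4096 ^ i) by ring]
    exact changes ha (by omega) (le_trans (by omega) Nat.lt_two_pow_self.le)) (I / 2 - 2)
  have h5 := h4.trans (card_le_card (filter_subset_filter _ (range_subset_range.2
    ((Nat.pow_le_pow_right (by norm_num) (by omega)).trans h1))))
  have h6 : (I + 1) ^ 2 ≤ 8 * ((I / 2 - 2) * (I / 2 + 1)) := by
    obtain ⟨h, hh⟩ : ∃ h, I / 2 = h + 2 := ⟨I / 2 - 2, by omega⟩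
    have h7 : I + 1 ≤ 2 * h + 6 := by omega
    have h8 : 3 ≤ h := by omega
    rw [hh, Nat.add_sub_cancel]
    nlinarith [Nat.pow_le_pow_left h7 2]
  have h7 : Real.log k ≤ (I + 1) * (12 * 0.7) := by
    have h8 : Real.log k ≤ Real.log ((2 ^ 12) ^ (I + 1)) :=
      Real.log_le_log (by positivity) (by exact_mod_cast h2.le)
    rw [Real.log_pow, Real.log_pow] at h8
    push_cast at h8
    exact h8.trans (by gcongr; linarith [Real.log_two_lt_d9])
  have h8 : ((I : ℝ) + 1) ^ 2 ≤ 8 *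
      (((range k).filter fun i => U^[i + a] x % 2 ≠ U^[i] x % 2).card : ℝ) := by
    exact_mod_cast h6.trans (Nat.mul_le_mul_left 8 h5)
  have h9 := pow_le_pow_left₀ (Real.log_natCast_nonneg k) h7 2
  nlinarith [sq_nonneg ((I : ℝ) + 1)]

end Pool.Agent.P.MP_fc15d7_nt.Sq
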