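import Pool.Agent.P.MP_fc15d7_nt.Iface

/-! A reduced basis of the lattice of a box and its limiting exponents. -/

set_option autoImplicit false

open Matrix Filter

namespace Pool.Agent.P.MP_fc15d7_nt

theorem bas_cramer {D : ℕ} (M : Matrix (Fin D) (Fin D) ℝ) (μ : Fin D → ℝ) {K : ℝ} (hK : 1 ≤ K)
    (h0 : ∀ j, 0 < μ j) (h1 : ∏ j, μ j = |M.det|) (h2 : ∀ i j, |M i j| ≤ K * μ j)
    (a : Fin D → ℝ) (h3 : ∀ i, |(M *ᵥ a) i| ≤ 1) (j : Fin D) :
    μ j * |a j| ≤ D.factorial * K ^ D := by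
  have h4 : (M.updateCol j (μ j • M *ᵥ a)).det = μ j * (M.det * a j) := by
    rw [← cramer_apply, map_smul, cramer_eq_adjugate_mulVec, mulVec_mulVec, adjugate_mul,
      smul_mulVec, one_mulVec]
    rfl
  have h5 := abs_det_le (M.updateCol j (μ j • M *ᵥ a)) (M := ∏ j, K * μ j) fun σ =>
    Finset.prod_le_prod (fun _ _ => abs_nonneg _) fun j' _ => by
      rw [updateCol_apply]
      split_ifs with h
      · rw [h, Pi.smul_apply, smul_eq_mul, abs_mul, abs_of_pos (h0 j), mul_comm]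
        exact mul_le_mul_of_nonneg_right ((h3 _).trans hK) (h0 j).le
      · exact h2 _ _
  rw [h4, abs_mul, abs_mul, abs_of_pos (h0 j), ← h1, Finset.prod_mul_distrib, Finset.prod_const,
    Finset.card_univ, Fintype.card_fin] at h5
  exact le_of_mul_le_mul_left (by linarith) (Finset.prod_pos (s := Finset.univ) fun j _ => h0 j)

theorem bas_one (hREDU : S_REDU) (hLAT : S_LAT) {D : ℕ} {κ : Type} [Fintype κ] {p : κ → ℕ}
    {L0 : Matrix (Fin D) (Fin D) ℤ} {L : κ → Matrix (Fin D) (Fin D) ℤ} (c : Fin D → ℝ)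
    {k : κ → Fin D → ℝ} (hS : Sys p L0 L) (hk : ∀ v i, 0 ≤ k v i) :
    ∃ K C : ℝ, 1 ≤ K ∧ ∀ t : ℝ, ∃ (Y : Matrix (Fin D) (Fin D) ℤ) (μ : Fin D → ℝ),
      Y.det ≠ 0 ∧ (∀ v i j, (p v : ℤ) ^ ex (p v) (k v i) t ∣ (L v * Y) i j) ∧ (∀ j, 0 < μ j) ∧
      (∀ i j, |(((L0 * Y) i j : ℤ) : ℝ)| ≤ Real.exp (c i * t) * (K * μ i) ∧
        |(((L0 * Y) i j : ℤ) : ℝ)| ≤ Real.exp (c i * t) * (K * μ j)) ∧
      (0 ≤ t → |∑ j, Real.log (μ j) - (∑ v, ∑ i, k v i - ∑ i, c i) * t| ≤ C) ∧
      ∀ x, InBox p L0 L c k t x →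
        ∃ a : Fin D → ℤ, x = Y *ᵥ a ∧ ∀ j, D.factorial * K ^ D < μ j → a j = 0 := by
  obtain ⟨K, hK, hR⟩ := hREDU D
  have hp : ∀ v, 0 < p v := fun v => lt_of_lt_of_le two_pos (hS.two_le v)
  refine ⟨K, |Real.log (|(L0.det : ℝ)|)| + |Real.log (|((∏ v, (L v).det : ℤ) : ℝ)|)| +
    |Real.log (∏ s : κ × Fin D, (p s.1 : ℝ))|, hK, fun t => ?_⟩
  obtain ⟨B, b1, b2, b3, b4⟩ := hLAT D (κ × Fin D) (fun s => p s.1 ^ ex (p s.1) (k s.1 s.2) t)
    (fun s => L s.1 s.2) fun s => pow_pos (hp _) _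
  simp only [Nat.cast_pow] at b2 b3 b4
  have l0 : (0 : ℝ) < |(L0.det : ℝ)| := abs_pos.2 (Int.cast_ne_zero.2 hS.det0)
  have b0 : (0 : ℝ) < |(B.det : ℝ)| := abs_pos.2 (Int.cast_ne_zero.2 b1)
  let A := diagonal (fun i => Real.exp (-(c i * t))) * (L0 * B).map (Int.cast : ℤ → ℝ)
  have hA : |A.det| = Real.exp (-((∑ i, c i) * t)) * (|(L0.det : ℝ)| * |(B.det : ℝ)|) := by
    rw [det_mul, det_diagonal, ← Real.exp_sum, ← Int.cast_det, det_mul, Int.cast_mul, abs_mul,
      abs_mul, abs_of_pos (Real.exp_pos _), Finset.sum_neg_distrib, Finset.sum_mul]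
  obtain ⟨V, μ, hV, m0, m1, m2⟩ := hR A (abs_pos.1 (by rw [hA]; positivity))
  have e : A * V.map (Int.cast : ℤ → ℝ) =
      diagonal (fun i => Real.exp (-(c i * t))) * (L0 * (B * V)).map (Int.cast : ℤ → ℝ) := by
    rw [Matrix.mul_assoc, ← Matrix.mul_assoc L0, Matrix.map_mul_intCast (L0 * B)]
  have key : ∀ (i : Fin D) (y z : ℝ), |Real.exp (-(c i * t)) * y| ≤ z ↔
      |y| ≤ Real.exp (c i * t) * z := fun i y z => by
    rw [abs_mul, abs_of_pos (Real.exp_pos _), Real.exp_neg, inv_mul_le_iff₀ (Real.exp_pos _)]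
  refine ⟨B * V, μ, det_mul B V ▸ mul_ne_zero b1 hV.ne_zero, fun v i j => ?_, m0, fun i j => ?_,
    fun ht => ?_, fun x hx => ?_⟩
  · rw [← Matrix.mul_assoc, mul_apply]
    exact Finset.dvd_sum fun l _ => (b3 (v, i) l).mul_right _
  · have h := m2 i j
    rwa [e, diagonal_mul, key, key] at h
  · have h1 : ∑ j, Real.log (μ j) = -((∑ i, c i) * t) +
        (Real.log |(L0.det : ℝ)| + Real.log |(B.det : ℝ)|) := by
      rw [← Real.log_prod fun j _ => (m0 j).ne', m1, hA, Real.log_mul (Real.exp_ne_zero _)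
        (by positivity), Real.log_mul l0.ne' b0.ne', Real.log_exp]
    have h2 : |(B.det : ℝ)| ≤
        (∏ s : κ × Fin D, (p s.1 : ℝ)) * Real.exp ((∑ v, ∑ i, k v i) * t) := by
      rw [← Fintype.sum_prod_type', Finset.sum_mul, Real.exp_sum, ← Finset.prod_mul_distrib]
      refine le_trans (by exact_mod_cast b2) (Finset.prod_le_prod (fun s _ => by positivity)
        fun s _ => pow_ex_le (hS.two_le s.1) (mul_nonneg (hk s.1 s.2) ht))
    have h3 : (∏ v, (L v).det) ≠ 0 := Finset.prod_ne_zero_iff.2 fun v _ => hS.det v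
    have h4 := exp_le_of_dvd hS.two_le hS.cop (fun v => ∑ i, k v i) (fun _ => t)
      (mul_ne_zero h3 b1) fun v => by
        refine (pow_dvd_pow _ (ex_sum_le (hS.two_le v) _ _ _)).trans ?_
        rw [← Finset.prod_pow_eq_pow_sum]
        refine (prod_dvd_det (L v * B) _ fun i j => b3 (v, i) j).trans ?_
        rw [det_mul]
        exact mul_dvd_mul_right (Finset.dvd_prod_of_mem _ (Finset.mem_univ v)) _
    have h5 := Real.log_le_log b0 h2
    have h6 := Real.log_le_log (Real.exp_pos _) h4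
    rw [Real.log_mul (Finset.prod_pos fun s _ => by exact_mod_cast hp s.1).ne'
      (Real.exp_ne_zero _), Real.log_exp] at h5
    rw [Real.log_exp, ← Finset.sum_mul, Int.cast_mul, abs_mul,
      Real.log_mul (abs_ne_zero.2 (Int.cast_ne_zero.2 h3)) b0.ne'] at h6
    rw [h1, abs_le, sub_mul]
    constructor <;> linarith [le_abs_self (Real.log |(L0.det : ℝ)|),
      neg_abs_le (Real.log |(L0.det : ℝ)|), le_abs_self (Real.log |((∏ v, (L v).det : ℤ) : ℝ)|),
      abs_nonneg (Real.log |((∏ v, (L v).det : ℤ) : ℝ)|),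
      le_abs_self (Real.log (∏ s : κ × Fin D, (p s.1 : ℝ))),
      abs_nonneg (Real.log (∏ s : κ × Fin D, (p s.1 : ℝ)))]
  · obtain ⟨a, ha⟩ := b4 x fun s => hx.2 s.1 s.2
    have h1 : x = (B * V) *ᵥ (V⁻¹ *ᵥ a) := by
      rw [mulVec_mulVec, Matrix.mul_assoc, mul_nonsing_inv V hV, Matrix.mul_one, ha]
    refine ⟨_, h1, fun j hj => by_contra fun h2 => ?_⟩
    generalize V⁻¹ *ᵥ a = a' at h1 h2
    have h3 := bas_cramer _ μ hK m0 (by
      rw [m1, det_mul A, ← Int.cast_det, abs_mul, ← Int.cast_abs, Int.isUnit_iff_abs_eq.1 hV,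
        Int.cast_one, mul_one]) (fun i j => (m2 i j).2) (fun i => (a' i : ℝ)) (fun i => by
      have h4 := hx.1 i
      rw [h1, mulVec_mulVec] at h4
      rw [e, ← mulVec_mulVec, mulVec_diagonal, key, mul_one]
      convert h4 using 2
      simp [mulVec, dotProduct]) j
    have h4 : (1 : ℝ) ≤ |(a' j : ℝ)| := by exact_mod_cast Int.one_le_abs h2
    nlinarith [m0 j]

theorem t_BAS (hREDU : S_REDU) (hLAT : S_LAT) : S_BAS := by
  intro D κ _ p L0 L c k U N hS hk hN
  obtain ⟨K, C, hK, h⟩ := bas_one hREDU hLAT c hS hk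
  choose Y μ y1 y2 m0 y3 y4 y5 using fun n => h (N n)
  set E := ∑ v, ∑ i, k v i - ∑ i, c i with hE
  let f : Fin D → ℕ → ℝ := fun j n => Real.log (μ n j) / N n
  have hf : ∀ n j, 0 < N n → μ n j = Real.exp (f j n * N n) := fun n j h => by
    rw [div_mul_cancel₀ _ h.ne', Real.exp_log (m0 n j)]
  have h1 : ∀ n, 0 < N n → |∑ j, f j n - E| ≤ C / N n := fun n h => by
    rw [← Finset.sum_div, le_div_iff₀ h, ← abs_of_pos h, ← abs_mul, abs_of_pos h, sub_mul,
      div_mul_cancel₀ _ h.ne']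
    exact y4 n h.le
  have h2 : Tendsto (fun n => ∑ j, f j n) U (nhds E) :=
    tendsto_sub_nhds_zero_iff.1 (squeeze_zero_norm' ((hN.eventually_gt_atTop 0).mono h1)
      (hN.const_div_atTop C))
  have hK' := Real.log_nonneg hK
  have h3 : ∀ n j, 1 ≤ N n → 0 ≤ f j n + (Real.log K + ∑ i, |c i|) := fun n j h => by
    obtain ⟨i, hi⟩ : ∃ i, (L0 * Y n) i j ≠ 0 := by
      by_contra h4
      push Not at h4
      exact mul_ne_zero hS.det0 (y1 n) (det_mul L0 (Y n) ▸ det_eq_zero_of_column_eq_zero j h4)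
    have h4 : (1 : ℝ) ≤ |(((L0 * Y n) i j : ℤ) : ℝ)| := by exact_mod_cast Int.one_le_abs hi
    have h5 := h4.trans (y3 n i j).2
    rw [hf n j (by linarith), ← Real.exp_log (zero_lt_one.trans_le hK), ← Real.exp_add,
      ← Real.exp_add, Real.one_le_exp_iff] at h5
    have h6 := (le_abs_self _).trans (Finset.single_le_sum (f := fun i => |c i|)
      (fun _ _ => abs_nonneg _) (Finset.mem_univ i))
    refine nonneg_of_mul_nonneg_left (b := N n) ?_ (by linarith)
    nlinarith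
  choose ν hν using fun j => exists_lim U (f := f j) (a := -(Real.log K + ∑ i, |c i|))
    (b := E + 1 + D * (Real.log K + ∑ i, |c i|)) (by
      filter_upwards [hN.eventually_ge_atTop 1, h2.eventually_le_const (lt_add_one E)] with n a b
      have h4 := Finset.single_le_sum (f := fun j => f j n + (Real.log K + ∑ i, |c i|))
        (fun j _ => h3 n j a) (Finset.mem_univ j)
      have h5 : 0 ≤ ∑ i, |c i| := Finset.sum_nonneg fun _ _ => abs_nonneg _
      rw [Finset.sum_add_distrib, Finset.sum_const, Finset.card_univ, Fintype.card_fin,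
        nsmul_eq_mul] at h4
      exact ⟨by linarith [h3 n j a], by linarith⟩)
  refine ⟨Y, ν, ?_, y1, y2, fun η hη => ?_, ?_⟩
  · rw [tendsto_nhds_unique (tendsto_finsetSum _ fun j _ => hν j) h2, hE]
    ring
  · filter_upwards [hN.eventually_gt_atTop 0, ev_le_exp hN K (half_pos hη), eventually_all.2
      fun j => (hν j).eventually_le_const (lt_add_of_pos_right _ (half_pos hη))] with n a b d i j
    have h4 : ∀ l, Real.exp (c i * N n) * (K * μ n l) ≤ Real.exp ((c i + ν l + η) * N n) := by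
      intro l
      rw [hf n l a, show (c i + ν l + η) * N n =
        c i * N n + (η / 2 * N n + (ν l + η / 2) * N n) by ring, Real.exp_add, Real.exp_add]
      gcongr
      exact d l
    rcases min_choice (ν i) (ν j) with e | e <;> rw [e]
    · exact (y3 n i j).1.trans (h4 i)
    · exact (y3 n i j).2.trans (h4 j)
  · have h4 : ∀ j, ∀ᶠ n in U, 0 < ν j → D.factorial * K ^ D < μ n j := fun j => by
      by_cases h5 : 0 < ν j
      · filter_upwards [hN.eventually_gt_atTop 0, ev_le_exp hN (D.factorial * K ^ D) (half_pos h5),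
          (hν j).eventually_const_lt (half_lt_self h5)] with n a b d _
        rw [hf n j a]
        exact b.trans_lt (Real.exp_lt_exp.2 (mul_lt_mul_of_pos_right d a))
      · exact Eventually.of_forall fun n h6 => absurd h6 h5
    filter_upwards [eventually_all.2 h4] with n hn x hx
    obtain ⟨a, h5, h6⟩ := y5 n x hx
    exact ⟨a, h5, fun j hj => h6 j (hn j hj)⟩

end Pool.Agent.P.MP_fc15d7_nt
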