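import Pool.Agent.P.MP_fc15d7_nt.Iface

/-! The Cauchy-Binet formula and compound matrices. -/

set_option autoImplicit false

open Matrix

namespace Pool.Agent.P.MP_fc15d7_nt

variable {D a : ℕ}

theorem cmp_inj (s : Sb D a) : Function.Injective (emb s) := (s.1.orderEmbOfFin s.2).injective

theorem cmp_range (s : Sb D a) : Set.range (emb s) = s.1 := s.1.range_orderEmbOfFin s.2

theorem cmp_cb {R : Type} [CommRing R] (M : Matrix (Fin a) (Fin D) R)
    (M' : Matrix (Fin D) (Fin a) R) : (M * M').det =
      ∑ t : Sb D a, (M.submatrix id (emb t)).det * (M'.submatrix (emb t) id).det := by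
  have h1 : (M * M').det = ∑ f : Fin a → Fin D, (M.submatrix id f).det * ∏ i, M' (f i) i := by
    simp only [det_apply', mul_apply, Finset.prod_univ_sum, Finset.mul_sum, Fintype.piFinset_univ,
      Finset.sum_mul, submatrix_apply, id, Finset.prod_mul_distrib, mul_assoc]
    rw [Finset.sum_comm]
  rw [h1]
  simp only [det_apply' (M'.submatrix _ _), Finset.mul_sum, ← Fintype.sum_prod_type']
  refine (Finset.sum_of_injOn (fun x : Sb D a × Equiv.Perm (Fin a) => emb x.1 ∘ x.2) ?_
    (fun _ _ => Finset.mem_univ _) (fun f _ hf => ?_) fun x _ => ?_).symm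
  · rintro ⟨t, σ⟩ - ⟨t', σ'⟩ - h
    have h2 := congrArg Set.range h
    simp only [σ.surjective.range_comp, σ'.surjective.range_comp, cmp_range,
      Finset.coe_inj] at h2
    obtain rfl : t = t' := Subtype.ext h2
    exact Prod.ext rfl (Equiv.ext fun i => cmp_inj t (congrFun h i))
  · by_cases hi : Function.Injective f
    · let t : Sb D a := ⟨Finset.univ.image f, by rw [Finset.card_image_of_injective _ hi]; simp⟩
      have h2 : ∀ i, ∃ j, emb t j = f i := fun i => by
        rw [← Set.mem_range, cmp_range]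
        simp [t]
      choose g hg using h2
      have h3 : Function.Injective g := fun i j h => hi (by rw [← hg, h, hg])
      exact (hf ⟨(t, Equiv.ofBijective g h3.bijective_of_finite), by simp, funext hg⟩).elim
    · obtain ⟨i, j, h, hij⟩ := Function.not_injective_iff.1 hi
      rw [det_zero_of_column_eq hij fun k => by simp [h], zero_mul]
  · rw [show M.submatrix id (emb x.1 ∘ x.2) = (M.submatrix id (emb x.1)).submatrix id x.2 from rfl,
      det_permute']
    simp only [submatrix_apply, id, Function.comp]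
    ring

theorem cmp_mul {R : Type} [CommRing R] (A B : Matrix (Fin D) (Fin D) R) :
    cmp a (A * B) = cmp a A * cmp a B := by
  ext s t
  rw [mul_apply, cmp, of_apply, submatrix_mul A B _ id _ Function.bijective_id, cmp_cb]
  rfl

theorem cmp_smul_one (r : ℤ) :
    cmp a (r • (1 : Matrix (Fin D) (Fin D) ℤ)) = r ^ a • (1 : Matrix (Sb D a) (Sb D a) ℤ) := by
  ext s t
  rw [cmp, of_apply, submatrix_smul, Pi.smul_apply, Pi.smul_apply, det_smul, Fintype.card_fin,
    Matrix.smul_apply, smul_eq_mul]
  congr 1
  by_cases h : s = t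
  · rw [h, submatrix_one _ (cmp_inj t), det_one, one_apply_eq]
  · obtain ⟨x, hx, hx'⟩ : ∃ x ∈ s.1, x ∉ t.1 := by
      by_contra hc
      push Not at hc
      exact h (Subtype.ext (Finset.eq_of_subset_of_card_le hc (t.2.trans s.2.symm).le))
    rw [← Finset.mem_coe, ← cmp_range] at hx hx'
    obtain ⟨i, rfl⟩ := hx
    rw [one_apply_ne h]
    exact det_eq_zero_of_row_eq_zero i fun j => one_apply_ne fun e => hx' ⟨j, e.symm⟩

theorem t_CMP : S_CMP := by
  refine ⟨fun _ _ _ _ => cmp_cb, fun _ _ _ _ => cmp_mul, fun D a A hA h => ?_, fun D a => ?_⟩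
  · have h1 := congrArg det (cmp_mul (a := a) A A.adjugate)
    rw [mul_adjugate, cmp_smul_one, det_mul, h, zero_mul, det_smul, det_one, mul_one] at h1
    exact pow_ne_zero _ (pow_ne_zero _ hA) h1
  · let n : Fin D → ℕ := fun i => (Finset.univ.filter fun s : Sb D a => i ∈ s.1).card
    have h1 : ∀ i j, n i ≤ n j := fun i j => Finset.card_le_card_of_injOn
      (fun s => ⟨s.1.map (Equiv.swap i j).toEmbedding, (Finset.card_map _).trans s.2⟩)
      (fun s hs => by simpa using hs)
      fun s _ t _ h => Subtype.ext (Finset.map_injective _ (congrArg Subtype.val h))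
    refine ⟨Finset.univ.sup n, fun f => ?_⟩
    have h2 : ∀ s : Sb D a, ∑ i ∈ s.1, f i = ∑ i, if i ∈ s.1 then f i else 0 := fun s => by simp
    simp only [h2]
    rw [Finset.sum_comm, Finset.mul_sum]
    refine Finset.sum_congr rfl fun i _ => ?_
    rw [← Finset.sum_filter, Finset.sum_const, nsmul_eq_mul]
    congr 2
    exact le_antisymm (Finset.le_sup (f := n) (Finset.mem_univ i)) (Finset.sup_le fun j _ => h1 j i)

end Pool.Agent.P.MP_fc15d7_nt
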